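import Pool.Agent.Lib.MP_cd2b7c_an.SV.Defs

/-! A primitive block. -/

namespace Pool.Agent.Lib.MP_cd2b7c_an.SV

variable {Q : Type*} [Group Q] {V : Type*} [NormedAddCommGroup V] [InnerProductSpace ℂ V]
  [FiniteDimensional ℂ V] {π : Q →* (V →L[ℂ] V)}

instance sub_complete (B : Submodule ℂ V) : CompleteSpace B := FiniteDimensional.complete ℂ B

/-- A commuting family of operators has a joint eigenvector. -/
theorem blk_eig {B : Type*} [NormedAddCommGroup B] [InnerProductSpace ℂ B] [FiniteDimensional ℂ B]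
    [Nontrivial B] {F : Set (B →L[ℂ] B)} (hc : ∀ a ∈ F, ∀ b ∈ F, Commute a b) :
    ∃ (lam : (B →L[ℂ] B) → ℂ) (v : B), v ≠ 0 ∧ ∀ a ∈ F, a v = lam a • v := by
  obtain ⟨P, ⟨P0, hP⟩, hmin⟩ := (wellFounded_lt (α := Submodule ℂ B)).has_min
    {P | P ≠ ⊥ ∧ ∀ a ∈ F, ∀ v ∈ P, a v ∈ P} ⟨⊤, top_ne_bot, fun _ _ _ _ => trivial⟩
  have key : ∀ a, ∃ z : ℂ, a ∈ F → ∀ v ∈ P, a v = z • v := by
    intro a
    by_cases ha : a ∈ F
    swap
    · exact ⟨0, fun h => absurd h ha⟩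
    have : Nontrivial P := Submodule.nontrivial_iff_ne_bot.2 P0
    obtain ⟨z, hz⟩ := Module.End.exists_eigenvalue (a.toLinearMap.restrict (hP a ha))
    obtain ⟨w, hw⟩ := hz.exists_hasEigenvector
    have e : a w = z • (w : B) := congrArg Subtype.val hw.apply_eq_smul
    let P' : Submodule ℂ B :=
      { carrier := {v | v ∈ P ∧ a v = z • v}
        add_mem' := fun h1 h2 => ⟨P.add_mem h1.1 h2.1, by rw [map_add, h1.2, h2.2, smul_add]⟩
        zero_mem' := ⟨P.zero_mem, by simp⟩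
        smul_mem' := fun c _ h => ⟨P.smul_mem c h.1, by rw [map_smul, h.2, smul_comm]⟩ }
    have h1 : P' ≤ P := fun _ h => h.1
    have h2 : P' = P := h1.eq_of_not_lt (hmin P' ⟨?_, fun b hb v hv => ⟨hP b hb v hv.1, by
      rw [← mul_apply_eq_comp, (hc a ha b hb).eq, mul_apply_eq_comp, hv.2, map_smul]⟩⟩)
    · exact ⟨z, fun _ v hv => (h2.ge hv).2⟩
    · exact (Submodule.ne_bot_iff _).2 ⟨w, ⟨w.2, e⟩, fun h => hw.2 (Subtype.ext h)⟩
  choose lam hl using key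
  obtain ⟨v, hv, v0⟩ := (Submodule.ne_bot_iff _).1 P0
  exact ⟨lam, v, v0, fun a ha => hl a ha v hv⟩

/-- An invariant commutative family splits the space into blocks. -/
theorem blk_split {B H : Type*} [NormedAddCommGroup B] [InnerProductSpace ℂ B] [CompleteSpace B]
    [FiniteDimensional ℂ B] [Nontrivial B] [Group H] (σ : H →* UU B) {F : Set (B →L[ℂ] B)}
    (hs : ∀ a ∈ F, star a ∈ F) (hc : ∀ a ∈ F, ∀ b ∈ F, Commute a b)
    (hj : ∀ h, ∀ a ∈ F, (σ h : B →L[ℂ] B) * a * star (σ h : B →L[ℂ] B) ∈ F) :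
    ∃ (E : Submodule ℂ B) (K : Subgroup H), E ≠ ⊥ ∧ (∀ a ∈ F, ∃ z : ℂ, ∀ v ∈ E, a v = z • v) ∧
      (∀ h ∈ K, ∀ v ∈ E, (σ h : B →L[ℂ] B) v ∈ E) ∧
      ∀ h ∉ K, ∀ v ∈ E, ∀ u ∈ E, inner ℂ u ((σ h : B →L[ℂ] B) v) = 0 := by
  obtain ⟨lam, w, w0, hw⟩ := blk_eig hc
  let E : Submodule ℂ B :=
    { carrier := {v | ∀ a ∈ F, a v = lam a • v}
      add_mem' := fun h1 h2 a ha => by rw [map_add, h1 a ha, h2 a ha, smul_add]
      zero_mem' := by simp
      smul_mem' := fun c _ h a ha => by rw [map_smul, h a ha, smul_comm] }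
  let ad : H → (B →L[ℂ] B) → (B →L[ℂ] B) := fun h a =>
    (σ h : B →L[ℂ] B) * a * star (σ h : B →L[ℂ] B)
  have am : ∀ g h a, ad (g * h) a = ad g (ad h a) := fun g h a => by
    simp only [ad, map_mul, Submonoid.coe_mul, star_mul, mul_assoc]
  have a1 : ∀ a, ad 1 a = a := fun a => by simp [ad]
  let K : Subgroup H :=
    { carrier := {h | ∀ a ∈ F, lam (ad h a) = lam a}
      one_mem' := fun a _ => by rw [a1]
      mul_mem' := fun {g h} hg hh a ha => by rw [am, hg _ (hj h a ha), hh a ha]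
      inv_mem' := fun {g} hg a ha => by
        rw [← hg _ (hj g⁻¹ a ha), ← am, mul_inv_cancel, a1] }
  have mv : ∀ h, ∀ a ∈ F, ∀ v ∈ E,
      a ((σ h : B →L[ℂ] B) v) = lam (ad h⁻¹ a) • (σ h : B →L[ℂ] B) v := fun h a ha v hv => by
    have e : a * (σ h : B →L[ℂ] B) = (σ h : B →L[ℂ] B) * ad h⁻¹ a := by
      simp only [ad, map_inv, ← Unitary.star_eq_inv, Unitary.coe_star, star_star, ← mul_assoc]
      rw [(σ h).2.2, one_mul]
    rw [← map_smul, ← hv _ (hj h⁻¹ a ha), ← mul_apply_eq_comp, e, mul_apply_eq_comp]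
  have adj : ∀ a ∈ F, ∀ u ∈ E, ∀ y, inner ℂ u (a y) = star (lam (star a)) * inner ℂ u y :=
    fun a ha u hu y => by
      rw [← ContinuousLinearMap.adjoint_inner_left, ← ContinuousLinearMap.star_eq_adjoint,
        hu _ (hs a ha), inner_smul_left]
      rfl
  have st : ∀ a ∈ F, star (lam (star a)) = lam a := fun a ha => by
    have e := adj a ha w hw w
    rw [hw a ha, inner_smul_right] at e
    exact (mul_right_cancel₀ (inner_self_ne_zero.2 w0) e).symm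
  refine ⟨E, K, (Submodule.ne_bot_iff _).2 ⟨w, hw, w0⟩, fun a ha => ⟨lam a, fun v hv => hv a ha⟩,
    fun h hh v hv a ha => by rw [mv h a ha v hv, K.inv_mem hh a ha], fun h hh v hv u hu => ?_⟩
  by_contra h0
  refine hh (K.inv_mem_iff.1 fun a ha => ?_)
  have e := adj a ha u hu ((σ h : B →L[ℂ] B) v)
  rw [mv h a ha v hv, inner_smul_right, st a ha] at e
  exact mul_right_cancel₀ h0 e

omit [FiniteDimensional ℂ V] in
theorem blk_inv (x : Q) (v : V) : π x⁻¹ (π x v) = v := by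
  rw [← mul_apply_eq_comp, ← map_mul, inv_mul_cancel, map_one, one_apply_eq_self]

/-- Restriction to an invariant subspace. -/
theorem blk_res (iso : ∀ x u v, inner ℂ (π x u) (π x v) = inner ℂ u v) {B : Submodule ℂ V}
    {H : Subgroup Q} (hB : ∀ h ∈ H, ∀ v ∈ B, π h v ∈ B) :
    ∃ σ : H →* UU B, ∀ (h : H) (v : B), (((σ h : B →L[ℂ] B) v : B) : V) = π h v := by
  let r : H → (B →L[ℂ] B) := fun h =>
    ((π h).comp B.subtypeL).codRestrict B fun v => hB h h.2 v v.2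
  have hr : ∀ (h : H) (v : B), ((r h v : B) : V) = π h v := fun _ _ => rfl
  have rm : ∀ g h : H, r (g * h) = r g * r h := fun g h => by
    ext v
    rw [mul_apply_eq_comp, hr, hr, hr, Subgroup.coe_mul, map_mul, mul_apply_eq_comp]
  have r1 : r 1 = 1 := by
    ext v
    rw [hr, Subgroup.coe_one, map_one, one_apply_eq_self, one_apply_eq_self]
  have rs : ∀ h : H, star (r h) = r h⁻¹ := fun h => by
    rw [ContinuousLinearMap.star_eq_adjoint, eq_comm, ContinuousLinearMap.eq_adjoint_iff]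
    intro u v
    rw [Submodule.coe_inner, Submodule.coe_inner, hr, hr, ← iso h, Subgroup.coe_inv]
    congr 1
    simpa using blk_inv (π := π) (h : Q)⁻¹ (u : V)
  have ru : ∀ h : H, r h ∈ unitary (B →L[ℂ] B) := fun h =>
    ⟨by rw [rs, ← rm, inv_mul_cancel, r1], by rw [rs, ← rm, mul_inv_cancel, r1]⟩
  exact ⟨⟨⟨fun h => ⟨r h, ru h⟩, Subtype.ext r1⟩, fun g h => Subtype.ext (rm g h)⟩, hr⟩

theorem block (iso : ∀ x u v, inner ℂ (π x u) (π x v) = inner ℂ u v) (M : Submodule ℂ V)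
    (M0 : M ≠ ⊥) (hM : ∀ x, ∀ v ∈ M, π x v ∈ M) :
    ∃ (B : Submodule ℂ V) (H : Subgroup Q) (σ : H →* UU B), B ≤ M ∧ B ≠ ⊥ ∧
      (∀ (h : H) (v : B), (((σ h : B →L[ℂ] B) v : B) : V) = π h v) ∧
      (∀ x ∉ H, ∀ v ∈ B, ∀ w ∈ B, inner ℂ w (π x v) = 0) ∧ Prim σ := by
  obtain ⟨B, ⟨BM, B0, H, hB, ho⟩, hmin⟩ := (wellFounded_lt (α := Submodule ℂ V)).has_min
    {B | B ≤ M ∧ B ≠ ⊥ ∧ ∃ H : Subgroup Q, (∀ h ∈ H, ∀ v ∈ B, π h v ∈ B) ∧
      ∀ x ∉ H, ∀ v ∈ B, ∀ w ∈ B, inner ℂ w (π x v) = 0}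
    ⟨M, le_rfl, M0, ⊤, fun h _ => hM h, fun x hx => absurd (Subgroup.mem_top x) hx⟩
  obtain ⟨σ, hσ⟩ := blk_res iso hB
  refine ⟨B, H, σ, BM, B0, hσ, ho, fun F hs hc hj a ha => ?_⟩
  have : Nontrivial B := Submodule.nontrivial_iff_ne_bot.2 B0
  obtain ⟨E, K, E0, e1, e2, e3⟩ := blk_split σ hs hc hj
  have h1 : E.map B.subtype ≤ B := B.map_subtype_le E
  have h2 : E.map B.subtype = B := h1.eq_of_not_lt (hmin _ ⟨h1.trans BM, ?_, K.map H.subtype,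
    ?_, ?_⟩)
  · obtain ⟨z, hz⟩ := e1 a ha
    refine ⟨z, ContinuousLinearMap.ext fun v => ?_⟩
    obtain ⟨u, hu, e⟩ := h2.ge v.2
    have e' : u = v := Subtype.ext e
    rw [← e', hz u hu]
    rfl
  · obtain ⟨w, hw, w0⟩ := (Submodule.ne_bot_iff _).1 E0
    exact (Submodule.ne_bot_iff _).2 ⟨w, ⟨w, hw, rfl⟩, fun h => w0 (Subtype.ext h)⟩
  · rintro _ ⟨h, hh, rfl⟩ _ ⟨v, hv, rfl⟩
    exact ⟨_, e2 h hh v hv, hσ h v⟩
  · rintro x hx _ ⟨v, hv, rfl⟩ _ ⟨u, hu, rfl⟩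
    by_cases xH : x ∈ H
    · have e := e3 ⟨x, xH⟩ (fun h => hx ⟨_, h, rfl⟩) v hv u hu
      rwa [Submodule.coe_inner, hσ] at e
    · exact ho x xH v v.2 u u.2

end Pool.Agent.Lib.MP_cd2b7c_an.SV
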