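import Pool.Agent.Lib.MP_cd2b7c_an.NA.Boost

/-! Boosting a bound for one copy. -/

open Finset
open scoped BigOperators

namespace Pool.Agent.Lib.MP_cd2b7c_an.SV

open NA

variable {Q : Type*} [Group Q] [Fintype Q] {V : Type*} [NormedAddCommGroup V]
  [InnerProductSpace ℂ V] [FiniteDimensional ℂ V] {π : Q →* (V →L[ℂ] V)}
  (iso : ∀ x u v, inner ℂ (π x u) (π x v) = inner ℂ u v) {κ : Type*} [Fintype κ] {c : κ → Q}
  {R r : ℕ}
  (one : ∀ v ∈ zr π, 𝔼 z : Q × Q, ‖(av π (lt (gn c z)) ^ r) v‖ ^ 2 ≤ 8 / R * ‖v‖ ^ 2)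
include iso one

omit [FiniteDimensional ℂ V] in
theorem prod_copy' (k : ℕ) : ∃ Z Y : (Fin k → Q × Q) → V →L[ℂ] V,
      (∀ ω u v, inner ℂ (Z ω u) v = inner ℂ u (Y ω v)) ∧
      (∀ M : Submodule ℂ V, (∀ x, ∀ v ∈ M, π x v ∈ M) → ∀ ω, ∀ v ∈ M, Z ω v ∈ M ∧ Y ω v ∈ M) ∧
      (∀ v ∈ zr π, 𝔼 ω, ‖Z ω v‖ ^ 2 ≤ (8 / R) ^ k * ‖v‖ ^ 2) ∧ (∀ ω v, ‖Y ω v‖ ≤ ‖v‖) ∧
      ∀ ω v (b : ℝ), 0 ≤ b → (∀ j, ‖π (gk c ω j) v - v‖ ≤ b) → ‖Y ω v - v‖ ≤ k * r * b := by
  have nr := nr_of_iso iso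
  induction k with
  | zero => exact ⟨fun _ => 1, fun _ => 1, by simp, by simp, by simp, by simp, by simp⟩
  | succ k ih =>
    obtain ⟨Z, Y, h1, h2, h3, h4, h5⟩ := ih
    refine ⟨fun ω => av π (lt (gn c (ω 0))) ^ r * Z (Fin.tail ω),
      fun ω => Y (Fin.tail ω) * av π (lt (gn c (ω 0))) ^ r, fun ω u v => ?_,
      fun M hM ω v hv => ⟨?_, ?_⟩, fun v hv => ?_, fun ω v => ?_, fun ω v b b0 hb => ?_⟩
    · rw [mul_apply_eq_comp, mul_apply_eq_comp, walk_pow_symm iso, h1]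
    · exact av_pow_mem hM _ _ (h2 M hM _ _ hv).1
    · exact (h2 M hM _ _ (av_pow_mem hM _ _ hv)).2
    · rw [expect_cons]
      simp only [Fin.cons_zero, Fin.tail_cons, mul_apply_eq_comp]
      calc _ ≤ 𝔼 ω, 8 / R * ‖Z ω v‖ ^ 2 := expect_le_expect fun ω _ =>
            one _ (h2 _ zr_inv ω v hv).1
        _ ≤ 8 / R * ((8 / R) ^ k * ‖v‖ ^ 2) := by
            rw [← mul_expect]
            exact mul_le_mul_of_nonneg_left (h3 v hv) (by positivity)
        _ = _ := by ring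
    · exact (h4 _ _).trans (norm_av_pow_le nr (lt (gn c (ω 0))) v (Nat.zero_le r))
    · have a1 := h5 (Fin.tail ω) v b b0 fun j => hb (j.1.succ, j.2)
      have a2 := mv_pow (norm_av_le nr (lt (gn c (ω 0))))
        (norm_av_sub_le _ (mv_lt nr _ b0 fun o => hb (0, o))) r
      have a3 := mv_comp (h4 _) a1 a2
      rw [mul_apply_eq_comp, Nat.cast_succ]
      linarith

theorem fin_decay' {k t : ℕ} (k0 : 0 < k) (R0 : 0 < R)
    (ht : 2 ^ k * (8 * (k * (Fintype.card κ + 1)) * (k * r) ^ 2 * R) ≤ t) {v : V} (hv : ∑ x, π x v = 0) :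
    𝔼 ω : Fin k → Q × Q, ‖(av π (lt (gk c ω)) ^ t) v‖ ^ 2 ≤ 5 * (8 / R) ^ k * ‖v‖ ^ 2 := by
  have nr := nr_of_iso iso
  have : Nonempty (Fin k) := ⟨⟨0, k0⟩⟩
  refine top nr (fun ω => av π (lt (gk c ω)) ^ t) (fun x v => ?_) zr_inv
    (fun M M1 M0 hM l hl => ?_) (mem_zr.2 hv)
  · refine (Fintype.expect_equiv (Equiv.piCongrRight fun _ =>
      (MulAut.conj x).toEquiv.prodCongr (Equiv.mulLeft x)) _ _ fun ω => ?_).symm
    rw [← norm_walk_conj nr _ x]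
    have : (fun i => x * gk c ω i * x⁻¹) = gk c (Equiv.piCongrRight (fun _ =>
        (MulAut.conj x).toEquiv.prodCongr (Equiv.mulLeft x)) ω) :=
      funext fun j => (congrFun (gn_conj c (ω j.1) x) j.2).symm
    rw [this]
  set n := k * (Fintype.card κ + 1) with hn
  obtain ⟨Z, Y, h1, h2, h3, -, h5⟩ := prod_copy' iso one k
  let b := stdOrthonormalBasis ℂ M
  let e := fun i => (b i : V)
  have eM : ∀ i, e i ∈ M := fun i => (b i).2
  have ho : Orthonormal ℂ e := b.orthonormal.comp_linearIsometry M.subtypeₗᵢ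
  have hP : ∀ u ∈ M, ‖u‖ ^ 2 = ∑ j, ‖inner ℂ (e j) u‖ ^ 2 := fun u hu =>
    (b.sum_sq_norm_inner_right ⟨u, hu⟩).symm
  set D : ℝ := (Module.finrank ℂ M : ℝ)
  have D0 : 0 < D := by
    have := Submodule.nontrivial_iff_ne_bot.2 M0
    exact Nat.cast_pos.2 Module.finrank_pos
  set β : ℝ := (8 / R) ^ k
  have β0 : 0 ≤ β := by positivity
  have R1 : (1 : ℝ) ≤ R := by exact_mod_cast R0
  let A : ℕ → ℝ := fun m => 𝔼 ω : Fin k → Q × Q, ∑ i, ‖(av π (lt (gk c ω)) ^ m) (e i)‖ ^ 2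
  have A0 : ∀ m, 0 ≤ A m := fun m => expect_nonneg fun _ _ => by positivity
  have mono : ∀ m m', m ≤ m' → A m' ≤ A m := fun m m' h => expect_le_expect fun ω _ =>
    sum_le_sum fun i _ => pow_le_pow_left₀ (norm_nonneg _) (norm_av_pow_le nr _ _ h) 2
  have AD : A 0 = D := by simp [A, ho.1, D]
  have At : A t = l * D := by
    simp only [A, expect_sum_comm, fun i => hl _ (eM i), ho.1]
    simp [D, mul_comm]
  have stp : ∀ m, 8 * n * (k * r) ^ 2 * R ≤ m → A (2 * m) ≤ 2 * β * D + A m / (2 * R) := fun m hm => by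
    have hm' : (8 * n * (k * r) ^ 2 * R : ℝ) ≤ m := by exact_mod_cast hm
    have s1 : ∀ ω : Fin k → Q × Q, ∑ i, ‖(av π (lt (gk c ω)) ^ (2 * m)) (e i)‖ ^ 2 ≤
        2 * ∑ i, ‖Z ω (e i)‖ ^ 2 + (∑ i, ‖(av π (lt (gk c ω)) ^ m) (e i)‖ ^ 2) / (2 * R) := fun ω => by
      set W := av π (lt (gk c ω))
      have s2 : ∑ i, ‖Y ω ((W ^ (2 * m)) (e i))‖ ^ 2 ≤ ∑ i, ‖Z ω (e i)‖ ^ 2 := by
        refine (hs ho (S := W ^ (2 * m) * Z ω) (T := Y ω * W ^ (2 * m)) (fun u v => ?_)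
          fun i => hP _ (h2 M hM ω _ (av_pow_mem hM _ _ (eM i))).2).trans (sum_le_sum fun i _ => ?_)
        · rw [mul_apply_eq_comp, mul_apply_eq_comp, walk_pow_symm iso, h1]
        · exact pow_le_pow_left₀ (norm_nonneg _)
            (norm_av_pow_le nr (lt (gk c ω)) (Z ω (e i)) (Nat.zero_le (2 * m))) 2
      have s3 : ∀ i, ‖(W ^ (2 * m)) (e i)‖ ^ 2 ≤
          2 * ‖Y ω ((W ^ (2 * m)) (e i))‖ ^ 2 + ‖(W ^ m) (e i)‖ ^ 2 / (2 * R) := fun i => by
        rw [two_mul m, pow_add, mul_apply_eq_comp]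
        set u := (W ^ m) (e i)
        have m0 : (0 : ℝ) < 2 * m + 1 := by positivity
        have a1 := h5 ω ((W ^ m) u) √(4 * n * ‖u‖ ^ 2 / (2 * m + 1)) (Real.sqrt_nonneg _) fun j => by
          refine Real.le_sqrt_of_sq_le ?_
          rw [le_div_iff₀' m0]
          simpa [hn] using energy_le iso (gk c ω) m u j
        have a2 := pow_le_pow_left₀ (norm_nonneg _) a1 2
        rw [mul_pow, Real.sq_sqrt (by positivity)] at a2
        have a3 : (k * r : ℝ) ^ 2 * (4 * n * ‖u‖ ^ 2 / (2 * m + 1)) ≤ ‖u‖ ^ 2 / (4 * R) := by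
          rw [← mul_div_assoc, div_le_div_iff₀ m0 (by positivity)]
          nlinarith [mul_le_mul_of_nonneg_left hm' (sq_nonneg ‖u‖), sq_nonneg ‖u‖]
        have a4 := norm_sub_le (Y ω ((W ^ m) u)) (Y ω ((W ^ m) u) - (W ^ m) u)
        rw [sub_sub_cancel] at a4
        have a5 : ‖u‖ ^ 2 / (2 * R) = 2 * (‖u‖ ^ 2 / (4 * R)) := by ring
        nlinarith [pow_le_pow_left₀ (norm_nonneg _) a4 2,
          sq_nonneg (‖Y ω ((W ^ m) u)‖ - ‖Y ω ((W ^ m) u) - (W ^ m) u‖)]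
      refine (sum_le_sum fun i _ => s3 i).trans ?_
      rw [sum_add_distrib, ← mul_sum, ← sum_div]
      linarith
    refine (expect_le_expect fun ω _ => s1 ω).trans ?_
    rw [expect_add_distrib, ← mul_expect, ← expect_div, expect_sum_comm]
    have s4 := sum_le_sum fun i (_ : i ∈ univ) => h3 _ (M1 (eM i))
    simp only [ho.1, one_pow, mul_one, sum_const, card_univ, Fintype.card_fin, nsmul_eq_mul] at s4
    linarith
  have it : ∀ j, A (2 ^ j * (8 * n * (k * r) ^ 2 * R)) ≤ 4 * β * D + D / (2 * R) ^ j := fun j => by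
    induction j with
    | zero => rw [pow_zero (2 * R : ℝ), div_one]; linarith [mono _ _ (Nat.zero_le (2 ^ 0 * (8 * n * (k * r) ^ 2 * R))), mul_nonneg β0 D0.le]
    | succ j ih =>
      rw [pow_succ' 2, mul_assoc 2]
      refine (stp _ (Nat.le_mul_of_pos_left _ (by positivity))).trans ?_
      have a1 := div_le_div_of_nonneg_right ih (by positivity : (0 : ℝ) ≤ 2 * R)
      have a2 : 4 * β * D / (2 * R) ≤ 2 * β * D := by
        rw [div_le_iff₀ (by positivity)]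
        nlinarith [mul_nonneg β0 D0.le]
      rw [add_div, div_div, ← pow_succ] at a1
      linarith
  have a1 := (mono _ t ht).trans (it k)
  have a2 : D / (2 * R) ^ k ≤ β * D := by
    rw [div_eq_inv_mul, ← inv_pow]
    refine mul_le_mul_of_nonneg_right (pow_le_pow_left₀ (by positivity) ?_ k) D0.le
    rw [inv_eq_one_div, div_le_div_iff₀ (by positivity) (by positivity)]
    linarith
  rw [At] at a1
  exact le_of_mul_le_mul_right (by linarith) D0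

end Pool.Agent.Lib.MP_cd2b7c_an.SV
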