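import Mathlib

/-! Definitions: averages over finite subgroups, projective unitary group, twirls, systems. -/

open Finset
open scoped BigOperators

namespace Pool.Agent.Lib.MP_cd2b7c_an.SV

section grp

variable {P : Type*} [Group P]

open Classical in
/-- The elements of a finite subgroup. -/
noncomputable def els (X : Subgroup P) : Finset P :=
  if h : (X : Set P).Finite then h.toFinset else ∅

/-- Average over a finite subgroup. -/
noncomputable def avg {E : Type*} [AddCommGroup E] [Module ℂ E] (X : Subgroup P) (F : P → E) : E :=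
  (Nat.card X : ℂ)⁻¹ • ∑ g ∈ els X, F g

/-- Average of a real function over a finite subgroup. -/
noncomputable def avr (X : Subgroup P) (F : P → ℝ) : ℝ := (Nat.card X : ℝ)⁻¹ * ∑ g ∈ els X, F g

theorem mem_els {X : Subgroup P} [Finite X] {g : P} : g ∈ els X ↔ g ∈ X := by
  have h : (X : Set P).Finite := Set.toFinite _
  rw [els, dif_pos h, h.mem_toFinset, SetLike.mem_coe]

theorem card_els (X : Subgroup P) [Finite X] : #(els X) = Nat.card X := by
  have h : (X : Set P).Finite := Set.toFinite _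
  rw [els, dif_pos h, ← Set.ncard_eq_toFinset_card _ h, ← Nat.card_coe_set_eq]
  rfl

theorem sum_els_equiv {E : Type*} [AddCommMonoid E] {X Y : Subgroup P} [Finite X] [Finite Y]
    (e : P ≃ P) (he : ∀ g, g ∈ X ↔ e g ∈ Y) (F : P → E) :
    ∑ g ∈ els X, F (e g) = ∑ g ∈ els Y, F g :=
  sum_equiv e (fun g => by rw [mem_els, mem_els, he]) fun _ _ => rfl

/-- Simple sections are commutative or of order at most `b`. -/
def Sec (P : Type*) [Group P] (b : ℕ) : Prop :=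
  ∀ (K : Subgroup P) (N : Subgroup K) [N.Normal], IsSimpleGroup (K ⧸ N) →
    (∀ x y : K ⧸ N, x * y = y * x) ∨ Nat.card (K ⧸ N) ≤ b

/-- A unimodular character of a subgroup, extended by zero. -/
def Tst (φ : P → ℂ) : Prop :=
  ∃ (K : Subgroup P) (l : K →* ℂ), (∀ k, ‖l k‖ = 1) ∧ (∀ k : K, φ k = l k) ∧ ∀ x ∉ K, φ x = 0

/-- A majorant that is an average of test functions and has small mean. -/
def Mj [Fintype P] (f : P → ℝ) (ε : ℝ) : Prop :=
  ∃ (n : ℕ) (φ : Fin (n + 1) → P → ℂ), (∀ i, Tst (φ i)) ∧ (∀ x, f x ≤ 𝔼 i, (φ i x).re) ∧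
    𝔼 i, 𝔼 x, (φ i x).re ≤ ε

/-- The conjugate of a subgroup. -/
def cj (x : P) (T : Subgroup P) : Subgroup P := T.map (MulAut.conj x).toMonoidHom

theorem mem_cj {x g : P} {T : Subgroup P} : g ∈ cj x T ↔ x⁻¹ * g * x ∈ T := by
  refine ⟨?_, fun h => ⟨_, h, by simp [mul_assoc]⟩⟩
  rintro ⟨y, hy, rfl⟩
  simpa [mul_assoc] using hy

end grp

section op

variable (B : Type*) [NormedAddCommGroup B] [InnerProductSpace ℂ B] [CompleteSpace B]

/-- The unitary group. -/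
noncomputable abbrev UU := unitary (B →L[ℂ] B)

/-- Scalar unitaries. -/
noncomputable def sc : Subgroup (UU B) where
  carrier := {u | ∃ z : ℂ, (u : B →L[ℂ] B) = z • 1}
  one_mem' := ⟨1, by simp⟩
  mul_mem' := by
    rintro u v ⟨y, hy⟩ ⟨z, hz⟩
    exact ⟨y * z, by rw [Submonoid.coe_mul, hy, hz, smul_mul_smul_comm, one_mul]⟩
  inv_mem' := by
    rintro u ⟨z, hz⟩
    exact ⟨star z, by rw [← Unitary.star_eq_inv, Unitary.coe_star, hz, star_smul, star_one]⟩

instance sc_normal : (sc B).Normal := ⟨by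
  rintro u ⟨z, hz⟩ g
  refine ⟨z, ?_⟩
  rw [Submonoid.coe_mul, Submonoid.coe_mul, hz, mul_smul_comm, mul_one, smul_mul_assoc,
    ← Submonoid.coe_mul, mul_inv_cancel, OneMemClass.coe_one]⟩

/-- The projective unitary group. -/
noncomputable abbrev PU := UU B ⧸ sc B

variable {B}

/-- The projection. -/
noncomputable def pr : UU B →* PU B := QuotientGroup.mk' (sc B)

/-- A chosen lift. -/
noncomputable def lf (g : PU B) : UU B := Quotient.out g

/-- The normalised trace. -/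
noncomputable def tau : (B →L[ℂ] B) →ₗ[ℂ] ℂ :=
  (Module.finrank ℂ B : ℂ)⁻¹ • (LinearMap.trace ℂ B ∘ₗ ContinuousLinearMap.coeLM ℂ)

/-- The twirl. -/
noncomputable def tw (X : Subgroup (PU B)) (a : B →L[ℂ] B) : B →L[ℂ] B :=
  avg X fun g => (lf g : B →L[ℂ] B) * a * star (lf g : B →L[ℂ] B)

/-- The mean square of the normalised trace. -/
noncomputable def sig (X : Subgroup (PU B)) : ℝ := avr X fun g => ‖tau (lf g : B →L[ℂ] B)‖ ^ 2

/-- The span of the lifts. -/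
noncomputable def sp (X : Subgroup (PU B)) : Submodule ℂ (B →L[ℂ] B) :=
  Submodule.span ℂ {a | ∃ u : UU B, pr u ∈ X ∧ a = u}

/-- Commuting with all lifts. -/
def Cm (X : Subgroup (PU B)) (a : B →L[ℂ] B) : Prop :=
  ∀ u : UU B, pr u ∈ X → Commute (u : B →L[ℂ] B) a

/-- The lifts of two subgroups commute. -/
def CC (X Y : Subgroup (PU B)) : Prop := ∀ u : UU B, pr u ∈ Y → Cm X u

/-- The centre of the span is scalar. -/
def Fac (X : Subgroup (PU B)) : Prop := ∀ a ∈ sp X, Cm X a → ∃ z : ℂ, a = z • 1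

variable {H : Type*} [Group H]

/-- Normalised by the image of the group. -/
def Nm (σ : H →* UU B) (X : Subgroup (PU B)) : Prop :=
  ∀ h, ∀ g ∈ X, pr (σ h) * g * (pr (σ h))⁻¹ ∈ X

/-- Primitivity: invariant commutative families are scalar. -/
def Prim (σ : H →* UU B) : Prop :=
  ∀ F : Set (B →L[ℂ] B), (∀ a ∈ F, star a ∈ F) → (∀ a ∈ F, ∀ b ∈ F, Commute a b) →
    (∀ h, ∀ a ∈ F, (σ h : B →L[ℂ] B) * a * star (σ h : B →L[ℂ] B) ∈ F) →
    ∀ a ∈ F, ∃ z : ℂ, a = z • 1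

/-- A commutative part and a family of small simple parts. -/
structure Sys (σ : H →* UU B) (b : ℕ) (G : Subgroup (PU B)) (J : Finset (Subgroup (PU B))) :
    Prop where
  fin0 : Finite G
  com0 : ∀ x ∈ G, ∀ y ∈ G, x * y = y * x
  nm0 : Nm σ G
  smp : ∀ T ∈ J, IsSimpleGroup T
  ncm : ∀ T ∈ J, ¬ ∀ x ∈ T, ∀ y ∈ T, x * y = y * x
  fin : ∀ T ∈ J, Finite T
  crd : ∀ T ∈ J, Nat.card T ≤ b
  c0 : ∀ T ∈ J, CC G T
  cc : ∀ T ∈ J, ∀ T' ∈ J, T ≠ T' → CC T T'
  nmJ : ∀ h, ∀ T ∈ J, cj (pr (σ h)) T ∈ J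

/-- A small family of operators with small orbits that detects every vector. -/
def Fr [Fintype H] (σ : H →* UU B) (Z : ℕ) : Prop :=
  ∃ S : Finset (B →L[ℂ] B), #S ≤ Z ∧
    (∀ t ∈ S, ‖t‖ ≤ 2 ∧ ∑ h, (σ h : B →L[ℂ] B) * t * star (σ h : B →L[ℂ] B) = 0 ∧
      ∃ (K : Subgroup H) (l : K →* ℂ), K.index ≤ Z ∧ (∀ k, ‖l k‖ = 1) ∧
        ∀ k : K, (σ k : B →L[ℂ] B) * t * star (σ k : B →L[ℂ] B) = l k • t) ∧
    ∀ w : B, ∃ t ∈ S, ‖w‖ ^ 4 ≤ 12 * Z * ‖inner ℂ w (t w)‖ ^ 2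

/-- The gap constant. -/
noncomputable def gp (b : ℕ) : ℝ := 1 - 1 / (4096 * b ^ 3)

end op

end Pool.Agent.Lib.MP_cd2b7c_an.SV
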