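import Pool.Agent.Lib.MP_cd2b7c_an.SV.Main
import Pool.Agent.Lib.MP_cd2b7c_an.NA.Fin

/-! The characterisation, for an arbitrary Haar measure. -/

open MeasureTheory
open scoped ENNReal

namespace Pool.Agent.Lib.MP_cd2b7c_an.SV

open NA

variable {G : Type*} [Group G] [TopologicalSpace G] [IsTopologicalGroup G]

theorem sec_quot {b : ℕ} (h : ∀ (K : Subgroup G) (M : Subgroup K) [M.Normal], IsOpen (K : Set G) →
      IsOpen (M : Set K) → IsSimpleGroup (K ⧸ M) →
      (∀ x y : K ⧸ M, x * y = y * x) ∨ Nat.card (K ⧸ M) ≤ b)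
    (N : Subgroup G) [N.Normal] (hN : IsOpen (N : Set G)) : Sec (G ⧸ N) b := by
  intro K M _ hs
  have : DiscreteTopology (G ⧸ N) := QuotientGroup.discreteTopology hN
  have hk : Continuous (QuotientGroup.mk' N) := QuotientGroup.continuous_mk
  let L := K.comap (QuotientGroup.mk' N)
  let p : L →* K := (QuotientGroup.mk' N).subgroupComap K
  have ps : Function.Surjective p :=
    MonoidHom.subgroupComap_surjective_of_surjective _ _ (QuotientGroup.mk'_surjective N)
  let f : L →* K ⧸ M := (QuotientGroup.mk' M).comp p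
  have fs : Function.Surjective f := (QuotientGroup.mk'_surjective M).comp ps
  have pc : Continuous p := (hk.comp continuous_subtype_val).subtype_mk _
  have e := QuotientGroup.quotientKerEquivOfSurjective f fs
  have ho : IsOpen (f.ker : Set L) := by
    have : (f.ker : Set L) = p ⁻¹' (M : Set K) := Set.ext fun x => QuotientGroup.eq_one_iff _
    rw [this]
    exact (isOpen_discrete _).preimage pc
  rcases h L f.ker ((isOpen_discrete (K : Set (G ⧸ N))).preimage hk) ho e.isSimpleGroup with h1 | h1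
  · refine Or.inl fun x y => ?_
    obtain ⟨x, rfl⟩ := e.surjective x
    obtain ⟨y, rfl⟩ := e.surjective y
    rw [← map_mul, h1, map_mul]
  · exact Or.inr ((Nat.card_congr e.toEquiv).symm.trans_le h1)

variable [MeasurableSpace G] (q : ℝ≥0∞) [Fact (1 ≤ q)] [CompactSpace G] [TotallyDisconnectedSpace G]
  [BorelSpace G] (h1 : 1 < q) (hq : q ≠ ∞) {b : ℕ}
  (hU : ∀ (N : Subgroup G) [N.Normal], IsOpen (N : Set G) → Sec (G ⧸ N) b)
include h1 hq hU

theorem auto_iff_prob' (μ : Measure G) [μ.IsHaarMeasure] [IsProbabilityMeasure μ] :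
    Auto q μ ↔ ∃ S : Finset G, Dense (Subgroup.closure (S : Set G) : Set G) := by
  constructor
  · intro h
    by_contra hn
    obtain ⟨φ, h2, h3⟩ := exists_discont μ q fun S hS => hn ⟨S, hS⟩
    exact h3 (h φ h2)
  · rintro ⟨S, hS⟩ φ hφ
    have := second_countable S hS
    let c : Fin S.card → G := fun j => S.equivFin.symm j
    have hc : Dense (Subgroup.closure (Set.range c) : Set G) :=
      hS.mono (Subgroup.closure_mono fun x hx => ⟨S.equivFin ⟨x, hx⟩, by simp [c]⟩)
    have : (φ : Lp ℂ q μ → ℂ) = fun f => mean μ q f * φ (Lp.const q μ 1) :=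
      funext (inv_eq_mean' μ q h1 hq (Nat.le_add_left 1 b)
        (fun N _ hN => (hU N hN).mono b.le_succ) hc φ fun a f => hφ a f _ (tr_ae μ q a f))
    rw [this]
    exact (mean μ q).continuous.mul continuous_const

theorem auto_iff' (μ : Measure G) [μ.IsHaarMeasure] :
    Auto q μ ↔ ∃ S : Finset G, Dense (Subgroup.closure (S : Set G) : Set G) := by
  have m0 : μ Set.univ ≠ 0 := isOpen_univ.measure_ne_zero μ Set.univ_nonempty
  have m1 : μ Set.univ ≠ ∞ := measure_ne_top _ _
  set ν := (μ Set.univ)⁻¹ • μ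
  have : ν.IsHaarMeasure :=
    Measure.IsHaarMeasure.smul μ (ENNReal.inv_ne_zero.2 m1) (ENNReal.inv_ne_top.2 m0)
  have : IsProbabilityMeasure ν := ⟨by simp [ν]⟩
  have l1 : μ ≤ μ Set.univ • ν := by
    rw [smul_smul, ENNReal.mul_inv_cancel m0 m1, one_smul]
  rw [← auto_iff_prob' q h1 hq hU ν]
  exact ⟨Auto.transfer q (ENNReal.inv_ne_top.2 m0) m1 le_rfl l1,
    Auto.transfer q m1 (ENNReal.inv_ne_top.2 m0) l1 le_rfl⟩

end Pool.Agent.Lib.MP_cd2b7c_an.SV
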