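import Pool.Agent.Lib.MP_cd2b7c_an.NA.Base

/-! The return estimate at a monomial vector whose mean need not vanish. -/

open Finset Pointwise
open scoped BigOperators

namespace Pool.Agent.Lib.MP_cd2b7c_an.SV

open NA

variable {Q : Type*} [Group Q] [Fintype Q] {κ : Type*}
  {V : Type*} [NormedAddCommGroup V] [InnerProductSpace ℂ V] {π : Q →* (V →L[ℂ] V)}

theorem rt_fix (e : V) (y : Q) : π y ((Fintype.card Q : ℂ)⁻¹ • ∑ x, π x e) =
    (Fintype.card Q : ℂ)⁻¹ • ∑ x, π x e := by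
  rw [map_smul, map_sum]
  simp only [← mul_apply_eq_comp, ← map_mul]
  exact congrArg _ (Equiv.sum_comp (Equiv.mulLeft y) fun x => π x e)

omit [Fintype Q] in
theorem rt_pow_fix {Λ : Type*} [Fintype Λ] [Nonempty Λ] (σ : Λ → Q) {m : V} (hm : ∀ y, π y m = m)
    (t : ℕ) : (av π σ ^ t) m = m := by
  have h : av π σ m = m := sub_eq_zero.1 (norm_le_zero_iff.1
    (norm_av_sub_le σ (b := 0) fun l => by rw [hm, sub_self, norm_zero]))
  induction t with
  | zero => simp
  | succ t ih => rw [pow_succ', mul_apply_eq_comp, ih, h]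

variable (iso : ∀ x u v, inner ℂ (π x u) (π x v) = inner ℂ u v)
include iso

theorem rt_inner (e : V) : inner ℂ ((Fintype.card Q : ℂ)⁻¹ • ∑ x, π x e) e =
    (‖(Fintype.card Q : ℂ)⁻¹ • ∑ x, π x e‖ ^ 2 : ℝ) := by
  have c0 : (Fintype.card Q : ℂ) ≠ 0 := by exact_mod_cast Fintype.card_ne_zero
  have h := rt_fix (π := π) e
  have h2 := inner_smul_right (𝕜 := ℂ) ((Fintype.card Q : ℂ)⁻¹ • ∑ x, π x e) (∑ x, π x e)
    (Fintype.card Q : ℂ)⁻¹
  generalize (Fintype.card Q : ℂ)⁻¹ • ∑ x, π x e = m at h h2 ⊢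
  have h1 : ∀ x, inner ℂ m (π x e) = inner ℂ m e := fun x => by rw [← iso x m e, h]
  rw [inner_sum] at h2
  simp only [h1, sum_const, card_univ, nsmul_eq_mul, inv_mul_cancel_left₀ c0] at h2
  rw [← h2, inner_self_eq_norm_sq_to_K]
  simp

theorem rt_mean (e : V) : 𝔼 x, (inner ℂ e (π x e)).re =
    ‖(Fintype.card Q : ℂ)⁻¹ • ∑ x, π x e‖ ^ 2 := by
  have h := congrArg Complex.re (rt_inner iso e)
  rw [Complex.ofReal_re, ← inner_conj_symm, Complex.conj_re, inner_smul_right, inner_sum,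
    ← Complex.ofReal_natCast, ← Complex.ofReal_inv, Complex.re_ofReal_mul, Complex.re_sum] at h
  rw [expect_eq_sum_div_card, card_univ, div_eq_inv_mul, h]
  simp

theorem rt_center {ι : Type*} [Fintype ι] [Nonempty ι] (s : ι → Q) (t : ℕ) (e : V) :
    ‖(av π (lt s) ^ t) (e - (Fintype.card Q : ℂ)⁻¹ • ∑ x, π x e)‖ ^ 2 =
      ‖(av π (lt s) ^ t) e‖ ^ 2 - ‖(Fintype.card Q : ℂ)⁻¹ • ∑ x, π x e‖ ^ 2 := by
  have h := congrArg Complex.re (rt_inner iso e)
  rw [Complex.ofReal_re, ← inner_conj_symm, Complex.conj_re] at h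
  rw [map_sub, rt_pow_fix _ (rt_fix e), norm_sub_sq (𝕜 := ℂ), walk_pow_symm iso,
    rt_pow_fix _ (rt_fix e), RCLike.re_to_complex, h]
  ring

theorem rt_caseB {e u : V} (he : ‖e‖ = 1) {α b p : ℝ} (b0 : 0 ≤ b) (hu : inner ℂ e u = α)
    (h0 : inner ℂ ((Fintype.card Q : ℂ)⁻¹ • ∑ x, π x e) u = p) {c : κ → Q}
    (hc : Subgroup.closure (Set.range c) = ⊤)
    (hb : ∀ i, ‖π (c i) u - u‖ ≤ b) {U : Subgroup Q} {L : ℕ}
    (all : ∀ x, ∃ w ∈ sh c ^ L, w⁻¹ * x ∈ U)
    (h : ∀ z ∈ U, ‖π z u - u‖ ≤ (2 * L + 1) * b → π z e = e) : α ≤ p + L * b := by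
  have nr := nr_of_iso iso
  have h1 : ∀ x, ∃ w ∈ sh c ^ L, π x e = π w e := sh_induction hc ⟨1, one_mem_sh c L, rfl⟩ <| by
    rintro g hg x ⟨w, hw, hx⟩
    obtain ⟨w', hw', hz⟩ := all (g * w)
    refine ⟨w', hw', ?_⟩
    have h2 := mv_mul nr ((mv_inv nr w' u).trans_le (mv_sh nr b0 hb L hw'))
      (mv_mul nr (mv_sh nr b0 hb 1 (by rwa [pow_one])) (mv_sh nr b0 hb L hw))
    have h3 := congrArg (π w') (h _ hz (h2.trans (le_of_eq (by push_cast; ring))))
    rw [← mul_apply_eq_comp, ← map_mul, mul_inv_cancel_left] at h3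
    rw [← h3, map_mul, map_mul, mul_apply_eq_comp, mul_apply_eq_comp, hx]
  have h4 := norm_avg_le (fun x => inner ℂ (π x e) u - (α : ℂ)) (b := L * b) fun x => by
    obtain ⟨w, hw, e1⟩ := h1 x
    rw [e1]
    exact coef iso he hu (mv_sh nr b0 hb L hw)
  have c0 : (Fintype.card Q : ℂ) ≠ 0 := by exact_mod_cast Fintype.card_ne_zero
  have h5 : (Fintype.card Q : ℂ)⁻¹ • ∑ x, (inner ℂ (π x e) u - (α : ℂ)) = ((p - α : ℝ) : ℂ) := by
    rw [inner_smul_left, sum_inner, map_inv₀, map_natCast] at h0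
    rw [sum_sub_distrib, sum_const, card_univ, nsmul_eq_mul, smul_eq_mul, mul_sub,
      inv_mul_cancel_left₀ c0, h0, Complex.ofReal_sub]
  rw [h5, Complex.norm_real, Real.norm_eq_abs] at h4
  linarith [neg_abs_le (p - α)]

theorem rt_base [Fintype κ] {e : V} (he : ‖e‖ = 1) {U : Subgroup Q} {I : ℕ}
    (hI : U.index ≤ I) (hm : ∀ h ∈ U, (∃ z : ℂ, π h e = z • e) ∨ inner ℂ (π h e) e = 0)
    {c : κ → Q} (hc : Subgroup.closure (Set.range c) = ⊤) {R t : ℕ} (R0 : 0 < R)
    (ht : 8 * (Fintype.card κ + 1) * I ^ 2 * R ^ 5 ≤ t) :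
    𝔼 a, ‖(av π (lt fun o : Option κ => o.elim a c) ^ t) e‖ ^ 2 ≤
      ‖(Fintype.card Q : ℂ)⁻¹ • ∑ x, π x e‖ ^ 2 + 8 / R := by
  classical
  set m := (Fintype.card Q : ℂ)⁻¹ • ∑ x, π x e with hmm
  have p0 : 0 ≤ ‖m‖ ^ 2 := sq_nonneg _
  have nr := nr_of_iso iso
  have e0 : inner ℂ e e = 1 := by rw [inner_self_eq_norm_sq_to_K, he]; simp
  let U' : Subgroup Q :=
    { carrier := {h | h ∈ U ∧ ∃ z : ℂ, π h e = z • e}
      one_mem' := ⟨U.one_mem, 1, by simp⟩
      mul_mem' := by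
        rintro g h ⟨g1, y, hy⟩ ⟨h1, z, hz⟩
        exact ⟨U.mul_mem g1 h1, z * y, by rw [map_mul, mul_apply_eq_comp, hz, map_smul, hy, smul_smul]⟩
      inv_mem' := by
        rintro h ⟨h1, z, hz⟩
        have h2 := congrArg (π h⁻¹) hz
        rw [← mul_apply_eq_comp, ← map_mul, inv_mul_cancel, map_one, one_apply_eq_self,
          map_smul] at h2
        have z0 : z ≠ 0 := by
          rintro rfl
          rw [zero_smul] at h2
          simp [h2] at he
        exact ⟨U.inv_mem h1, z⁻¹, by rw [eq_inv_smul_iff₀ z0, ← h2]⟩ }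
  have hχ : ∀ z : U', π z e = inner ℂ e (π z e) • e := fun z => by
    obtain ⟨y, hy⟩ := z.2.2
    rw [hy, inner_smul_right, e0, mul_one]
  let χ : U' →* ℂ :=
    { toFun := fun z => inner ℂ e (π z e)
      map_one' := by simpa using e0
      map_mul' := fun y z => by
        rw [Subgroup.coe_mul, map_mul, mul_apply_eq_comp, hχ z, map_smul, inner_smul_right,
          inner_smul_right, e0, mul_one, mul_comm] }
  replace hχ : ∀ z : U', π z e = χ z • e := hχ
  have χ1 : ∀ z, ‖χ z‖ = 1 := fun z => by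
    have := nr z e
    rwa [hχ, norm_smul, he, mul_one] at this
  have I0 : 0 < I := lt_of_lt_of_le (Nat.pos_of_ne_zero Subgroup.FiniteIndex.index_ne_zero) hI
  have R1 : (1 : ℝ) ≤ R := by exact_mod_cast R0
  have L1 : (1 : ℝ) ≤ (R * I : ℕ) := by exact_mod_cast Nat.mul_pos R0 I0
  set L := R * I
  let α : Q → ℝ := fun a => ‖(av π (lt fun o : Option κ => o.elim a c) ^ t) e‖ ^ 2
  have α1 : ∀ a, α a ≤ 1 := fun a => by
    have := norm_av_pow_le nr (lt fun o : Option κ => o.elim a c) e (Nat.zero_le t)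
    rw [pow_zero, one_apply_eq_self, he] at this
    exact pow_le_one₀ (norm_nonneg _) this
  have key : ∀ a, 4 / R < α a → ∃ u, ∃ b : ℝ, 0 < b ∧ α a = 4 * R * L * b ∧ inner ℂ e u = α a ∧
      ‖u‖ ^ 2 ≤ α a ∧ ‖π a u - u‖ ≤ b ∧ (∀ i, ‖π (c i) u - u‖ ≤ b) ∧
      inner ℂ m u = (‖m‖ ^ 2 : ℝ) := fun a ha => by
    set W := av π (lt fun o : Option κ => o.elim a c)
    have a0 : 0 < α a := lt_trans (by positivity) ha
    have h1 : ∀ o : Option κ, ‖π (o.elim a c) ((W ^ t) ((W ^ t) e)) - (W ^ t) ((W ^ t) e)‖ ≤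
        α a / (4 * R * L) := fun o => by
      have h2 := energy_le iso (fun o : Option κ => o.elim a c) t ((W ^ t) e) o
      have h3 : (8 * (Fintype.card κ + 1) * I ^ 2 * R ^ 5 : ℝ) ≤ t := by exact_mod_cast ht
      have h4 : 4 ≤ α a * R := ((div_lt_iff₀ (by positivity)).1 ha).le
      rw [Fintype.card_option, Nat.cast_succ] at h2
      refine (pow_le_pow_iff_left₀ (norm_nonneg _) (by positivity) two_ne_zero).1
        (le_of_mul_le_mul_left (h2.trans ?_) (by positivity))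
      rw [div_pow, mul_div_assoc', le_div_iff₀ (by positivity)]
      change 4 * (Fintype.card κ + 1) * α a * _ ≤ _
      have h5 : (4 * R * L : ℝ) ^ 2 = 16 * (I ^ 2 * R ^ 4) := by simp only [L]; push_cast; ring
      rw [h5]
      calc _ = 16 * (Fintype.card κ + 1) * I ^ 2 * R ^ 4 * α a * 4 := by ring
        _ ≤ 16 * (Fintype.card κ + 1) * I ^ 2 * R ^ 4 * α a * (α a * R) := by gcongr
        _ = 2 * (8 * (Fintype.card κ + 1) * I ^ 2 * R ^ 5) * α a ^ 2 := by ring
        _ ≤ _ := by gcongr; linarith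
    refine ⟨(W ^ t) ((W ^ t) e), α a / (4 * R * L), by positivity, by field_simp, ?_, ?_,
      h1 none, fun i => h1 (some i), ?_⟩
    · rw [← walk_pow_symm iso, inner_self_eq_norm_sq_to_K]
      simp [α]
    · have := norm_av_pow_le nr (lt fun o : Option κ => o.elim a c) ((W ^ t) e) (Nat.zero_le t)
      exact pow_le_pow_left₀ (norm_nonneg _) this 2
    · rw [← walk_pow_symm iso, ← walk_pow_symm iso, rt_pow_fix _ (rt_fix e), rt_pow_fix _ (rt_fix e)]
      exact rt_inner iso e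
  have close : ∀ {u : V} {a b : ℝ} (z : U'), 0 < a → inner ℂ e u = a → ‖π z u - u‖ ≤ b →
      a * ‖χ z - 1‖ ≤ b := fun {u a b} z a0 hu h => by
    have h1 := coef iso he hu h
    rwa [hχ, inner_smul_left, hu, ← sub_one_mul, norm_mul, Complex.norm_real,
      Real.norm_of_nonneg a0.le, ← map_one (starRingEnd ℂ), ← map_sub, Complex.norm_conj,
      mul_comm] at h1
  have h48 : (4 : ℝ) / R ≤ 8 / R := by gcongr; norm_num
  have easy : (∀ a, 4 / R < α a → α a ≤ ‖m‖ ^ 2 + 8 / R) → 𝔼 a, α a ≤ ‖m‖ ^ 2 + 8 / R := fun h =>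
    expect_le univ_nonempty fun a _ => (le_or_gt (α a) (4 / R)).elim (fun h' => by linarith) (h a)
  rcases reach hc U' L with all | big
  swap
  · refine easy fun a ha => ?_
    exfalso
    obtain ⟨u, b, b0, hb, hu, hn, -, hs, -⟩ := key a ha
    have h1 := caseA iso he (lt_trans (by positivity) ha) hu hn (U' := U') (fun _ h => h.1)
      (fun h hU hn => (hm h hU).resolve_left fun hz => hn ⟨hU, hz⟩) hI (S := sh c ^ L)
      (fun w hw => (mv_sh nr b0.le hs L hw).trans (by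
        rw [hb]; nlinarith [mul_pos (lt_of_lt_of_le one_pos L1) b0])) big
    rw [div_lt_iff₀ (by positivity)] at ha
    linarith
  by_cases hj : ∀ j, 0 < j → j < R → χ ^ j ≠ 1
  swap
  · push Not at hj
    obtain ⟨j, j0, jR, hj⟩ := hj
    refine easy fun a ha => ?_
    obtain ⟨u, b, b0, hb, hu, -, -, hs, h0⟩ := key a ha
    have a0 : 0 < α a := lt_trans (by positivity) ha
    have h1 := rt_caseB iso he b0.le hu h0 hc hs all fun z hz h => by
      have h2 := close ⟨z, hz⟩ a0 hu h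
      have h3 : χ ⟨z, hz⟩ = 1 := root_eq_one (χ1 _) j0 jR (DFunLike.congr_fun hj _) (by
        refine le_of_mul_le_mul_left ?_ a0
        rw [mul_left_comm, mul_one]
        refine (mul_le_mul_of_nonneg_left h2 (by positivity)).trans ?_
        rw [hb]
        nlinarith [mul_pos (lt_of_lt_of_le one_pos R1) b0])
      simpa [h3] using hχ ⟨z, hz⟩
    have h6 : (L : ℝ) * b ≤ 8 / R := by
      rw [le_div_iff₀ (by positivity)]
      linarith [α1 a]
    linarith
  choose r hr hr' using fun y : Q ⧸ U' => all y.out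
  let z : Q → U' := fun a => ⟨(r a)⁻¹ * a, by
    have := U'.mul_mem (hr' a) (QuotientGroup.eq.1 (QuotientGroup.out_eq' (a : Q ⧸ U')))
    simpa [mul_assoc] using this⟩
  have hz : ∀ a (h : U'), z (a * h) = z a * h := fun a h => Subtype.ext (by
    simp [z, QuotientGroup.mk_mul_of_mem a h.2, mul_assoc])
  let F : U' → ℝ := fun y => ‖∑ j ∈ range R, χ y ^ j‖ ^ 2
  have hF : 𝔼 a, F (z a) = R := by
    have h1 := sum_coset U' z hz F
    have c0 : (0 : ℝ) < Fintype.card U' := by exact_mod_cast Fintype.card_pos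
    have c1 : (0 : ℝ) < Fintype.card Q := by exact_mod_cast Fintype.card_pos
    rw [orth χ χ1 R hj] at h1
    rw [expect_eq_sum_div_card, card_univ, div_eq_iff c1.ne']
    exact mul_left_cancel₀ c0.ne' (by rw [h1]; ring)
  have pt : ∀ a, α a ≤ 4 / R + 4 / R ^ 2 * F (z a) := fun a => by
    rcases le_or_gt (α a) (4 / R) with ha | ha
    · exact ha.trans (le_add_of_nonneg_right (by positivity))
    obtain ⟨u, b, b0, hb, hu, -, ha', hs, -⟩ := key a ha
    have a0 : 0 < α a := lt_trans (by positivity) ha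
    have h1 := close (z a) a0 hu
      (mv_mul nr ((mv_inv nr _ u).trans_le (mv_sh nr b0.le hs L (hr a))) ha')
    have h2 : R * ‖χ (z a) - 1‖ ≤ 1 / 2 := by
      refine le_of_mul_le_mul_left ?_ a0
      rw [mul_left_comm]
      refine (mul_le_mul_of_nonneg_left h1 (by positivity)).trans ?_
      rw [hb]
      nlinarith [mul_pos (lt_of_lt_of_le one_pos R1) b0]
    have h3 : ‖∑ j ∈ range R, (χ (z a) ^ j - 1)‖ ≤ ∑ j ∈ range R, (1 / 2 : ℝ) :=
      (norm_sum_le _ _).trans (sum_le_sum fun i hi => by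
        have := pow_sub_le (χ1 (z a)) i
        have h3 : (i : ℝ) ≤ R := by exact_mod_cast (mem_range.1 hi).le
        nlinarith [norm_nonneg (χ (z a) - 1)])
    rw [sum_sub_distrib, norm_sub_rev] at h3
    simp only [sum_const, card_range, nsmul_eq_mul, mul_one] at h3
    have h4 := norm_sub_norm_le (R : ℂ) (∑ j ∈ range R, χ (z a) ^ j)
    rw [Complex.norm_natCast] at h4
    have h5 : ((R : ℝ) / 2) ^ 2 ≤ F (z a) := pow_le_pow_left₀ (by positivity) (by linarith) 2
    have h6 : 1 ≤ 4 / (R : ℝ) ^ 2 * F (z a) := by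
      rw [div_mul_eq_mul_div, le_div_iff₀ (by positivity)]
      linarith
    linarith [α1 a, show (0 : ℝ) ≤ 4 / R by positivity]
  refine (expect_le_expect fun a _ => pt a).trans ((le_of_eq ?_).trans (le_add_of_nonneg_left p0))
  rw [expect_add_distrib, expect_const univ_nonempty, ← mul_expect, hF]
  field_simp
  norm_num

end Pool.Agent.Lib.MP_cd2b7c_an.SV
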