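import Pool.Agent.Lib.MP_cd2b7c_an.SV.Defs
import Pool.Agent.Lib.MP_cd2b7c_an.SV.Ret
import Pool.Agent.Lib.MP_cd2b7c_an.NA.Step

/-! The walk fools characters of subgroups. -/

open Finset Pointwise
open scoped BigOperators

namespace Pool.Agent.Lib.MP_cd2b7c_an.SV

open NA

variable {Q : Type*} [Group Q] [Fintype Q] {κ : Type*} [Fintype κ]

/-- The average over words of length `2 t`. -/
noncomputable def ms {G ι : Type*} [Group G] [Fintype ι] (s : ι → G) (t : ℕ) (f : G → ℝ) : ℝ :=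
  (Fintype.card (Fin (2 * t) → ι × Bool × Bool) : ℝ)⁻¹ *
    ∑ w : Fin (2 * t) → ι × Bool × Bool, f (wd (lt s) (2 * t) w)

theorem ms_mono {G ι : Type*} [Group G] [Fintype ι] (s : ι → G) (t : ℕ) {f g : G → ℝ}
    (h : ∀ x, f x ≤ g x) : ms s t f ≤ ms s t g := by
  unfold ms
  exact mul_le_mul_of_nonneg_left (sum_le_sum fun _ _ => h _) (inv_nonneg.2 (Nat.cast_nonneg _))

theorem ms_affine {G ι : Type*} [Group G] [Fintype ι] [Nonempty ι] (s : ι → G) (t : ℕ) (a c : ℝ)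
    (f : G → ℝ) : ms s t (fun x => a + c * f x) = a + c * ms s t f := by
  have h : (Fintype.card (Fin (2 * t) → ι × Bool × Bool) : ℝ) ≠ 0 :=
    Nat.cast_ne_zero.2 Fintype.card_ne_zero
  unfold ms
  rw [sum_add_distrib, sum_const, card_univ, nsmul_eq_mul, ← mul_sum, mul_add, ← mul_assoc,
    inv_mul_cancel₀ h, one_mul, mul_left_comm]

theorem ms_expect {G ι α : Type*} [Group G] [Fintype ι] (s : ι → G) (t : ℕ) (S : Finset α)
    (f : α → G → ℝ) : ms s t (fun x => 𝔼 i ∈ S, f i x) = 𝔼 i ∈ S, ms s t (f i) := by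
  unfold ms
  rw [← mul_expect, expect_sum_comm]

section rep

variable {V : Type*} [NormedAddCommGroup V] [InnerProductSpace ℂ V] {π : Q →* (V →L[ℂ] V)}
  (iso : ∀ x u v, inner ℂ (π x u) (π x v) = inner ℂ u v)
include iso

omit [Fintype Q] in
theorem norm_sq_ms {ι : Type*} [Fintype ι] (s : ι → Q) (t : ℕ) (e : V) :
    ‖(av π (lt s) ^ t) e‖ ^ 2 = ms s t fun x => (inner ℂ e (π x e)).re := by
  classical
  have h : inner ℂ e ((av π (lt s) ^ (2 * t)) e) = (‖(av π (lt s) ^ t) e‖ ^ 2 : ℝ) := by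
    rw [two_mul, pow_add, mul_apply_eq_comp, ← walk_pow_symm iso, inner_self_eq_norm_sq_to_K]
    simp
  have h2 := congrArg Complex.re h
  rw [Complex.ofReal_re, av_pow, av_apply, inner_smul_right, inner_sum, ← Complex.ofReal_natCast,
    ← Complex.ofReal_inv, Complex.re_ofReal_mul, Complex.re_sum] at h2
  rw [← h2, ms]

/-- The return estimate at a monomial vector whose mean need not vanish. -/
theorem base_p {e : V} (he : ‖e‖ = 1)
    (hm : ∀ x, (∃ z : ℂ, π x e = z • e) ∨ inner ℂ (π x e) e = 0)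
    {c : κ → Q} (hc : Subgroup.closure (Set.range c) = ⊤) {R t : ℕ} (R0 : 0 < R)
    (ht : 8 * (Fintype.card κ + 1) * R ^ 5 ≤ t) :
    𝔼 a, ‖(av π (lt fun o : Option κ => o.elim a c) ^ t) e‖ ^ 2 ≤
      𝔼 x, (inner ℂ e (π x e)).re + 8 / R := by
  rw [rt_mean iso]
  exact rt_base iso he (U := ⊤) (I := 1) (by simp) (fun x _ => hm x) hc R0 (by simpa using ht)

/-- The same for the centred vector. -/
theorem base_c {e : V} (he : ‖e‖ = 1)
    (hm : ∀ x, (∃ z : ℂ, π x e = z • e) ∨ inner ℂ (π x e) e = 0)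
    {c : κ → Q} (hc : Subgroup.closure (Set.range c) = ⊤) {R t : ℕ} (R0 : 0 < R)
    (ht : 8 * (Fintype.card κ + 1) * R ^ 5 ≤ t) :
    𝔼 a, ‖(av π (lt fun o : Option κ => o.elim a c) ^ t)
      (e - (Fintype.card Q : ℂ)⁻¹ • ∑ x, π x e)‖ ^ 2 ≤ 8 / R := by
  have h := base_p iso he hm hc R0 ht
  rw [rt_mean iso] at h
  simp only [rt_center iso]
  rw [expect_sub_distrib, expect_const univ_nonempty]
  linarith

end rep

/-- A test function is a diagonal coefficient of the regular representation. -/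
theorem Tst.coef {φ : Q → ℂ} (hφ : Tst φ) : ∃ e : EuclideanSpace ℂ Q, ‖e‖ = 1 ∧
    (∀ x, (∃ z : ℂ, reg Q x e = z • e) ∨ inner ℂ (reg Q x e) e = 0) ∧
    ∀ x, (inner ℂ e (reg Q x e)).re = (φ x).re := by
  obtain ⟨K, l, h1, h2, h3⟩ := hφ
  have hmul : ∀ x ∈ K, ∀ y, φ (x * y) = φ x * φ y := fun x hx y => by
    by_cases hy : y ∈ K
    · have a := h2 (⟨x, hx⟩ * ⟨y, hy⟩)
      rw [map_mul, ← h2, ← h2] at a
      exact a
    · rw [h3 y hy, h3 _ fun h => hy ((K.mul_mem_cancel_left hx).1 h), mul_zero]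
  have hone : φ 1 = 1 := (h2 1).trans (map_one l)
  have hinv : ∀ x ∈ K, (φ x⁻¹).re = (φ x).re := fun x hx => by
    have a := hmul x hx x⁻¹
    rw [mul_inv_cancel, hone] at a
    have b : ‖φ x‖ = 1 := by
      rw [show φ x = l ⟨x, hx⟩ from h2 ⟨x, hx⟩]
      exact h1 _
    rw [eq_inv_of_mul_eq_one_right a.symm, Complex.inv_eq_conj b, Complex.conj_re]
  let v : EuclideanSpace ℂ Q := WithLp.toLp 2 φ
  have v0 : v ≠ 0 := fun h => by
    have a : v 1 = 0 := by rw [h]; rfl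
    exact one_ne_zero (hone.symm.trans a)
  have nv : ‖v‖ ≠ 0 := norm_ne_zero_iff.2 v0
  have he : ‖((‖v‖⁻¹ : ℝ) : ℂ) • v‖ = 1 := by
    rw [norm_smul, Complex.norm_real, norm_inv, norm_norm, inv_mul_cancel₀ nv]
  have hin : ∀ x ∈ K, reg Q x (((‖v‖⁻¹ : ℝ) : ℂ) • v) = φ x⁻¹ • ((‖v‖⁻¹ : ℝ) : ℂ) • v :=
    fun x hx => by
      rw [map_smul, smul_comm]
      congr 1
      ext y
      exact hmul _ (K.inv_mem hx) y
  have hout : ∀ x ∉ K,
      inner ℂ (((‖v‖⁻¹ : ℝ) : ℂ) • v) (reg Q x (((‖v‖⁻¹ : ℝ) : ℂ) • v)) = 0 := fun x hx => by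
    have a : inner ℂ v (reg Q x v) = 0 := by
      rw [PiLp.inner_apply]
      refine sum_eq_zero fun y _ => ?_
      by_cases hy : y ∈ K
      · have b : reg Q x v y = 0 :=
          h3 _ fun h => hx (K.inv_mem_iff.1 ((K.mul_mem_cancel_right hy).1 h))
        rw [b, inner_zero_right]
      · have b : v y = 0 := h3 y hy
        rw [b, inner_zero_left]
    rw [map_smul, inner_smul_left, inner_smul_right, a, mul_zero, mul_zero]
  refine ⟨_, he, fun x => ?_, fun x => ?_⟩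
  · by_cases hx : x ∈ K
    · exact Or.inl ⟨_, hin x hx⟩
    · exact Or.inr (inner_eq_zero_symm.1 (hout x hx))
  · by_cases hx : x ∈ K
    · rw [hin x hx, inner_smul_right, inner_self_eq_norm_sq_to_K, he, ← hinv x hx]
      simp
    · rw [hout x hx, h3 x hx]

theorem fool {φ : Q → ℂ} (hφ : Tst φ) {c : κ → Q} (hc : Subgroup.closure (Set.range c) = ⊤)
    {R t : ℕ} (R0 : 0 < R) (ht : 8 * (Fintype.card κ + 1) * R ^ 5 ≤ t) :
    𝔼 a, ms (fun o : Option κ => o.elim a c) t (fun x => (φ x).re) ≤ 𝔼 x, (φ x).re + 8 / R := by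
  obtain ⟨e, he, hm, hv⟩ := hφ.coef
  have h := base_p (reg_iso (Q := Q)) he hm hc R0 ht
  simp only [norm_sq_ms (reg_iso (Q := Q)), hv] at h
  exact h

omit [Fintype Q] in
open Classical in
/-- Extension by zero of a test function on a subgroup. -/
theorem Tst.ext {H : Subgroup Q} {φ : H → ℂ} (hφ : Tst φ) :
    Tst fun x : Q => if h : x ∈ H then φ ⟨x, h⟩ else 0 := by
  obtain ⟨K, l, h1, h2, h3⟩ := hφ
  refine ⟨K.map H.subtype,
    l.comp (K.equivMapOfInjective H.subtype H.subtype_injective).symm.toMonoidHom,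
    fun k => h1 _, fun k => ?_, fun x hx => ?_⟩
  · obtain ⟨k, rfl⟩ := (K.equivMapOfInjective H.subtype H.subtype_injective).surjective k
    have a : ((K.equivMapOfInjective H.subtype H.subtype_injective k : K.map H.subtype) : Q) =
        ((k : H) : Q) := rfl
    simp only [a, MonoidHom.comp_apply, MulEquiv.coe_toMonoidHom, MulEquiv.symm_apply_apply]
    rw [dif_pos (k : H).2]
    exact h2 k
  · by_cases h : x ∈ H
    · simp only [dif_pos h]
      exact h3 _ fun hk => hx ⟨_, hk, rfl⟩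
    · simp only [dif_neg h]

open Classical in
theorem expect_ext {H : Subgroup Q} [Fintype H] (g : H → ℂ) :
    𝔼 x : Q, (if h : x ∈ H then g ⟨x, h⟩ else 0).re = (𝔼 x, (g x).re) / H.index := by
  have a : ∑ x : Q, (if h : x ∈ H then g ⟨x, h⟩ else 0).re = ∑ x : H, (g x).re := by
    rw [← Fintype.sum_subtype_add_sum_subtype (· ∈ H)]
    have b : ∑ x : {x // ¬ x ∈ H}, (if h : (x : Q) ∈ H then g ⟨x, h⟩ else 0).re = 0 :=
      sum_eq_zero fun x _ => by rw [dif_neg x.2, Complex.zero_re]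
    rw [b, add_zero]
    exact Finset.sum_congr (by ext; simp) fun x _ => by rw [dif_pos x.2]
  have c : (Fintype.card Q : ℝ) = Fintype.card H * H.index := by
    rw [← Nat.cast_mul, ← Nat.card_eq_fintype_card, ← Nat.card_eq_fintype_card,
      H.card_mul_index]
  rw [Fintype.expect_eq_sum_div_card, Fintype.expect_eq_sum_div_card, a, c, div_div]

/-- Majorants on a subgroup. -/
theorem fool_mj {H : Subgroup Q} [Fintype H] {f : H → ℝ} {ε : ℝ} (hf : Mj f ε) {F : Q → ℝ}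
    (h1 : ∀ x : H, F x ≤ f x) (h2 : ∀ x ∉ H, F x ≤ 0) {c : κ → Q}
    (hc : Subgroup.closure (Set.range c) = ⊤) {R t : ℕ} (R0 : 0 < R)
    (ht : 8 * (Fintype.card κ + 1) * R ^ 5 ≤ t) :
    𝔼 a, ms (fun o : Option κ => o.elim a c) t F ≤ ε / H.index + 8 / R := by
  classical
  obtain ⟨n, φ, t1, t2, t3⟩ := hf
  let ψ : Fin (n + 1) → Q → ℂ := fun i x => if h : x ∈ H then φ i ⟨x, h⟩ else 0
  have hF : ∀ x, F x ≤ 𝔼 i, (ψ i x).re := fun x => by
    by_cases h : x ∈ H
    · refine ((h1 ⟨x, h⟩).trans (t2 _)).trans_eq (expect_congr rfl fun i _ => ?_)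
      simp only [ψ, dif_pos h]
    · refine (h2 x h).trans_eq (expect_eq_zero fun i _ => ?_).symm
      simp only [ψ, dif_neg h, Complex.zero_re]
  calc 𝔼 a, ms (fun o : Option κ => o.elim a c) t F
      ≤ 𝔼 a, 𝔼 i, ms (fun o : Option κ => o.elim a c) t fun x => (ψ i x).re :=
        expect_le_expect fun a _ => (ms_mono _ t hF).trans_eq (ms_expect _ t _ _)
    _ = 𝔼 i, 𝔼 a, ms (fun o : Option κ => o.elim a c) t fun x => (ψ i x).re := expect_comm _ _ _
    _ ≤ 𝔼 i, ((𝔼 x, (φ i x).re) / H.index + 8 / R) := expect_le_expect fun i _ => by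
        have h := fool (t1 i).ext hc R0 ht
        rw [expect_ext] at h
        exact h
    _ = (𝔼 i, 𝔼 x, (φ i x).re) / H.index + 8 / R := by
        rw [expect_add_distrib, expect_const univ_nonempty, expect_div]
    _ ≤ ε / H.index + 8 / R := by gcongr

end Pool.Agent.Lib.MP_cd2b7c_an.SV
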