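import Pool.Agent.Lib.MP_cd2b7c_an.SV.SysA

/-! The gap for one simple part and the product bound. -/

open Finset
open scoped BigOperators

namespace Pool.Agent.Lib.MP_cd2b7c_an.SV

theorem gp_nonneg {b : ℕ} (hb : 1 ≤ b) : 0 ≤ gp b := by
  have h1 : (1 : ℝ) ≤ b := by exact_mod_cast hb
  have h2 : (1 : ℝ) ≤ 4096 * (b : ℝ) ^ 3 := by nlinarith [one_le_pow₀ (n := 3) h1]
  rw [gp, sub_nonneg]
  exact (div_le_one (by linarith)).2 h2

theorem gp_le_one (b : ℕ) : gp b ≤ 1 := by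
  have : (0 : ℝ) ≤ 1 / (4096 * (b : ℝ) ^ 3) := by positivity
  rw [gp]
  linarith

theorem gp_pow {b : ℕ} (hb : 1 ≤ b) {n k : ℕ} (h : 4096 * b ^ 3 * n ≤ k) :
    gp b ^ k ≤ 1 / 2 ^ n := by
  have h0 : 1 ≤ 4096 * b ^ 3 := by
    have := Nat.one_le_pow 3 b hb
    omega
  have h1 : gp b ^ (4096 * b ^ 3) ≤ 1 / 2 := by
    have h2 := Real.one_sub_div_pow_le_exp_neg (n := 4096 * b ^ 3) (t := 1) (by exact_mod_cast h0)
    have h3 : gp b = 1 - 1 / ((4096 * b ^ 3 : ℕ) : ℝ) := by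
      rw [gp]
      push_cast
      rfl
    rw [h3]
    exact h2.trans Real.exp_neg_one_lt_half.le
  calc gp b ^ k ≤ gp b ^ (4096 * b ^ 3 * n) := pow_le_pow_of_le_one (gp_nonneg hb) (gp_le_one b) h
    _ = (gp b ^ (4096 * b ^ 3)) ^ n := pow_mul _ _ _
    _ ≤ (1 / 2) ^ n := pow_le_pow_left₀ (pow_nonneg (gp_nonneg hb) _) h1 n
    _ = 1 / 2 ^ n := by rw [one_div_pow]

variable {B : Type*} [NormedAddCommGroup B] [InnerProductSpace ℂ B] [CompleteSpace B]
  [FiniteDimensional ℂ B] [Nontrivial B]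

omit [FiniteDimensional ℂ B] [Nontrivial B] in
theorem gap_avg_apply {T : Subgroup (PU B)} [Finite T] (F : PU B → B →L[ℂ] B) (w : B) :
    (avg T F) w = avg T fun g => F g w :=
  map_avg (ContinuousLinearMap.apply ℂ B w).toLinearMap F

omit [FiniteDimensional ℂ B] [Nontrivial B] in
theorem gap_avg_sub {T : Subgroup (PU B)} [Finite T] (F : PU B → B) (c : B) :
    avg T F - c = avg T fun g => F g - c := by
  conv_lhs => rw [← avg_const (X := T) c]
  rw [avg, avg, avg, ← smul_sub, ← sum_sub_distrib]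

omit [FiniteDimensional ℂ B] [Nontrivial B] in
theorem gap_star_move (u : UU B) (w : B) :
    ‖star (u : B →L[ℂ] B) w - w‖ = ‖(u : B →L[ℂ] B) w - w‖ := by
  have h1 : (u : B →L[ℂ] B) (star (u : B →L[ℂ] B) w) = w := by
    rw [← ContinuousLinearMap.mul_apply, Unitary.mul_star_self_of_mem u.2,
      ContinuousLinearMap.one_apply]
  rw [← norm_uu u, map_sub, h1, norm_sub_rev]

omit [FiniteDimensional ℂ B] [Nontrivial B] in
theorem gap_mul_move (u : UU B) (v w : B) :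
    ‖(u : B →L[ℂ] B) v - w‖ ≤ ‖v - w‖ + ‖(u : B →L[ℂ] B) w - w‖ := by
  have h1 : (u : B →L[ℂ] B) v - w = (u : B →L[ℂ] B) (v - w) + ((u : B →L[ℂ] B) w - w) := by
    rw [map_sub]
    abel
  rw [h1]
  exact (norm_add_le _ _).trans (by rw [norm_uu])

/-- A non-trivial factor has no approximate common eigenvector. -/
theorem Fac.no_eig {T : Subgroup (PU B)} [Finite T] (h : Fac T) (h0 : T ≠ ⊥) {w : B} (hw : ‖w‖ = 1)
    (he : ∀ g ∈ T, ∃ u : UU B, pr u = g ∧ ‖(u : B →L[ℂ] B) w - w‖ ≤ 3 / 32) : False := by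
  have key : ∀ g ∈ T, (23 / 32 : ℝ) ^ 2 ≤ ‖tau (lf g : B →L[ℂ] B)‖ ^ 2 := by
    intro g hg
    obtain ⟨u, hu, hu'⟩ := he g hg
    have h1 := h.tw (sp_coe (u := u) (hu ▸ hg))
    have h2 : ‖(SV.tw T (u : B →L[ℂ] B)) w - w‖ ≤ 9 / 32 := by
      rw [SV.tw, gap_avg_apply, gap_avg_sub]
      refine (norm_avg_le' _).trans ((avr_le_avr fun g' hg' => ?_).trans (avr_const _).le)
      obtain ⟨v, hv, hv'⟩ := he g' hg'
      rw [ad_eq ((pr_lf g').trans hv.symm), ContinuousLinearMap.mul_apply,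
        ContinuousLinearMap.mul_apply]
      have e1 := gap_mul_move v ((u : B →L[ℂ] B) (star (v : B →L[ℂ] B) w)) w
      have e2 := gap_mul_move u (star (v : B →L[ℂ] B) w) w
      have e3 := gap_star_move v w
      linarith
    rw [h1, ContinuousLinearMap.smul_apply, ContinuousLinearMap.one_apply] at h2
    have h3 : ‖w‖ - ‖tau (u : B →L[ℂ] B) • w‖ ≤ 9 / 32 :=
      (norm_sub_norm_le _ _).trans (by rwa [norm_sub_rev])
    rw [norm_smul, hw, mul_one] at h3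
    obtain ⟨z, hz, hz'⟩ := lf_pr u
    rw [← hu, hz', map_smul, norm_smul, hz, one_mul]
    exact pow_le_pow_left₀ (by norm_num) (by linarith) 2
  have h4 : (23 / 32 : ℝ) ^ 2 ≤ sig T := (avr_const _).ge.trans (avr_le_avr key)
  have h5 := h.sig_le h0
  norm_num at h4
  linarith

omit [FiniteDimensional ℂ B] [Nontrivial B] in
theorem mvN_mul (w : B) (u v : UU B) :
    ‖((u * v : UU B) : B →L[ℂ] B) w - w‖ ≤ ‖(u : B →L[ℂ] B) w - w‖ + ‖(v : B →L[ℂ] B) w - w‖ := by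
  have e : ((u * v : UU B) : B →L[ℂ] B) w - w =
      ((u : B →L[ℂ] B) w - w) + (u : B →L[ℂ] B) ((v : B →L[ℂ] B) w - w) := by
    rw [map_sub, Submonoid.coe_mul, ContinuousLinearMap.mul_apply]
    abel
  rw [e]
  refine (norm_add_le _ _).trans ?_
  rw [norm_uu]

omit [FiniteDimensional ℂ B] [Nontrivial B] in
theorem mvN_inv (w : B) (u : UU B) :
    ‖((u⁻¹ : UU B) : B →L[ℂ] B) w - w‖ = ‖(u : B →L[ℂ] B) w - w‖ := by
  have e : (u : B →L[ℂ] B) (((u⁻¹ : UU B) : B →L[ℂ] B) w) = w := by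
    rw [← ContinuousLinearMap.mul_apply, ← Submonoid.coe_mul, mul_inv_cancel]
    rfl
  rw [← norm_uu u, map_sub, e, norm_sub_rev]

omit [FiniteDimensional ℂ B] [Nontrivial B] in
theorem mvN_one (w : B) : ‖((1 : UU B) : B →L[ℂ] B) w - w‖ = 0 := by
  have e : ((1 : UU B) : B →L[ℂ] B) w = w := rfl
  rw [e, sub_self, norm_zero]

omit [FiniteDimensional ℂ B] [Nontrivial B] in
theorem mv_central {u : UU B} (h : pr u = 1) (v : UU B) : v * u = u * v := by
  obtain ⟨z, hz⟩ := pr_eq_one.1 h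
  apply Subtype.ext
  rw [Submonoid.coe_mul, Submonoid.coe_mul, hz, mul_smul_comm, smul_mul_assoc, mul_one, one_mul]

omit [FiniteDimensional ℂ B] [Nontrivial B] in
theorem mv_lift {y y' : UU B} (h : pr y = pr y') (x : UU B) : y * x * y⁻¹ = y' * x * y'⁻¹ :=
  Subtype.ext (ad_eq h (x : B →L[ℂ] B))

omit [FiniteDimensional ℂ B] [Nontrivial B] in
/-- If all commutators with `x` are scalar then `x` commutes with the lifts. -/
theorem mv_cm {T : Subgroup (PU B)} (hs : IsSimpleGroup T)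
    (hn : ¬ ∀ x ∈ T, ∀ y ∈ T, x * y = y * x) {x : UU B}
    (h1 : ∀ y : UU B, pr y ∈ T → pr (x⁻¹ * y * x * y⁻¹) = 1) : Cm T x := by
  have hl : ∀ g : T, pr (x⁻¹ * lf (g : PU B) * x * (lf (g : PU B))⁻¹) = 1 := fun g =>
    h1 _ (by rw [pr_lf]; exact g.2)
  let f : T →* UU B := MonoidHom.mk' (fun g => x⁻¹ * lf (g : PU B) * x * (lf (g : PU B))⁻¹) (by
    intro g g'
    have e1 : pr (lf ((g * g' : T) : PU B)) = pr (lf (g : PU B) * lf (g' : PU B)) := by
      rw [map_mul, pr_lf, pr_lf, pr_lf]; rfl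
    have e2 := mv_lift e1 x
    have e3 := mv_central (hl g') (lf (g : PU B))⁻¹
    calc x⁻¹ * lf ((g * g' : T) : PU B) * x * (lf ((g * g' : T) : PU B))⁻¹
        = x⁻¹ * (lf ((g * g' : T) : PU B) * x * (lf ((g * g' : T) : PU B))⁻¹) := by
          simp only [mul_assoc]
      _ = x⁻¹ * lf (g : PU B) * x * ((x⁻¹ * lf (g' : PU B) * x * (lf (g' : PU B))⁻¹) *
            (lf (g : PU B))⁻¹) := by rw [e2]; group
      _ = _ := by rw [← e3]; simp only [mul_assoc])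
  have hf : ∀ g : T, f g = 1 := hom_triv hs hn f fun g g' => mv_central (hl g') _
  intro u hu
  have e1 : x⁻¹ * lf (pr u) * x * (lf (pr u))⁻¹ = 1 := hf ⟨pr u, hu⟩
  have e2 := mv_lift (pr_lf (pr u)) x
  have e3 : u * x = x * u := by
    calc u * x = x * (x⁻¹ * (u * x * u⁻¹)) * u := by group
      _ = x * (x⁻¹ * lf (pr u) * x * (lf (pr u))⁻¹) * u := by rw [← e2]; simp only [mul_assoc]
      _ = x * u := by rw [e1, mul_one]
  exact congrArg Subtype.val e3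

/-- Some commutator moves the vector. -/
theorem Fac.moves {T : Subgroup (PU B)} [Finite T] (h : Fac T) (hs : IsSimpleGroup T)
    (hn : ¬ ∀ x ∈ T, ∀ y ∈ T, x * y = y * x) {b : ℕ} (hb : Nat.card T ≤ b) {x : UU B}
    (hx : ¬ Cm T x) (hc : cj (pr x)⁻¹ T = T ∨ CC T (cj (pr x)⁻¹ T)) {w : B} (hw : ‖w‖ = 1) :
    ∃ y : UU B, pr y ∈ T ∧ 1 / (32 * b : ℝ) < ‖((x⁻¹ * y * x * y⁻¹ : UU B) : B →L[ℂ] B) w - w‖ := by
  by_contra hcon
  have hδ : ∀ y : UU B, pr y ∈ T →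
      ‖((x⁻¹ * y * x * y⁻¹ : UU B) : B →L[ℂ] B) w - w‖ ≤ 1 / (32 * b : ℝ) :=
    fun y hy => not_lt.1 fun hlt => hcon ⟨y, hy, hlt⟩
  have hb1 : (1 : ℝ) ≤ b := by exact_mod_cast (Nat.card_pos (α := T)).trans_le hb
  have hbr : (Nat.card T : ℝ) ≤ b := by exact_mod_cast hb
  have h0 : T ≠ ⊥ := by
    rintro rfl
    refine hn fun g hg g' _ => ?_
    rw [Subgroup.mem_bot.1 hg, one_mul, mul_one]
  have hcj : ∀ y : UU B, pr y ∈ T → pr (x⁻¹ * y * x) ∈ cj (pr x)⁻¹ T := by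
    intro y hy
    rw [mem_cj, map_mul, map_mul, map_inv]
    have e : (pr x)⁻¹⁻¹ * ((pr x)⁻¹ * pr y * pr x) * (pr x)⁻¹ = pr y := by group
    rw [e]; exact hy
  have key : ∀ S : Set (UU B), Subgroup.closure (pr '' S) = T →
      (∀ s ∈ S, ‖(s : B →L[ℂ] B) w - w‖ ≤ 3 * (1 / (32 * b : ℝ))) → False := by
    intro S hS hN
    refine h.no_eig h0 hw fun g hg => ?_
    obtain ⟨u, hu, hu'⟩ := short_lift pr hS (fun u => ‖(u : B →L[ℂ] B) w - w‖) (mvN_one w)
      (mvN_mul w) (mvN_inv w) (δ := 3 * (1 / (32 * b : ℝ))) (by positivity) hN hg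
    refine ⟨u, hu, hu'.trans ?_⟩
    calc (Nat.card T : ℝ) * (3 * (1 / (32 * b : ℝ))) ≤ b * (3 * (1 / (32 * b : ℝ))) := by
          gcongr
      _ = 3 / 32 := by field_simp
  rcases hc with hc | hc
  · refine key {u | ∃ y : UU B, pr y ∈ T ∧ u = x⁻¹ * y * x * y⁻¹} ?_ ?_
    · refine simple_gen hs ?_ ?_ ?_
      · rintro _ ⟨_, ⟨y, hy, rfl⟩, rfl⟩
        have h1 := hcj y hy
        rw [hc] at h1
        rw [map_mul, map_inv]
        exact T.mul_mem h1 (T.inv_mem hy)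
      · rintro g hg _ ⟨_, ⟨y, hy, rfl⟩, rfl⟩
        have hz : pr (lf g) ∈ T := by rw [pr_lf]; exact hg
        have e : g * pr (x⁻¹ * y * x * y⁻¹) * g⁻¹ = (pr (x⁻¹ * lf g * x * (lf g)⁻¹))⁻¹ *
            pr (x⁻¹ * (lf g * y) * x * (lf g * y)⁻¹) := by
          simp only [map_mul, map_inv, pr_lf]
          group
        rw [e]
        refine Subgroup.mul_mem _ (Subgroup.inv_mem _ (Subgroup.subset_closure ?_))
          (Subgroup.subset_closure ?_)
        · exact ⟨_, ⟨lf g, hz, rfl⟩, rfl⟩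
        · exact ⟨_, ⟨lf g * y, by rw [map_mul]; exact T.mul_mem hz hy, rfl⟩, rfl⟩
      · by_contra hno
        refine hx (mv_cm hs hn fun y hy => ?_)
        by_contra hne
        exact hno ⟨_, ⟨_, ⟨y, hy, rfl⟩, rfl⟩, hne⟩
    · rintro _ ⟨y, hy, rfl⟩
      have h1 := hδ y hy
      have h2 : (0 : ℝ) ≤ 1 / (32 * b : ℝ) := by positivity
      linarith
  · refine key {u | ∃ y z : UU B, pr y ∈ T ∧ pr z ∈ T ∧ u = y * z * y⁻¹ * z⁻¹} ?_ ?_
    · refine simple_gen hs ?_ ?_ ?_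
      · rintro _ ⟨_, ⟨y, z, hy, hz, rfl⟩, rfl⟩
        simp only [map_mul, map_inv]
        exact T.mul_mem (T.mul_mem (T.mul_mem hy hz) (T.inv_mem hy)) (T.inv_mem hz)
      · rintro g hg _ ⟨_, ⟨y, z, hy, hz, rfl⟩, rfl⟩
        refine Subgroup.subset_closure ⟨_, ⟨lf g * y * (lf g)⁻¹, lf g * z * (lf g)⁻¹, ?_, ?_, rfl⟩, ?_⟩
        · simp only [map_mul, map_inv, pr_lf]
          exact T.mul_mem (T.mul_mem hg hy) (T.inv_mem hg)
        · simp only [map_mul, map_inv, pr_lf]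
          exact T.mul_mem (T.mul_mem hg hz) (T.inv_mem hg)
        · simp only [map_mul, map_inv, pr_lf]
          group
      · by_contra hno
        refine hn fun g hg g' hg' => ?_
        by_contra hne
        refine hno ⟨_, ⟨_, ⟨lf g, lf g', by rw [pr_lf]; exact hg, by rw [pr_lf]; exact hg', rfl⟩,
          rfl⟩, fun h1 => hne ?_⟩
        simp only [map_mul, map_inv, pr_lf] at h1
        calc g * g' = (g * g' * g⁻¹ * g'⁻¹) * (g' * g) := by group
          _ = g' * g := by rw [h1, one_mul]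
    · rintro _ ⟨y, z, hy, hz, rfl⟩
      have h1 : z * (x⁻¹ * y * x) = (x⁻¹ * y * x) * z :=
        Subtype.ext (hc _ (hcj y hy) z hz).eq
      have e : y * z * y⁻¹ * z⁻¹ = (x⁻¹ * y * x * y⁻¹)⁻¹ * (x⁻¹ * z * x * z⁻¹)⁻¹ *
          (x⁻¹ * (z * y) * x * (z * y)⁻¹) := by
        calc y * z * y⁻¹ * z⁻¹ = y * (x⁻¹ * y * x)⁻¹ * ((x⁻¹ * y * x) * z) * y⁻¹ * z⁻¹ := by group
          _ = y * (x⁻¹ * y * x)⁻¹ * (z * (x⁻¹ * y * x)) * y⁻¹ * z⁻¹ := by rw [h1]
          _ = _ := by group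
      rw [e]
      have h2 := mvN_mul w ((x⁻¹ * y * x * y⁻¹)⁻¹ * (x⁻¹ * z * x * z⁻¹)⁻¹)
        (x⁻¹ * (z * y) * x * (z * y)⁻¹)
      have h3 := mvN_mul w (x⁻¹ * y * x * y⁻¹)⁻¹ (x⁻¹ * z * x * z⁻¹)⁻¹
      rw [mvN_inv, mvN_inv] at h3
      have h4 := hδ y hy
      have h5 := hδ z hz
      have h6 := hδ (z * y) (by rw [map_mul]; exact T.mul_mem hz hy)
      linarith

theorem Fac.gap {T : Subgroup (PU B)} [Finite T] (h : Fac T) (hs : IsSimpleGroup T)
    (hn : ¬ ∀ x ∈ T, ∀ y ∈ T, x * y = y * x) {b : ℕ} (hb : Nat.card T ≤ b) {x : UU B}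
    (hx : ¬ Cm T x) (hc : cj (pr x)⁻¹ T = T ∨ CC T (cj (pr x)⁻¹ T)) :
    ‖star (x : B →L[ℂ] B) * SV.tw T x‖ ≤ gp b := by
  classical
  have hc0 : 0 < Nat.card T := Nat.card_pos
  have hb1 : 1 ≤ b := hc0.trans_le hb
  have hbr : (1 : ℝ) ≤ b := by exact_mod_cast hb1
  refine ContinuousLinearMap.opNorm_le_of_unit_norm (gp_nonneg hb1) fun w hw => ?_
  obtain ⟨y, hy, hm⟩ := h.moves hs hn hb hx hc hw
  set V : PU B → B := fun g => star (x : B →L[ℂ] B)
    (((lf g : B →L[ℂ] B) * x * star (lf g : B →L[ℂ] B)) w) with hV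
  have hVu : ∀ u : UU B, V (pr u) = ((x⁻¹ * u * x * u⁻¹ : UU B) : B →L[ℂ] B) w := by
    intro u
    simp only [hV]
    rw [ad_eq (pr_lf (pr u)), ← ContinuousLinearMap.mul_apply, ← Unitary.star_eq_inv,
      ← Unitary.star_eq_inv]
    simp only [Submonoid.coe_mul, Unitary.coe_star, mul_assoc]
  have hV1 : V 1 = w := by
    rw [← map_one (pr (B := B)), hVu]
    simp
  have hVn : ∀ g, ‖V g‖ = 1 := by
    intro g
    rw [← pr_lf g, hVu, norm_uu, hw]
  have hη : (0 : ℝ) < 1 / (32 * b : ℝ) := by positivity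
  rw [← hVu] at hm
  have hy1 : pr y ≠ 1 := by
    intro e
    rw [e, hV1, sub_self, norm_zero] at hm
    linarith
  have h1 : (star (x : B →L[ℂ] B) * SV.tw T x) w = avg T V := by
    rw [ContinuousLinearMap.mul_apply, SV.tw, gap_avg_apply]
    exact map_avg (star (x : B →L[ℂ] B)).toLinearMap _
  have h2 : ‖V (pr y) + w‖ ≤ 2 - (1 / (32 * b : ℝ)) ^ 2 / 4 := by
    have e1 := parallelogram_law_with_norm ℂ (V (pr y)) w
    rw [hVn, hw] at e1
    have e2 : (1 / (32 * b : ℝ)) ^ 2 ≤ ‖V (pr y) - w‖ ^ 2 := pow_le_pow_left₀ hη.le hm.le 2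
    nlinarith [sq_nonneg (‖V (pr y) + w‖ - 2)]
  have m1 : (1 : PU B) ∈ els T := mem_els.2 T.one_mem
  have m2 : pr y ∈ (els T).erase 1 := mem_erase.2 ⟨hy1, mem_els.2 hy⟩
  have h3 : ‖∑ g ∈ els T, V g‖ ≤ Nat.card T - (1 / (32 * b : ℝ)) ^ 2 / 4 := by
    have e1 : ∑ g ∈ els T, V g = (V (pr y) + w) + ∑ g ∈ ((els T).erase 1).erase (pr y), V g := by
      rw [← add_sum_erase _ _ m1, ← add_sum_erase _ _ m2, hV1]
      abel
    have e2 : (Nat.card T : ℝ) = 2 + #(((els T).erase 1).erase (pr y)) := by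
      have a1 := card_erase_add_one m1
      have a2 := card_erase_add_one m2
      rw [← card_els, ← a1, ← a2]
      push_cast
      ring
    have e3 : ‖∑ g ∈ ((els T).erase 1).erase (pr y), V g‖ ≤ #(((els T).erase 1).erase (pr y)) := by
      refine (norm_sum_le _ _).trans ?_
      simp [hVn]
    rw [e1, e2]
    linarith [norm_add_le (V (pr y) + w) (∑ g ∈ ((els T).erase 1).erase (pr y), V g)]
  have hcr : (0 : ℝ) < Nat.card T := by exact_mod_cast hc0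
  have hcb : (Nat.card T : ℝ) ≤ b := by exact_mod_cast hb
  rw [h1, avg, norm_smul, norm_inv, Complex.norm_natCast, inv_mul_le_iff₀ hcr, gp]
  refine h3.trans ?_
  have e4 : (1 / (32 * b : ℝ)) ^ 2 / 4 = b * (1 / (4096 * (b : ℝ) ^ 3)) := by
    field_simp
    norm_num
  have e5 : (0 : ℝ) ≤ 1 / (4096 * (b : ℝ) ^ 3) := by positivity
  rw [e4]
  nlinarith [mul_le_mul_of_nonneg_right hcb e5]

variable {H : Type*} [Group H] {σ : H →* UU B} {b : ℕ} {G : Subgroup (PU B)}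
  {J : Finset (Subgroup (PU B))}

theorem Sys.prod (h : Sys σ b G J) (hp : Prim σ) (hb : 1 ≤ b) (x : H) (k : ℕ)
    (S : Finset (Subgroup (PU B))) (hS : S ⊆ J) (hx : ∀ T ∈ S, ¬ Cm T (σ x)) (hk : 2 * k ≤ #S)
    (a : B →L[ℂ] B) (ha : ∀ T ∈ S, Cm T a) :
    ‖tau ((σ x : B →L[ℂ] B) * a)‖ ≤ gp b ^ k * ‖a‖ := by
  classical
  induction k generalizing S a with
  | zero =>
    rw [pow_zero, one_mul]
    refine (norm_tau_le _).trans (le_of_eq ?_)
    exact CStarRing.norm_coe_unitary_mul (σ x) a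
  | succ k ih =>
    obtain ⟨T, hT⟩ : S.Nonempty := card_pos.1 (by omega)
    have hTJ := hS hT
    haveI := h.fin T hTJ
    have hT' : cj (pr (σ x))⁻¹ T ∈ J := by
      have h1 := h.nmJ x⁻¹ T hTJ
      rwa [map_inv, map_inv] at h1
    have hc : cj (pr (σ x))⁻¹ T = T ∨ CC T (cj (pr (σ x))⁻¹ T) := by
      by_cases he : cj (pr (σ x))⁻¹ T = T
      · exact Or.inl he
      · exact Or.inr (h.cc T hTJ _ hT' fun h1 => he h1.symm)
    have hg := (h.fac hp hTJ).gap (h.smp T hTJ) (h.ncm T hTJ) (h.crd T hTJ) (hx T hT) hc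
    have e1 : (σ x : B →L[ℂ] B) * star (σ x : B →L[ℂ] B) = 1 := Unitary.coe_mul_star_self (σ x)
    have e2 : tau ((σ x : B →L[ℂ] B) * a) =
        tau ((σ x : B →L[ℂ] B) * (star (σ x : B →L[ℂ] B) * tw T (σ x) * a)) := by
      rw [← tau_tw (X := T) ((σ x : B →L[ℂ] B) * a), tw_mul_cm _ (ha T hT), ← mul_assoc,
        ← mul_assoc, e1, one_mul]
    have hsub : (S.erase T).erase (cj (pr (σ x))⁻¹ T) ⊆ S :=
      (erase_subset _ _).trans (erase_subset _ _)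
    have hcard : 2 * k ≤ #((S.erase T).erase (cj (pr (σ x))⁻¹ T)) := by
      have h1 := pred_card_le_card_erase (s := S.erase T) (a := cj (pr (σ x))⁻¹ T)
      have h2 := card_erase_of_mem hT
      omega
    have hcm : ∀ T'' ∈ (S.erase T).erase (cj (pr (σ x))⁻¹ T),
        Cm T'' (star (σ x : B →L[ℂ] B) * tw T (σ x) * a) := by
      intro T'' hT''
      have n1 : T'' ≠ cj (pr (σ x))⁻¹ T := ne_of_mem_erase hT''
      have n2 : T'' ≠ T := ne_of_mem_erase (mem_of_mem_erase hT'')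
      have c1 := h.cc T'' (hS (hsub hT'')) _ hT' n1
      have c2 := h.cc T'' (hS (hsub hT'')) _ hTJ n2
      refine Cm.mul ?_ (ha T'' (hsub hT''))
      intro u hu
      have e3 : star (σ x : B →L[ℂ] B) * tw T (σ x) = avg T fun g => star (σ x : B →L[ℂ] B) *
          ((lf g : B →L[ℂ] B) * (σ x : B →L[ℂ] B) * star (lf g : B →L[ℂ] B)) :=
        map_avg (LinearMap.mulLeft ℂ (star (σ x : B →L[ℂ] B))) _
      have h3 : star (σ x : B →L[ℂ] B) * tw T (σ x) ∈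
          Subalgebra.toSubmodule (Subalgebra.centralizer ℂ {(u : B →L[ℂ] B)}) := by
        rw [e3]
        refine avg_mem fun g hg => ?_
        have h4 : pr ((σ x)⁻¹ * lf g * σ x) ∈ cj (pr (σ x))⁻¹ T := by
          rw [mem_cj, map_mul, map_mul, map_inv, pr_lf]
          have e : (pr (σ x))⁻¹⁻¹ * ((pr (σ x))⁻¹ * g * pr (σ x)) * (pr (σ x))⁻¹ = g := by group
          rw [e]; exact hg
        have h5 : Commute (u : B →L[ℂ] B)
            (star (σ x : B →L[ℂ] B) * (lf g : B →L[ℂ] B) * (σ x : B →L[ℂ] B)) := c1 _ h4 u hu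
        have h6 : Commute (u : B →L[ℂ] B) (star (lf g : B →L[ℂ] B)) :=
          c2 (lf g)⁻¹ (by rw [map_inv, pr_lf]; exact T.inv_mem hg) u hu
        have h7 := h5.mul_right h6
        rw [Subalgebra.mem_toSubmodule, Subalgebra.mem_centralizer_iff]
        rintro _ rfl
        simpa only [mul_assoc] using h7.eq
      rw [Subalgebra.mem_toSubmodule, Subalgebra.mem_centralizer_iff] at h3
      exact h3 _ rfl
    have h8 := ih _ (hsub.trans hS) (fun T'' hT'' => hx T'' (hsub hT'')) hcard _ hcm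
    have h9 : ‖star (σ x : B →L[ℂ] B) * tw T (σ x) * a‖ ≤ gp b * ‖a‖ :=
      (norm_mul_le _ _).trans (mul_le_mul_of_nonneg_right hg (norm_nonneg _))
    rw [e2, pow_succ, mul_assoc (gp b ^ k)]
    exact h8.trans (mul_le_mul_of_nonneg_left h9 (pow_nonneg (gp_nonneg hb) k))

end Pool.Agent.Lib.MP_cd2b7c_an.SV
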