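import Pool.Agent.Lib.MP_cd2b7c_an.SV.Defs
import Pool.Agent.Lib.MP_cd2b7c_an.NA.Base

/-! Finite group lemmas: simple sections, minimal normal subgroups, short words. -/

open Finset Pointwise

namespace Pool.Agent.Lib.MP_cd2b7c_an.SV

theorem Sec.of_hom {Q L T : Type*} [Group Q] [Group L] [Group T] {b : ℕ} (h : Sec Q b)
    (i : L →* Q) (hi : Function.Injective i) (f : L →* T) (hf : Function.Surjective f)
    (hT : IsSimpleGroup T) : (∀ x y : T, x * y = y * x) ∨ Nat.card T ≤ b := by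
  let e : L ≃* i.range := MonoidHom.ofInjective hi
  let F : i.range →* T := f.comp e.symm.toMonoidHom
  have hF : Function.Surjective F := hf.comp e.symm.surjective
  let q : (i.range ⧸ F.ker) ≃* T := QuotientGroup.quotientKerEquivOfSurjective F hF
  have hs : IsSimpleGroup (i.range ⧸ F.ker) := q.isSimpleGroup
  rcases h i.range F.ker hs with h1 | h1
  · refine Or.inl fun x y => ?_
    obtain ⟨x, rfl⟩ := q.surjective x
    obtain ⟨y, rfl⟩ := q.surjective y
    rw [← map_mul, ← map_mul, h1]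
  · exact Or.inr (Nat.card_congr q.toEquiv ▸ h1)

theorem Sec.sub {Q : Type*} [Group Q] {b : ℕ} (h : Sec Q b) (H : Subgroup Q) : Sec H b := by
  intro K N _ hs
  exact h.of_hom (H.subtype.comp K.subtype) (H.subtype_injective.comp K.subtype_injective)
    (QuotientGroup.mk' N) (QuotientGroup.mk'_surjective N) hs

theorem Sec.mono {Q : Type*} [Group Q] {b b' : ℕ} (h : Sec Q b) (hb : b ≤ b') : Sec Q b' := by
  intro K N _ hs
  exact (h K N hs).imp id fun h1 => h1.trans hb

theorem Sec.range {H P : Type*} [Group H] [Group P] {b : ℕ} (h : Sec H b) (f : H →* P)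
    {T : Subgroup P} (hT : T ≤ f.range) (hs : IsSimpleGroup T)
    (hn : ¬ ∀ x ∈ T, ∀ y ∈ T, x * y = y * x) : Nat.card T ≤ b := by
  let F : T.comap f →* T := (f.comp (T.comap f).subtype).codRestrict T fun x => x.2
  have hF : Function.Surjective F := by
    rintro ⟨y, hy⟩
    obtain ⟨x, rfl⟩ := hT hy
    exact ⟨⟨x, hy⟩, rfl⟩
  rcases h.of_hom (T.comap f).subtype (T.comap f).subtype_injective F hF hs with h1 | h1
  · exact absurd (fun x hx y hy => congrArg Subtype.val (h1 ⟨x, hx⟩ ⟨y, hy⟩)) hn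
  · exact h1

theorem ex_min {P : Type*} [Group P] (L : Subgroup P) [Finite L] (p : Subgroup P → Prop)
    (h : p L) : ∃ N ≤ L, p N ∧ ∀ M ≤ N, p M → M = N := by
  classical
  have hex : ∃ n, ∃ N ≤ L, p N ∧ Nat.card N = n := ⟨_, L, le_rfl, h, rfl⟩
  obtain ⟨N, hN, hp, hc⟩ := Nat.find_spec hex
  refine ⟨N, hN, hp, fun M hM hpM => ?_⟩
  have : Finite N := Finite.of_injective _ (Subgroup.inclusion_injective hN)
  refine Subgroup.eq_of_le_of_card_ge hM ?_
  rw [hc]
  exact Nat.find_min' hex ⟨M, hM.trans hN, hpM, rfl⟩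

/-- The elements all of whose conjugates lie in a subgroup. -/
def coreIn {P : Type*} [Group P] (L K : Subgroup P) : Subgroup P where
  carrier := {x | ∀ g ∈ L, g * x * g⁻¹ ∈ K}
  one_mem' := fun g _ => by simp
  mul_mem' := fun {a b} ha hb g hg => by
    have := K.mul_mem (ha g hg) (hb g hg)
    simpa [mul_assoc] using this
  inv_mem' := fun {a} ha g hg => by
    have := K.inv_mem (ha g hg)
    simpa [mul_assoc] using this

/-- The elements whose conjugation preserves a subgroup in both directions. -/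
def nrm {P : Type*} [Group P] (S : Subgroup P) : Subgroup P where
  carrier := {g | ∀ x ∈ S, g * x * g⁻¹ ∈ S ∧ g⁻¹ * x * g ∈ S}
  one_mem' := fun x hx => by simpa using hx
  mul_mem' := fun {a b} ha hb x hx => by
    have h1 := (ha _ (hb x hx).1).1
    have h2 := (hb _ (ha x hx).2).2
    exact ⟨by simpa [mul_assoc] using h1, by simpa [mul_assoc] using h2⟩
  inv_mem' := fun {a} ha x hx => ⟨by simpa using (ha x hx).2, by simpa using (ha x hx).1⟩

/-- A finite subgroup has a commutative normal subgroup, or a simple subgroup whose conjugates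
commute with each other. -/
theorem min_normal {P : Type*} [Group P] (L : Subgroup P) [Finite L] (h0 : L ≠ ⊥) :
    (∃ N ≤ L, N ≠ ⊥ ∧ (∀ x ∈ N, ∀ y ∈ N, x * y = y * x) ∧ ∀ g ∈ L, ∀ x ∈ N, g * x * g⁻¹ ∈ N) ∨
    ∃ T ≤ L, IsSimpleGroup T ∧ (¬ ∀ x ∈ T, ∀ y ∈ T, x * y = y * x) ∧
      ∀ g ∈ L, cj g T ≠ T → ∀ x ∈ T, ∀ y ∈ cj g T, x * y = y * x := by
  obtain ⟨N, hNL, ⟨hN0, hNn⟩, hNm⟩ := ex_min L
    (fun N => N ≠ ⊥ ∧ ∀ g ∈ L, ∀ x ∈ N, g * x * g⁻¹ ∈ N)
    ⟨h0, fun g hg x hx => L.mul_mem (L.mul_mem hg hx) (L.inv_mem hg)⟩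
  have : Finite N := Finite.of_injective _ (Subgroup.inclusion_injective hNL)
  obtain ⟨T, hTN, ⟨hT0, hTn⟩, hTm⟩ := ex_min N
    (fun T => T ≠ ⊥ ∧ ∀ g ∈ N, ∀ x ∈ T, g * x * g⁻¹ ∈ T)
    ⟨hN0, fun g hg x hx => N.mul_mem (N.mul_mem hg hx) (N.inv_mem hg)⟩
  have cjn : ∀ g ∈ L, ∀ n ∈ N, ∀ x ∈ cj g T, n * x * n⁻¹ ∈ cj g T := by
    intro g hg n hn x hx
    rw [mem_cj] at hx ⊢
    have h1 : g⁻¹ * n * g⁻¹⁻¹ ∈ N := hNn _ (L.inv_mem hg) n hn
    have h2 := hTn _ h1 _ hx
    simpa [mul_assoc] using h2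
  have cjN : ∀ g ∈ L, cj g T ≤ N := by
    intro g hg x hx
    rw [mem_cj] at hx
    have := hNn g hg _ (hTN hx)
    simpa [mul_assoc] using this
  have com : ∀ g ∈ L, cj g T ≠ T → ∀ x ∈ T, ∀ y ∈ cj g T, x * y = y * x := by
    intro g hg hne x hx y hy
    have hb : T ⊓ cj g T = ⊥ := by
      by_contra hb
      have he := hTm (T ⊓ cj g T) inf_le_left
        ⟨hb, fun n hn z hz => ⟨hTn n hn z hz.1, cjn g hg n hn z hz.2⟩⟩
      have hle : T ≤ cj g T := inf_eq_left.mp he
      have hle' : cj g⁻¹ T ≤ T := by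
        intro z hz
        rw [mem_cj] at hz
        have := mem_cj.mp (hle hz)
        simpa [mul_assoc] using this
      have hne' : cj g⁻¹ T ≠ ⊥ := by
        intro hbb
        apply hT0
        rw [eq_bot_iff]
        intro z hz
        have : g⁻¹ * z * g ∈ cj g⁻¹ T := by
          rw [mem_cj]; simpa [mul_assoc] using hz
        rw [hbb, Subgroup.mem_bot] at this
        rw [Subgroup.mem_bot]
        have h3 : z = g * (g⁻¹ * z * g) * g⁻¹ := by group
        rw [h3, this]; group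
      have he' := hTm _ hle' ⟨hne', cjn _ (L.inv_mem hg)⟩
      apply hne
      refine le_antisymm (fun z hz => ?_) hle
      rw [mem_cj, ← he', mem_cj] at hz
      simpa [mul_assoc] using hz
    have h1 : x * y * x⁻¹ * y⁻¹ ∈ T ⊓ cj g T := by
      refine ⟨?_, (cj g T).mul_mem (cjn g hg x (hTN hx) y hy) ((cj g T).inv_mem hy)⟩
      have := T.mul_mem hx (hTn y (cjN g hg hy) _ (T.inv_mem hx))
      simpa [mul_assoc] using this
    rw [hb, Subgroup.mem_bot] at h1
    calc x * y = (x * y * x⁻¹ * y⁻¹) * (y * x) := by group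
      _ = y * x := by rw [h1, one_mul]
  have gen : ∀ K : Subgroup P, (∀ g ∈ L, cj g T ≤ K) → N ≤ K := by
    intro K hK
    have hT : T ≤ N ⊓ coreIn L K := fun t ht =>
      ⟨hTN ht, fun g hg => hK g hg (by rw [mem_cj]; simpa [mul_assoc] using ht)⟩
    have he := hNm (N ⊓ coreIn L K) inf_le_left
      ⟨fun hb => hT0 (eq_bot_iff.mpr (hb ▸ hT)), fun g hg x hx => ⟨hNn g hg x hx.1, fun g' hg' => by
        have := hx.2 (g' * g) (L.mul_mem hg' hg)
        simpa [mul_assoc] using this⟩⟩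
    intro x hx
    rw [← he] at hx
    simpa using hx.2 1 L.one_mem
  by_cases hc : ∀ x ∈ T, ∀ y ∈ T, x * y = y * x
  · left
    have hNc : N ≤ Subgroup.centralizer (T : Set P) := by
      refine gen _ fun g hg y hy => ?_
      rw [Subgroup.mem_centralizer_iff]
      intro x hx
      by_cases he : cj g T = T
      · exact hc x hx y (he ▸ hy)
      · exact com g hg he x hx y hy
    refine ⟨N ⊓ Subgroup.centralizer (N : Set P), inf_le_left.trans hNL, fun hb => hT0 ?_, ?_, ?_⟩
    · rw [eq_bot_iff, ← hb]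
      intro t ht
      refine ⟨hTN ht, Subgroup.mem_centralizer_iff.mpr fun n hn => ?_⟩
      exact (Subgroup.mem_centralizer_iff.mp (hNc hn) t ht).symm
    · intro x hx y hy
      exact Subgroup.mem_centralizer_iff.mp hy.2 x hx.1
    · intro g hg x hx
      refine ⟨hNn g hg x hx.1, Subgroup.mem_centralizer_iff.mpr fun n hn => ?_⟩
      have h1 : g⁻¹ * n * g⁻¹⁻¹ ∈ N := hNn _ (L.inv_mem hg) n hn
      have h2 := Subgroup.mem_centralizer_iff.mp hx.2 _ h1
      calc n * (g * x * g⁻¹) = g * (g⁻¹ * n * g⁻¹⁻¹ * x) * g⁻¹ := by group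
        _ = g * x * g⁻¹ * n := by rw [h2]; group
  · right
    refine ⟨T, hTN.trans hNL, ?_, hc, com⟩
    have : Nontrivial T := (Subgroup.nontrivial_iff_ne_bot T).mpr hT0
    refine ⟨fun S hS => ?_⟩
    have hST : S.map T.subtype ≤ T := Subgroup.map_subtype_le S
    have hTS : T ≤ nrm (S.map T.subtype) := by
      rintro t ht _ ⟨s, hs, rfl⟩
      exact ⟨⟨_, hS.conj_mem s hs ⟨t, ht⟩, rfl⟩, ⟨_, hS.conj_mem' s hs ⟨t, ht⟩, rfl⟩⟩
    have hNS : N ≤ nrm (S.map T.subtype) := by
      refine gen _ fun g hg y hy => ?_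
      by_cases he : cj g T = T
      · exact hTS (he ▸ hy)
      · intro x hx
        have h1 := com g hg he x (hST hx) y hy
        refine ⟨?_, ?_⟩
        · rw [← h1, mul_inv_cancel_right]; exact hx
        · rw [mul_assoc, h1, inv_mul_cancel_left]; exact hx
    by_cases hb : S.map T.subtype = ⊥
    · left
      exact (Subgroup.map_eq_bot_iff_of_injective S T.subtype_injective).mp hb
    · right
      have he := hTm _ hST ⟨hb, fun n hn x hx => (hNS hn x hx).1⟩
      rw [eq_top_iff]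
      intro t _
      have ht : (t : P) ∈ S.map T.subtype := by rw [he]; exact t.2
      obtain ⟨s, hs, hst⟩ := ht
      rwa [← Subtype.ext hst]

/-- A homomorphism from a non-commutative simple group with commutative image is trivial. -/
theorem hom_triv {P M : Type*} [Group P] [Group M] {T : Subgroup P} (hs : IsSimpleGroup T)
    (hn : ¬ ∀ x ∈ T, ∀ y ∈ T, x * y = y * x) (f : T →* M) (hf : ∀ x y, f x * f y = f y * f x)
    (x : T) : f x = 1 := by
  rcases hs.eq_bot_or_eq_top_of_normal f.ker inferInstance with h | h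
  · exfalso
    apply hn
    intro a ha b hb
    have hi := (MonoidHom.ker_eq_bot_iff f).mp h
    have : (⟨a, ha⟩ * ⟨b, hb⟩ : T) = ⟨b, hb⟩ * ⟨a, ha⟩ := hi (by rw [map_mul, map_mul, hf])
    exact congrArg Subtype.val this
  · rw [← MonoidHom.mem_ker, h]; trivial

/-- A conjugation invariant set with a non-trivial element generates a simple group. -/
theorem simple_gen {P : Type*} [Group P] {T : Subgroup P} (hs : IsSimpleGroup T) {S : Set P}
    (h1 : S ⊆ T) (h2 : ∀ g ∈ T, ∀ x ∈ S, g * x * g⁻¹ ∈ Subgroup.closure S) (h3 : ∃ x ∈ S, x ≠ 1) :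
    Subgroup.closure S = T := by
  have hle : Subgroup.closure S ≤ T := (Subgroup.closure_le T).mpr h1
  have hc : Subgroup.closure S ≤ coreIn T (Subgroup.closure S) :=
    (Subgroup.closure_le _).mpr fun x hx g hg => h2 g hg x hx
  have hn : ((Subgroup.closure S).subgroupOf T).Normal :=
    ⟨fun n hn g => hc (Subgroup.mem_subgroupOf.mp hn) g g.2⟩
  rcases hs.eq_bot_or_eq_top_of_normal _ hn with h | h
  · exfalso
    obtain ⟨x, hx, hx1⟩ := h3
    have : (⟨x, h1 hx⟩ : T) ∈ (Subgroup.closure S).subgroupOf T :=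
      Subgroup.mem_subgroupOf.mpr (Subgroup.subset_closure hx)
    rw [h, Subgroup.mem_bot] at this
    exact hx1 (congrArg Subtype.val this)
  · exact le_antisymm hle (Subgroup.subgroupOf_eq_top.mp h)

/-- Short words: a cost that is subadditive on lifts. -/
theorem short_lift {U P : Type*} [Group U] [Group P] (p : U →* P) {T : Subgroup P} [Finite T]
    {S : Set U} (hS : Subgroup.closure (p '' S) = T) (N : U → ℝ) (N1 : N 1 = 0)
    (Nm : ∀ x y, N (x * y) ≤ N x + N y) (Ni : ∀ x, N x⁻¹ = N x) {δ : ℝ} (δ0 : 0 ≤ δ)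
    (hδ : ∀ s ∈ S, N s ≤ δ) {g : P} (hg : g ∈ T) : ∃ u, p u = g ∧ N u ≤ Nat.card T * δ := by
  let A : ℕ → Set P := fun n => {g | g ∈ T ∧ ∃ u, p u = g ∧ N u ≤ n * δ}
  have hT : (T : Set P).Finite := Set.toFinite _
  have hsub : ∀ n, A n ⊆ T := fun n g h => h.1
  have mono : ∀ {m n : ℕ}, m ≤ n → A m ⊆ A n := by
    rintro m n h g ⟨h1, u, h2, h3⟩
    exact ⟨h1, u, h2, h3.trans (mul_le_mul_of_nonneg_right (Nat.cast_le.2 h) δ0)⟩
  have one : ∀ n, (1 : P) ∈ A n := fun n =>
    ⟨T.one_mem, 1, map_one p, by rw [N1]; exact mul_nonneg (Nat.cast_nonneg n) δ0⟩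
  have step : ∀ n (s : U), p s ∈ T → N s ≤ δ → ∀ y ∈ A n, p s * y ∈ A (n + 1) := by
    rintro n s hs h1 y ⟨h2, u, rfl, h3⟩
    refine ⟨T.mul_mem hs h2, s * u, map_mul p s u, (Nm s u).trans ?_⟩
    push_cast
    linarith
  have key : ∀ n, A (n + 1) ⊆ A n → ∀ g ∈ Subgroup.closure (p '' S), g ∈ A n := by
    intro n h g hg
    induction hg using Subgroup.closure_induction_left with
    | one => exact one n
    | mul_left x hx y hy ih =>
      have hx' : x ∈ T := hS ▸ Subgroup.subset_closure hx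
      obtain ⟨s, hs, rfl⟩ := hx
      exact h (step n s hx' (hδ s hs) y ih)
    | inv_mul_cancel x hx y hy ih =>
      have hx' : x ∈ T := hS ▸ Subgroup.subset_closure hx
      obtain ⟨s, hs, rfl⟩ := hx
      rw [← map_inv]
      exact h (step n s⁻¹ (by rw [map_inv]; exact T.inv_mem hx') (by rw [Ni]; exact hδ s hs) y ih)
  have grow : ∀ n, g ∈ A n ∨ n < (A n).ncard := by
    intro n
    induction n with
    | zero => exact Or.inr ((Set.ncard_pos (hT.subset (hsub 0))).2 ⟨1, one 0⟩)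
    | succ n ih =>
      rcases ih with h | h
      · exact Or.inl (mono n.le_succ h)
      by_cases e : A (n + 1) ⊆ A n
      · exact Or.inl (mono n.le_succ (key n e g (hS ▸ hg)))
      · exact Or.inr (lt_of_le_of_lt h
          (Set.ncard_lt_ncard ⟨mono n.le_succ, e⟩ (hT.subset (hsub _))))
  rcases grow (Nat.card T) with h | h
  · exact h.2
  · exact absurd (Set.ncard_le_ncard (hsub _) hT) (not_le.2 h)

theorem cj_mul {P : Type*} [Group P] (x y : P) (T : Subgroup P) : cj (x * y) T = cj x (cj y T) := by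
  ext g
  simp only [mem_cj, mul_inv_rev, mul_assoc]

theorem cj_one {P : Type*} [Group P] (T : Subgroup P) : cj 1 T = T := by
  ext g
  simp only [mem_cj, inv_one, one_mul, mul_one]

/-- A conjugate is isomorphic to the subgroup. -/
theorem cj_equiv {P : Type*} [Group P] (x : P) (T : Subgroup P) : Nonempty (T ≃* cj x T) := by
  exact ⟨T.equivMapOfInjective _ (MulAut.conj x).injective⟩

end Pool.Agent.Lib.MP_cd2b7c_an.SV
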