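import Pool.Agent.Lib.MP_cd2b7c_an.SV.SysB
import Pool.Agent.Lib.MP_cd2b7c_an.SV.Gap

/-! The three outputs of the structure theory. -/

open Finset
open scoped BigOperators

namespace Pool.Agent.Lib.MP_cd2b7c_an.SV

theorem Mj.of_finset {P ι : Type*} [Group P] [Fintype P] {f : P → ℝ} {ε : ℝ} (s : Finset ι)
    (hs : s.Nonempty) (φ : ι → P → ℂ) (h1 : ∀ i ∈ s, Tst (φ i))
    (h2 : ∀ x, f x ≤ 𝔼 i ∈ s, (φ i x).re) (h3 : 𝔼 i ∈ s, 𝔼 x, (φ i x).re ≤ ε) : Mj f ε := by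
  obtain ⟨n, hn⟩ : ∃ n, #s = n + 1 := ⟨#s - 1, by have := hs.card_pos; omega⟩
  let e : Fin (n + 1) ≃ s := (s.equivFinOfCardEq hn).symm
  have key : ∀ g : ι → ℝ, 𝔼 i : Fin (n + 1), g (e i) = 𝔼 i ∈ s, g i := fun g => by
    refine expect_nbij (fun i => (e i : ι)) (fun i _ => (e i).2) (fun _ _ => rfl)
      (fun i _ j _ h => e.injective (Subtype.ext h)) fun y hy => ⟨e.symm ⟨y, hy⟩, by simp, by simp⟩
  refine ⟨n, fun i => φ (e i), fun i => h1 _ (e i).2, fun x => ?_, ?_⟩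
  · rw [key fun i => (φ i x).re]
    exact h2 x
  · rw [key fun i => 𝔼 x, (φ i x).re]
    exact h3

theorem choose_ratio {m N p : ℕ} (h1 : 8 * p ≤ m) (h2 : 7 * m ≤ 8 * N) :
    (3 / 4 : ℝ) ^ p * m.choose p ≤ N.choose p := by
  have a1 : (m.choose p : ℝ) ≤ (m : ℝ) ^ p / (p.factorial : ℝ) := Nat.choose_le_pow_div p m
  have a2 : ((N + 1 - p : ℕ) : ℝ) ^ p / (p.factorial : ℝ) ≤ N.choose p := Nat.pow_le_choose p N
  have a3 : 3 * m ≤ 4 * (N + 1 - p) := by omega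
  have a4 : (3 / 4 : ℝ) * m ≤ ((N + 1 - p : ℕ) : ℝ) := by
    have : (3 : ℝ) * m ≤ 4 * ((N + 1 - p : ℕ) : ℝ) := by exact_mod_cast a3
    linarith
  calc (3 / 4 : ℝ) ^ p * m.choose p ≤ (3 / 4 : ℝ) ^ p * ((m : ℝ) ^ p / (p.factorial : ℝ)) := by
        gcongr
    _ = ((3 / 4 : ℝ) * m) ^ p / (p.factorial : ℝ) := by rw [mul_pow, mul_div_assoc]
    _ ≤ ((N + 1 - p : ℕ) : ℝ) ^ p / (p.factorial : ℝ) := by gcongr
    _ ≤ _ := a2

variable {B : Type*} [NormedAddCommGroup B] [InnerProductSpace ℂ B] [CompleteSpace B]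
  [FiniteDimensional ℂ B] [Nontrivial B] {H : Type*} [Group H] [Fintype H] {σ : H →* UU B}

/-- In a commutative factor a non-scalar lift has trace zero. -/
theorem outa_tau_zero {G : Subgroup (PU B)} (hf : Fac G) (hc : ∀ x ∈ G, ∀ y ∈ G, x * y = y * x)
    {v : UU B} (hv : pr v ∈ G) (h1 : pr v ≠ 1) : tau (v : B →L[ℂ] B) = 0 := by
  by_contra h0
  refine h1 (pr_eq_one.2 (hf _ (sp_coe hv) fun w hw => ?_))
  have h2 : pr (w * v * w⁻¹) = pr v := by
    rw [map_mul, map_mul, map_inv, hc _ hw _ hv, mul_inv_cancel_right]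
  obtain ⟨z, -, hz⟩ := pr_eq_iff.1 h2
  have h3 : ((w * v * w⁻¹ : UU B) : B →L[ℂ] B) =
      (w : B →L[ℂ] B) * v * star (w : B →L[ℂ] B) := by
    rw [Submonoid.coe_mul, Submonoid.coe_mul, ← Unitary.star_eq_inv, Unitary.coe_star]
  have h4 : tau (v : B →L[ℂ] B) = z * tau (v : B →L[ℂ] B) := by
    rw [← smul_eq_mul, ← map_smul, ← hz, h3, tau_conj]
  have h5 : z = 1 := by
    have : (z - 1) * tau (v : B →L[ℂ] B) = 0 := by rw [sub_mul, ← h4, one_mul, sub_self]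
    exact sub_eq_zero.1 ((mul_eq_zero.1 this).resolve_right h0)
  rw [h5, one_smul] at hz
  have h6 : w * v * w⁻¹ = v := Subtype.ext hz
  have h7 : w * v = v * w := by rw [← mul_inv_eq_iff_eq_mul, h6]
  exact congrArg Subtype.val h7

theorem outa_sig {G : Subgroup (PU B)} [Finite G] (hf : Fac G)
    (hc : ∀ x ∈ G, ∀ y ∈ G, x * y = y * x) : sig G ≤ (Nat.card G : ℝ)⁻¹ := by
  rw [sig, avr, sum_eq_single_of_mem 1 (mem_els.2 G.one_mem)]
  · obtain ⟨z, hz, h⟩ := lf_pr (1 : UU B)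
    rw [map_one, OneMemClass.coe_one] at h
    rw [h, map_smul, tau_one, smul_eq_mul, mul_one, hz, one_pow, mul_one]
  · intro g hg h1
    rw [outa_tau_zero hf hc (by rw [pr_lf]; exact mem_els.1 hg) (by rwa [pr_lf]), norm_zero,
      zero_pow two_ne_zero]

omit [Fintype H] in
theorem outa_tst {G : Subgroup (PU B)} (hf : Fac G) (hc : ∀ x ∈ G, ∀ y ∈ G, x * y = y * x)
    (hn : Nm σ G) {u : UU B} (hu : pr u ∈ G) :
    Tst fun x => tau ((u * (σ x)⁻¹ * u⁻¹ * σ x : UU B) : B →L[ℂ] B) := by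
  let K : Subgroup H := (Subgroup.centralizer {pr u}).comap (pr.comp σ)
  have hK : ∀ x, x ∈ K ↔ pr (u * (σ x)⁻¹ * u⁻¹ * σ x) = 1 := fun x => by
    rw [Subgroup.mem_comap, Subgroup.mem_centralizer_singleton_iff, MonoidHom.comp_apply, map_mul,
      map_mul, map_mul, map_inv, map_inv, mul_assoc, mul_assoc, ← mul_assoc, mul_eq_one_iff_eq_inv,
      mul_inv_rev, inv_inv, mul_inv_eq_iff_eq_mul, mul_assoc, eq_inv_mul_iff_mul_eq]
  have hz : ∀ x ∈ K, ∃ z : ℂ, ‖z‖ = 1 ∧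
      ((u * (σ x)⁻¹ * u⁻¹ * σ x : UU B) : B →L[ℂ] B) = z • 1 := fun x hx => by
    have := pr_eq_iff.1 (((hK x).1 hx).trans (map_one pr).symm)
    rwa [OneMemClass.coe_one] at this
  refine ⟨K, ⟨⟨fun k => tau ((u * (σ k)⁻¹ * u⁻¹ * σ k : UU B) : B →L[ℂ] B), ?_⟩, ?_⟩, ?_,
    fun _ => rfl, fun x hx => outa_tau_zero hf hc ?_ fun h => hx ((hK x).2 h)⟩
  · simp only [OneMemClass.coe_one, map_one, inv_one, mul_one, mul_inv_cancel]
    exact tau_one
  · intro x y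
    obtain ⟨a, -, ha⟩ := hz x x.2
    obtain ⟨b, -, hb⟩ := hz y y.2
    have h1 : u * (σ (x * y : K))⁻¹ * u⁻¹ * σ (x * y : K) =
        u * (σ y)⁻¹ * u⁻¹ * (u * (σ x)⁻¹ * u⁻¹ * σ x) * σ y := by
      rw [Subgroup.coe_mul, map_mul]
      group
    have h2 : ((u * (σ (x * y : K))⁻¹ * u⁻¹ * σ (x * y : K) : UU B) : B →L[ℂ] B) =
        a • ((u * (σ y)⁻¹ * u⁻¹ * σ y : UU B) : B →L[ℂ] B) := by
      rw [h1, Submonoid.coe_mul, Submonoid.coe_mul, ha, mul_smul_comm, mul_one, smul_mul_assoc,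
        ← Submonoid.coe_mul]
    show tau _ = tau _ * tau _
    rw [h2, map_smul, ha, map_smul, tau_one, smul_eq_mul, smul_eq_mul, mul_one]
  · intro k
    obtain ⟨a, ha1, ha⟩ := hz k k.2
    show ‖tau _‖ = 1
    rw [ha, map_smul, tau_one, smul_eq_mul, mul_one, ha1]
  · have := hn x⁻¹ _ (G.inv_mem hu)
    rw [map_inv, map_inv, inv_inv] at this
    rw [map_mul, map_mul, map_mul, map_inv, map_inv, mul_assoc, mul_assoc, ← mul_assoc _ _ (pr (σ x))]
    exact G.mul_mem hu this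

theorem out_a (hp : Prim σ) {G : Subgroup (PU B)} [Finite G] (hf : Fac G)
    (hc : ∀ x ∈ G, ∀ y ∈ G, x * y = y * x) (hn : Nm σ G) :
    Mj (fun x => ‖tau (σ x : B →L[ℂ] B)‖ ^ 2) (Nat.card G : ℝ)⁻¹ := by
  have key : ∀ x, (tau (star (tw G (σ x)) * tw G (σ x))).re =
      𝔼 g ∈ els G, (tau ((lf g * (σ x)⁻¹ * (lf g)⁻¹ * σ x : UU B) : B →L[ℂ] B)).re := fun x => by
    rw [tau_tw_sq, re_avg, avr_eq_expect]
    refine expect_congr rfl fun g _ => ?_
    rw [Submonoid.coe_mul, Submonoid.coe_mul, Submonoid.coe_mul, ← Unitary.star_eq_inv,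
      ← Unitary.star_eq_inv, Unitary.coe_star, Unitary.coe_star]
  refine Mj.of_finset (els G) ⟨1, mem_els.2 G.one_mem⟩
    (fun g x => tau ((lf g * (σ x)⁻¹ * (lf g)⁻¹ * σ x : UU B) : B →L[ℂ] B))
    (fun g hg => outa_tst hf hc hn (by rw [pr_lf]; exact mem_els.1 hg)) (fun x => ?_) ?_
  · rw [← key]
    exact norm_tau_sq_le _
  · rw [expect_comm, ← expect_congr rfl fun x _ => key x, hp.mean_tw]
    exact outa_sig hf hc

open Classical in
/-- The indicator of the elements commuting with all members of a family. -/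
noncomputable def indB (σ : H →* UU B) (Y : Finset (Subgroup (PU B))) (x : H) : ℂ :=
  if ∀ T ∈ Y, Cm T (σ x : B →L[ℂ] B) then 1 else 0

omit [FiniteDimensional ℂ B] [Nontrivial B] [Fintype H] in
theorem tst_indB (Y : Finset (Subgroup (PU B))) : Tst (indB σ Y) := by
  let K : Subgroup H :=
    { carrier := {x | ∀ T ∈ Y, Cm T (σ x : B →L[ℂ] B)}
      one_mem' := fun T _ u _ => by
        rw [map_one, OneMemClass.coe_one]
        exact Commute.one_right _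
      mul_mem' := fun {x y} hx hy T hT => by
        rw [map_mul, Submonoid.coe_mul]
        exact (hx T hT).mul (hy T hT)
      inv_mem' := fun {x} hx T hT => by
        rw [map_inv, ← Unitary.star_eq_inv, Unitary.coe_star]
        exact (hx T hT).star }
  refine ⟨K, 1, fun k => by simp, fun k => ?_, fun x hx => ?_⟩
  · exact if_pos k.2
  · exact if_neg hx

omit [FiniteDimensional ℂ B] [Nontrivial B] [Fintype H] in
theorem indB_nonneg (Y : Finset (Subgroup (PU B))) (x : H) : 0 ≤ (indB σ Y x).re := by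
  unfold indB
  split_ifs <;> simp

open Classical in
omit [FiniteDimensional ℂ B] [Nontrivial B] [Fintype H] in
theorem sum_indB (J : Finset (Subgroup (PU B))) (p : ℕ) (x : H) :
    ∑ Y ∈ powersetCard p J, (indB σ Y x).re =
      ((#(J.filter fun T => Cm T (σ x : B →L[ℂ] B))).choose p : ℝ) := by
  have e : (powersetCard p J).filter (fun Y => ∀ T ∈ Y, Cm T (σ x : B →L[ℂ] B)) =
      powersetCard p (J.filter fun T => Cm T (σ x : B →L[ℂ] B)) := by
    ext Y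
    simp only [mem_filter, mem_powersetCard, subset_iff]
    exact ⟨fun h => ⟨fun T hT => ⟨h.1.1 hT, h.2 T hT⟩, h.1.2⟩,
      fun h => ⟨⟨fun T hT => (h.1 hT).1, h.2⟩, fun T hT => (h.1 hT).2⟩⟩
  rw [← card_powersetCard, ← e, card_filter]
  push_cast
  refine sum_congr rfl fun Y _ => ?_
  unfold indB
  split_ifs <;> simp

theorem mean_indB (hp : Prim σ) {b : ℕ} {G : Subgroup (PU B)} {J : Finset (Subgroup (PU B))}
    (h : Sys σ b G J) {Y : Finset (Subgroup (PU B))} (hY : Y ⊆ J) :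
    𝔼 x, (indB σ Y x).re ≤ (1 / 2) ^ #Y := by
  have := (h.fin_sup hY).1
  refine le_trans ?_ (h.sig_sup hp hY)
  rw [← hp.mean_tw]
  refine expect_le_expect fun x _ => ?_
  unfold indB
  split_ifs with hx
  · rw [tw_of_cm (Cm.finsup hx), Unitary.coe_star_mul_self, tau_one]
  · exact tau_star_self_nonneg _

theorem out_b (hp : Prim σ) {b : ℕ} (hb : 1 ≤ b) {G : Subgroup (PU B)}
    {J : Finset (Subgroup (PU B))} (h : Sys σ b G J) {p : ℕ} (hm : 8 * p ≤ #J) :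
    Mj (fun x => (3 / 4) ^ p * (‖tau (σ x : B →L[ℂ] B)‖ - gp b ^ (#J / 16))) ((1 / 2) ^ p) := by
  classical
  have hne : (powersetCard p J).Nonempty := powersetCard_nonempty.2 (by omega)
  refine Mj.of_finset (powersetCard p J) hne (indB σ) (fun Y _ => tst_indB Y) (fun x => ?_) ?_
  · have hsum := card_filter_add_card_filter_not (s := J) fun T => Cm T (σ x : B →L[ℂ] B)
    by_cases hN : 7 * #J ≤ 8 * #(J.filter fun T => Cm T (σ x : B →L[ℂ] B))
    · have hpos : (0 : ℝ) < (#J).choose p := by exact_mod_cast Nat.choose_pos (by omega)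
      have h1 : ‖tau (σ x : B →L[ℂ] B)‖ ≤ 1 :=
        (norm_tau_le _).trans (CStarRing.norm_coe_unitary (σ x)).le
      have h2 : 0 ≤ gp b ^ (#J / 16) := pow_nonneg (gp_nonneg hb) _
      rw [expect_eq_sum_div_card, sum_indB, card_powersetCard, le_div_iff₀ hpos]
      refine le_trans ?_ (choose_ratio hm hN)
      have h3 : (0 : ℝ) ≤ (3 / 4) ^ p := by positivity
      exact mul_le_mul_of_nonneg_right (mul_le_of_le_one_right h3 (by linarith)) hpos.le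
    · have h1 := h.prod hp hb x (#J / 16) (J.filter fun T => ¬ Cm T (σ x : B →L[ℂ] B))
        (filter_subset _ _) (fun T hT => (mem_filter.1 hT).2) (by omega) 1
        fun T _ u _ => Commute.one_right _
      rw [mul_one, norm_one, mul_one] at h1
      exact le_trans (mul_nonpos_of_nonneg_of_nonpos (by positivity) (by linarith))
        (expect_nonneg fun Y _ => indB_nonneg Y x)
  · refine expect_le hne fun Y hY => ?_
    rw [← (mem_powersetCard.1 hY).2]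
    exact mean_indB hp h (mem_powersetCard.1 hY).1

theorem oc_tw {X : Subgroup (PU B)} [Finite X] (hf : ∀ a, Cm X a → ∃ z : ℂ, a = z • 1)
    (a : B →L[ℂ] B) : tw X a = tau a • 1 := by
  obtain ⟨z, hz⟩ := hf _ (tw_cm (X := X) a)
  have h := tau_tw (X := X) a
  rw [hz, map_smul, tau_one, smul_eq_mul, mul_one] at h
  rw [hz, h]

omit [CompleteSpace B] [Nontrivial B] in
theorem oc_tau_rk (x y : B) :
    tau (InnerProductSpace.rankOne ℂ x y : B →L[ℂ] B) =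
      (Module.finrank ℂ B : ℂ)⁻¹ * inner ℂ y x := by
  rw [← InnerProductSpace.trace_rankOne]
  rfl

/-- Averages of products of two matrix coefficients. -/
theorem oc_coef {X : Subgroup (PU B)} [Finite X] (hf : ∀ a, Cm X a → ∃ z : ℂ, a = z • 1)
    (x y u v : B) :
    avg X (fun g => inner ℂ u ((lf g : B →L[ℂ] B) x) *
      (starRingEnd ℂ) (inner ℂ v ((lf g : B →L[ℂ] B) y))) =
      (Module.finrank ℂ B : ℂ)⁻¹ * inner ℂ y x * inner ℂ u v := by
  let L : (B →L[ℂ] B) →ₗ[ℂ] ℂ :=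
    { toFun := fun a => inner ℂ u (a v)
      map_add' := fun a b => inner_add_right _ _ _
      map_smul' := fun c a => inner_smul_right _ _ _ }
  have hL : ∀ a, L a = inner ℂ u (a v) := fun _ => rfl
  have h := congrArg L (oc_tw hf (InnerProductSpace.rankOne ℂ x y))
  rw [tw, map_avg, map_smul, oc_tau_rk, hL 1, one_apply_eq_self, smul_eq_mul] at h
  rw [← h]
  refine avg_congr fun g _ => ?_
  rw [hL, mul_apply_eq_comp, mul_apply_eq_comp,
    InnerProductSpace.rankOne_apply, map_smul, inner_smul_right, ← inner_uu, inner_conj_symm,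
    mul_comm]

theorem oc_vec {X : Subgroup (PU B)} [Finite X] (hf : ∀ a, Cm X a → ∃ z : ℂ, a = z • 1) (w : B) :
    avr X (fun g => ‖inner ℂ w ((lf g : B →L[ℂ] B) w)‖ ^ 2) =
      (Module.finrank ℂ B : ℝ)⁻¹ * ‖w‖ ^ 4 := by
  have h := oc_coef hf w w w w
  simp only [Complex.mul_conj, Complex.normSq_eq_norm_sq] at h
  rw [avg_ofReal, inner_self_eq_norm_sq_to_K] at h
  have h2 : ((avr X fun g => ‖inner ℂ w ((lf g : B →L[ℂ] B) w)‖ ^ 2 : ℝ) : ℂ) =
      (((Module.finrank ℂ B : ℝ)⁻¹ * ‖w‖ ^ 4 : ℝ) : ℂ) := by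
    rw [h]
    push_cast
    change _ * ((‖w‖ : ℂ)) ^ 2 * ((‖w‖ : ℂ)) ^ 2 = _
    ring
  exact_mod_cast h2

theorem oc_avg_sum {P : Type*} [Group P] {X : Subgroup P} {ι : Type*} (s : Finset ι)
    (F : ι → P → ℂ) : avg X (fun g => ∑ i ∈ s, F i g) = ∑ i ∈ s, avg X (F i) := by
  simp only [avg]
  rw [sum_comm, smul_sum]

theorem oc_sig {X : Subgroup (PU B)} [Finite X] (hf : ∀ a, Cm X a → ∃ z : ℂ, a = z • 1) :
    sig X = ((Module.finrank ℂ B : ℝ)⁻¹) ^ 2 := by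
  have hn : (Module.finrank ℂ B : ℂ) ≠ 0 := Nat.cast_ne_zero.2 Module.finrank_pos.ne'
  let e := stdOrthonormalBasis ℂ B
  have h1 : ∀ g : PU B, ((‖tau (lf g : B →L[ℂ] B)‖ ^ 2 : ℝ) : ℂ) =
      ∑ i, ∑ j, ((Module.finrank ℂ B : ℂ)⁻¹) ^ 2 • (inner ℂ (e i) ((lf g : B →L[ℂ] B) (e i)) *
        (starRingEnd ℂ) (inner ℂ (e j) ((lf g : B →L[ℂ] B) (e j)))) := by
    intro g
    rw [← Complex.normSq_eq_norm_sq, ← Complex.mul_conj, tau_eq_sum e, map_mul, map_sum, map_inv₀,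
      map_natCast, mul_mul_mul_comm, sum_mul_sum, mul_sum]
    refine sum_congr rfl fun i _ => ?_
    rw [mul_sum]
    refine sum_congr rfl fun j _ => ?_
    rw [smul_eq_mul, sq]
  have h2 : ∀ i j, avg X (fun g => ((Module.finrank ℂ B : ℂ)⁻¹) ^ 2 •
      (inner ℂ (e i) ((lf g : B →L[ℂ] B) (e i)) *
        (starRingEnd ℂ) (inner ℂ (e j) ((lf g : B →L[ℂ] B) (e j))))) =
      if i = j then ((Module.finrank ℂ B : ℂ)⁻¹) ^ 3 else 0 := by
    intro i j
    have h := map_avg (X := X) (((Module.finrank ℂ B : ℂ)⁻¹) ^ 2 • (LinearMap.id : ℂ →ₗ[ℂ] ℂ))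
      (fun g => inner ℂ (e i) ((lf g : B →L[ℂ] B) (e i)) *
        (starRingEnd ℂ) (inner ℂ (e j) ((lf g : B →L[ℂ] B) (e j))))
    simp only [LinearMap.smul_apply, LinearMap.id_apply] at h
    rw [← h, oc_coef hf, e.inner_eq_ite, e.inner_eq_ite]
    by_cases hij : i = j
    · rw [if_pos hij, if_pos hij.symm, if_pos hij, smul_eq_mul]
      ring
    · rw [if_neg hij, if_neg hij, mul_zero, smul_zero]
  have h3 : ((sig X : ℝ) : ℂ) = ((((Module.finrank ℂ B : ℝ)⁻¹) ^ 2 : ℝ) : ℂ) := by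
    rw [sig, ← avg_ofReal]
    simp only [h1]
    rw [oc_avg_sum]
    simp only [oc_avg_sum, h2, sum_ite_eq, mem_univ, if_true, sum_const, card_univ,
      Fintype.card_fin, nsmul_eq_mul]
    push_cast
    field_simp
  exact_mod_cast h3

omit [FiniteDimensional ℂ B] in
theorem oc_norm (u : UU B) : ‖(u : B →L[ℂ] B)‖ = 1 := CStarRing.norm_coe_unitary u

omit [FiniteDimensional ℂ B] in
theorem oc_uniq (u : UU B) {y z : ℂ} (h : y • (u : B →L[ℂ] B) = z • (u : B →L[ℂ] B)) : y = z := by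
  have h0 : (u : B →L[ℂ] B) ≠ 0 := fun h => by
    have := oc_norm u
    rw [h, norm_zero] at this
    exact zero_ne_one this
  exact smul_left_injective ℂ h0 h

omit [FiniteDimensional ℂ B] [Fintype H] in
/-- The stabiliser of a projective class and its character. -/
theorem oc_stab {X : Subgroup (PU B)} [Finite X] (hn : Nm σ X) {g : PU B} (hg : g ∈ X) :
    ∃ (K : Subgroup H) (l : K →* ℂ), K.index ≤ Nat.card X ∧ (∀ k, ‖l k‖ = 1) ∧
      ∀ k : K, (σ k : B →L[ℂ] B) * (lf g : B →L[ℂ] B) * star (σ k : B →L[ℂ] B) =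
        l k • (lf g : B →L[ℂ] B) := by
  let K : Subgroup H := (Subgroup.centralizer {g}).comap (pr.comp σ)
  have hK : ∀ h, h ∈ K ↔ pr (σ h) * g * (pr (σ h))⁻¹ = g := fun h => by
    rw [Subgroup.mem_comap, Subgroup.mem_centralizer_singleton_iff, mul_inv_eq_iff_eq_mul]
    rfl
  have hz : ∀ k : K, ∃ z : ℂ, ‖z‖ = 1 ∧
      (σ k : B →L[ℂ] B) * (lf g : B →L[ℂ] B) * star (σ k : B →L[ℂ] B) =
        z • (lf g : B →L[ℂ] B) := fun k => by
    have h : pr (σ k * lf g * (σ k)⁻¹) = pr (lf g) := by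
      rw [map_mul, map_mul, map_inv, pr_lf, (hK k).1 k.2]
    obtain ⟨z, h1, h2⟩ := pr_eq_iff.1 h
    refine ⟨z, h1, ?_⟩
    rw [← h2, ← Unitary.star_eq_inv, Submonoid.coe_mul, Submonoid.coe_mul, Unitary.coe_star]
  choose l l1 l2 using hz
  have one : l 1 = 1 := oc_uniq (lf g) (by
    rw [← l2, OneMemClass.coe_one, map_one, OneMemClass.coe_one, star_one, one_mul, mul_one,
      one_smul])
  have mul : ∀ k k', l (k * k') = l k * l k' := fun k k' => oc_uniq (lf g) (by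
    rw [← l2, Subgroup.coe_mul, map_mul, Submonoid.coe_mul, star_mul, mul_comm (l k), mul_smul,
      ← l2 k, ← smul_mul_assoc, ← mul_smul_comm, ← l2 k']
    simp only [mul_assoc])
  refine ⟨K, ⟨⟨l, one⟩, mul⟩, ?_, l1, l2⟩
  let f : H ⧸ K → X := fun q => ⟨pr (σ q.out) * g * (pr (σ q.out))⁻¹, hn _ g hg⟩
  refine Nat.card_le_card_of_injective f fun q q' h => ?_
  have h1 : pr (σ q.out) * g * (pr (σ q.out))⁻¹ = pr (σ q'.out) * g * (pr (σ q'.out))⁻¹ :=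
    congrArg Subtype.val h
  rw [← q.out_eq, ← q'.out_eq]
  refine QuotientGroup.eq.2 ((hK _).2 ?_)
  rw [map_mul, map_mul, map_inv, map_inv]
  calc (pr (σ q.out))⁻¹ * pr (σ q'.out) * g * ((pr (σ q.out))⁻¹ * pr (σ q'.out))⁻¹
      = (pr (σ q.out))⁻¹ * (pr (σ q'.out) * g * (pr (σ q'.out))⁻¹) * pr (σ q.out) := by group
    _ = g := by rw [← h1]; group

theorem oc_ineq (a b : ℂ) : ‖a‖ ^ 2 ≤ 3 / 2 * ‖b‖ ^ 2 + 3 * ‖a - b‖ ^ 2 := by
  have h : ‖a‖ ≤ ‖b‖ + ‖a - b‖ := by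
    have := norm_add_le b (a - b)
    rwa [add_sub_cancel] at this
  have h1 := mul_self_le_mul_self (norm_nonneg a) h
  nlinarith [sq_nonneg (‖b‖ - 2 * ‖a - b‖)]

theorem oc_detect (h2 : 2 ≤ Module.finrank ℂ B) {X : Subgroup (PU B)} [Finite X]
    (hf : ∀ a, Cm X a → ∃ z : ℂ, a = z • 1) {Z : ℕ} (hZ : Nat.card X ≤ Z) (w : B) :
    ∃ g ∈ X, ‖w‖ ^ 4 ≤ 12 * Z *
      ‖inner ℂ w (((lf g : B →L[ℂ] B) - tau (lf g : B →L[ℂ] B) • 1) w)‖ ^ 2 := by
  obtain ⟨g, hg, hm⟩ := exists_max_image (els X)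
    (fun g => ‖inner ℂ w (((lf g : B →L[ℂ] B) - tau (lf g : B →L[ℂ] B) • 1) w)‖ ^ 2)
    ⟨1, mem_els.2 X.one_mem⟩
  refine ⟨g, mem_els.1 hg, ?_⟩
  set M := ‖inner ℂ w (((lf g : B →L[ℂ] B) - tau (lf g : B →L[ℂ] B) • 1) w)‖ ^ 2 with hM
  have M0 : 0 ≤ M := sq_nonneg _
  have h1 : avr X (fun g => ‖inner ℂ w ((lf g : B →L[ℂ] B) w)‖ ^ 2) ≤
      avr X fun g => 3 / 2 * ‖w‖ ^ 4 * ‖tau (lf g : B →L[ℂ] B)‖ ^ 2 + 3 * M := by
    refine avr_le_avr fun x hx => ?_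
    have h := hm x (mem_els.2 hx)
    have h' := oc_ineq (inner ℂ w ((lf x : B →L[ℂ] B) w))
      (tau (lf x : B →L[ℂ] B) * inner ℂ w w)
    have e1 : inner ℂ w (((lf x : B →L[ℂ] B) - tau (lf x : B →L[ℂ] B) • 1) w) =
        inner ℂ w ((lf x : B →L[ℂ] B) w) - tau (lf x : B →L[ℂ] B) * inner ℂ w w := by
      rw [← inner_smul_right, ← inner_sub_right]
      rfl
    have e2 : ‖inner ℂ w w‖ = ‖w‖ ^ 2 := by
      rw [inner_self_eq_norm_sq_to_K, norm_pow, RCLike.norm_ofReal, abs_norm]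
    rw [← e1, norm_mul, e2] at h'
    have e3 : (‖tau (lf x : B →L[ℂ] B)‖ * ‖w‖ ^ 2) ^ 2 =
        ‖w‖ ^ 4 * ‖tau (lf x : B →L[ℂ] B)‖ ^ 2 := by ring
    rw [e3] at h'
    linarith
  have h3 : (avr X fun g => 3 / 2 * ‖w‖ ^ 4 * ‖tau (lf g : B →L[ℂ] B)‖ ^ 2 + 3 * M) =
      3 / 2 * ‖w‖ ^ 4 * sig X + 3 * M := by
    have h := avr_const (X := X) (3 * M)
    rw [avr] at h
    rw [avr, sum_add_distrib, mul_add, h, ← mul_sum, sig, avr]
    ring
  have h4 := sig_ge (X := X)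
  rw [h3, oc_vec hf, oc_sig hf] at h1
  rw [oc_sig hf] at h4
  set n : ℝ := (Module.finrank ℂ B : ℝ) with hn
  have n2 : (2 : ℝ) ≤ n := by rw [hn]; exact_mod_cast h2
  have n0 : 0 < n := by linarith
  have c0 : (0 : ℝ) < Nat.card X := Nat.cast_pos.2 Nat.card_pos
  have hZ' : (Nat.card X : ℝ) ≤ Z := Nat.cast_le.2 hZ
  have h5 : n ^ 2 ≤ Nat.card X := by
    rw [inv_pow] at h4
    exact (inv_le_inv₀ c0 (pow_pos n0 2)).1 h4
  have h6 : n ≤ Z := by nlinarith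
  have w0 : 0 ≤ ‖w‖ ^ 4 := by positivity
  have i0 : 0 < n⁻¹ := inv_pos.2 n0
  have i1 : n * n⁻¹ = 1 := mul_inv_cancel₀ n0.ne'
  have i2 : n⁻¹ ≤ 1 / 2 := by nlinarith
  have h7 : n⁻¹ * ‖w‖ ^ 4 ≤ 12 * M := by
    have := mul_le_mul_of_nonneg_left i2 (mul_nonneg i0.le w0)
    nlinarith
  calc ‖w‖ ^ 4 = n * (n⁻¹ * ‖w‖ ^ 4) := by rw [← mul_assoc, i1, one_mul]
    _ ≤ Z * (12 * M) := mul_le_mul h6 h7 (mul_nonneg i0.le w0) (Nat.cast_nonneg _)
    _ = 12 * Z * M := by ring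

theorem out_c (hp : Prim σ) (h2 : 2 ≤ Module.finrank ℂ B) {X : Subgroup (PU B)} [Finite X]
    (hn : Nm σ X) (hf : ∀ a, Cm X a → ∃ z : ℂ, a = z • 1) {Z : ℕ} (hZ : Nat.card X ≤ Z) :
    Fr σ Z := by
  classical
  refine ⟨(els X).image fun g => (lf g : B →L[ℂ] B) - tau (lf g : B →L[ℂ] B) • 1, ?_, ?_, ?_⟩
  · exact card_image_le.trans ((card_els X).le.trans hZ)
  · intro t ht
    obtain ⟨g, hg, rfl⟩ := mem_image.1 ht
    refine ⟨?_, ?_, ?_⟩
    · have h1 := norm_tau_le (lf g : B →L[ℂ] B)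
      have h3 := norm_sub_le (lf g : B →L[ℂ] B) (tau (lf g : B →L[ℂ] B) • 1)
      rw [norm_smul, norm_one, mul_one] at h3
      rw [oc_norm] at h1 h3
      linarith
    · rw [hp.sum_conj, map_sub, map_smul, tau_one, smul_eq_mul, mul_one, sub_self, mul_zero,
        zero_smul]
    · obtain ⟨K, l, h1, h3, h4⟩ := oc_stab hn (mem_els.1 hg)
      refine ⟨K, l, h1.trans hZ, h3, fun k => ?_⟩
      have h5 := tau_conj (σ k) (lf g : B →L[ℂ] B)
      rw [h4, map_smul, smul_eq_mul] at h5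
      rw [mul_sub, sub_mul, h4, mul_smul_comm, smul_mul_assoc, mul_one,
        Unitary.mul_star_self_of_mem (σ k).2, smul_sub, smul_smul, h5]
  · intro w
    obtain ⟨g, hg, h⟩ := oc_detect h2 hf hZ w
    exact ⟨_, mem_image_of_mem _ (mem_els.2 hg), h⟩

theorem out_all (hp : Prim σ) (h2 : 2 ≤ Module.finrank ℂ B) {b : ℕ} (hb : 1 ≤ b) (hs : Sec H b) :
    ∃ D m : ℕ, 0 < D ∧ Mj (fun x => ‖tau (σ x : B →L[ℂ] B)‖ ^ 2) (D : ℝ)⁻¹ ∧
      (∀ p, 8 * p ≤ m →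
        Mj (fun x => (3 / 4) ^ p * (‖tau (σ x : B →L[ℂ] B)‖ - gp b ^ (m / 16))) ((1 / 2) ^ p)) ∧
      Fr σ (D * b ^ m) := by
  obtain ⟨G, J, h, hf⟩ := sys_exists hp hs
  have := h.fin0
  have := h.fin_all.1
  exact ⟨Nat.card G, #J, Nat.card_pos, out_a hp (h.fac0 hp) h.com0 h.nm0,
    fun p hm => out_b hp hb h hm, out_c hp h2 h.nm_all hf h.fin_all.2⟩

end Pool.Agent.Lib.MP_cd2b7c_an.SV
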