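import Pool.Agent.Lib.MP_cd2b7c_an.SV.Small
import Pool.Agent.Lib.MP_cd2b7c_an.SV.Out

/-! The bound for one copy. -/

open Finset Pointwise
open scoped BigOperators

namespace Pool.Agent.Lib.MP_cd2b7c_an.SV

open NA

/-- The exponent. -/
def ex (b : ℕ) : ℕ := 22 * (2 + 65536 * b ^ 4) + 13

/-- The constant. -/
def kc (d : ℕ) : ℕ := 2 ^ 41 * (d + 1) ^ 3

variable {Q : Type*} [Group Q] [Fintype Q] {κ : Type*} [Fintype κ] {V : Type*}
  [NormedAddCommGroup V] [InnerProductSpace ℂ V] [FiniteDimensional ℂ V] {π : Q →* (V →L[ℂ] V)}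

theorem oc_time {b d n r : ℕ} (hr : kc d * 2 ^ (ex b * n) ≤ r) {R : ℕ} (hR : R ≤ 2 * 4 ^ n) :
    8 * (d + 1) * R ^ 5 ≤ r := by
  refine le_trans ?_ hr
  have h1 : R ^ 5 ≤ 32 * 2 ^ (10 * n) := by
    refine (Nat.pow_le_pow_left hR 5).trans (le_of_eq ?_)
    rw [mul_pow, ← pow_mul, show 4 = 2 ^ 2 by norm_num, ← pow_mul]
    congr 2
    ring
  have h2 : 2 ^ (10 * n) ≤ 2 ^ (ex b * n) :=
    Nat.pow_le_pow_right two_pos (Nat.mul_le_mul_right _ (by unfold ex; omega))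
  have h3 : d + 1 ≤ (d + 1) ^ 3 := Nat.le_self_pow three_ne_zero _
  calc 8 * (d + 1) * R ^ 5 ≤ 8 * (d + 1) ^ 3 * (32 * 2 ^ (ex b * n)) := by
        gcongr
        exact h1.trans (Nat.mul_le_mul_left _ h2)
    _ = 256 * ((d + 1) ^ 3 * 2 ^ (ex b * n)) := by ring
    _ ≤ 2 ^ 41 * ((d + 1) ^ 3 * 2 ^ (ex b * n)) := Nat.mul_le_mul_right _ (by norm_num)
    _ = _ := by rw [kc, mul_assoc]

theorem oc_size {b n I D m : ℕ} (hb : 1 ≤ b) (h1 : I * D ≤ 4 ^ n) (h2 : m ≤ 65536 * b ^ 3 * n) :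
    I * (D * b ^ m) ≤ 2 ^ ((2 + 65536 * b ^ 4) * n) := by
  have h3 : b ^ m ≤ 2 ^ (65536 * b ^ 4 * n) :=
    calc b ^ m ≤ b ^ (65536 * b ^ 3 * n) := Nat.pow_le_pow_right hb h2
      _ ≤ (2 ^ b) ^ (65536 * b ^ 3 * n) := Nat.pow_le_pow_left Nat.lt_two_pow_self.le _
      _ = _ := by rw [← pow_mul]; congr 1; ring
  rw [← mul_assoc, add_mul, pow_add, pow_mul 2 2 n]
  exact Nat.mul_le_mul h1 h3

theorem oc_small {b d n r : ℕ} (hr : kc d * 2 ^ (ex b * n) ≤ r) {Z : ℕ}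
    (hZ : Z = 2 ^ ((2 + 65536 * b ^ 4) * n)) :
    (1536 * (d + 1) * Z ^ 2 * ((8 * (d + 1) * (8 * Z ^ 2 * 2 ^ n) ^ 5 : ℕ) : ℝ) ^ 2 : ℝ) ≤
      (4 / 2 ^ n) ^ 3 * r := by
  have h1 : 2 ^ (ex b * n) = Z ^ 22 * (2 ^ n) ^ 13 := by
    rw [hZ, ← pow_mul, ← pow_mul, ← pow_add, ex]
    congr 1
    ring
  rw [h1, kc] at hr
  have h2 : (2 ^ 41 * (d + 1) ^ 3 * (Z ^ 22 * (2 ^ n) ^ 13) : ℝ) ≤ r := by exact_mod_cast hr
  have y0 : (0 : ℝ) < 2 ^ n := by positivity
  refine le_trans ?_ (mul_le_mul_of_nonneg_left h2 (by positivity))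
  push_cast
  set y : ℝ := 2 ^ n
  have e1 : (4 / y) ^ 3 * (2 ^ 41 * ((d : ℝ) + 1) ^ 3 * (Z ^ 22 * y ^ 13)) =
      2 ^ 47 * ((d + 1) ^ 3 * Z ^ 22 * y ^ 10) := by
    field_simp
    ring
  have e2 : (1536 * ((d : ℝ) + 1) * Z ^ 2 * (8 * (d + 1) * (8 * Z ^ 2 * y) ^ 5) ^ 2) =
      1536 * 64 * 8 ^ 10 * ((d + 1) ^ 3 * Z ^ 22 * y ^ 10) := by ring
  rw [e1, e2]
  exact mul_le_mul_of_nonneg_right (by norm_num) (by positivity)

theorem oc_block (iso : ∀ x u v, inner ℂ (π x u) (π x v) = inner ℂ u v) {b : ℕ} (hb : 1 ≤ b)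
    (hQ : Sec Q b) {c : κ → Q} (hc : Subgroup.closure (Set.range c) = ⊤) {n r : ℕ}
    (hr : kc (Fintype.card κ) * 2 ^ (ex b * n) ≤ r) {B : Submodule ℂ V} (B0 : B ≠ ⊥)
    (Bz : B ≤ zr π) {H : Subgroup Q} {σ : H →* UU B}
    (hσ : ∀ (h : H) (v : B), (((σ h : B →L[ℂ] B) v : B) : V) = π h v)
    (ho : ∀ x ∉ H, ∀ v ∈ B, ∀ w ∈ B, inner ℂ w (π x v) = 0) (hp : Prim σ) :
    𝔼 i, 𝔼 a, ‖(av π (lt fun o : Option κ => o.elim a c) ^ r)
      (stdOrthonormalBasis ℂ B i : V)‖ ^ 2 ≤ 8 / 2 ^ n := by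
  classical
  have : Nontrivial B := Submodule.nontrivial_iff_ne_bot.2 B0
  have d0 : 0 < Module.finrank ℂ B := Module.finrank_pos
  have : Nonempty (Fin (Module.finrank ℂ B)) := ⟨⟨0, d0⟩⟩
  set e := stdOrthonormalBasis ℂ B
  have e1 : ∀ i, ‖(e i : V)‖ = 1 := fun i => e.orthonormal.1 i
  have y0 : (0 : ℝ) < 2 ^ n := by positivity
  have y4 : (4 : ℝ) ^ n = 2 ^ n * 2 ^ n := by rw [← mul_pow]; norm_num
  have p24 : 2 ^ n ≤ 4 ^ n := Nat.pow_le_pow_left (by norm_num) n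
  by_cases h2 : Module.finrank ℂ B = 1
  · refine expect_le univ_nonempty fun i _ => ?_
    have := base_e iso (e1 i) (mem_zr.1 (Bz (e i).2)) (U := ⊤) (I := 1) (by simp)
      (fun x _ => ?_) hc (R := 2 ^ n) (t := r) (by positivity)
      (by rw [one_pow, mul_one]; exact oc_time hr (by omega))
    · exact_mod_cast this
    · by_cases hx : x ∈ H
      · obtain ⟨z, hz⟩ := exists_smul_eq_of_finrank_eq_one h2 (e.orthonormal.ne_zero i)
          ((σ ⟨x, hx⟩ : B →L[ℂ] B) (e i))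
        exact .inl ⟨z, (hσ ⟨x, hx⟩ (e i)).symm.trans (by rw [← hz]; rfl)⟩
      · exact .inr (inner_eq_zero_symm.1 (ho x hx _ (e i).2 _ (e i).2))
  obtain ⟨D, m, D0, ha, hb', hF⟩ := out_all hp (by omega) hb (hQ.sub H)
  have I0 : 0 < H.index := Nat.pos_of_ne_zero Subgroup.FiniteIndex.index_ne_zero
  have I1 : (1 : ℝ) ≤ H.index := by exact_mod_cast I0
  let F : Q → ℝ := fun x => 𝔼 i, (inner ℂ (e i : V) (π x (e i))).re
  have F1 : ∀ x : H, F x = (tau (σ x : B →L[ℂ] B)).re := fun x => by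
    rw [tau_eq_sum e, ← Complex.ofReal_natCast, ← Complex.ofReal_inv, Complex.re_ofReal_mul,
      Complex.re_sum]
    simp only [F]
    rw [Fintype.expect_eq_sum_div_card, Fintype.card_fin, div_eq_inv_mul]
    refine congrArg _ (sum_congr rfl fun i _ => ?_)
    rw [← hσ, Submodule.coe_inner]
  have F2 : ∀ x ∉ H, F x = 0 := fun x hx => by
    simp only [F]
    rw [expect_congr rfl fun i _ => by rw [ho x hx _ (e i).2 _ (e i).2, Complex.zero_re]]
    exact expect_const univ_nonempty _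
  have key : 𝔼 i, 𝔼 a, ‖(av π (lt fun o : Option κ => o.elim a c) ^ r) (e i : V)‖ ^ 2 =
      𝔼 a, ms (fun o : Option κ => o.elim a c) r F := by
    rw [expect_comm]
    refine expect_congr rfl fun a _ => ?_
    simp only [norm_sq_ms iso]
    exact (ms_expect _ _ _ _).symm
  have aff : ∀ (α β : ℝ) (f : Q → ℝ), (∀ x, F x ≤ α + β * f x) →
      𝔼 a, ms (fun o : Option κ => o.elim a c) r F ≤
        α + β * 𝔼 a, ms (fun o : Option κ => o.elim a c) r f := fun α β f h => by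
    rw [mul_expect, ← expect_const (univ_nonempty (α := Q)) α, ← expect_add_distrib]
    exact expect_le_expect fun a _ => (ms_mono _ _ h).trans (ms_affine _ _ _ _ _).le
  by_cases c1 : 4 ^ n ≤ H.index * D
  · have h1 := fool_mj ha (F := fun x => F x ^ 2) (fun x => ?_) (fun x hx => ?_) hc
      (R := 4 ^ n) (t := r) (by positivity) (oc_time hr (by omega))
    · rw [key]
      refine (aff (1 / (2 * 2 ^ n)) (2 ^ n / 2) (fun x => F x ^ 2) fun x => ?_).trans ?_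
      · have : 1 / (2 * 2 ^ n) + 2 ^ n / 2 * F x ^ 2 - F x =
            (2 ^ n * F x - 1) ^ 2 / (2 * 2 ^ n) := by
          field_simp
          ring
        have h3 : 0 ≤ (2 ^ n * F x - 1) ^ 2 / (2 * 2 ^ n) := by positivity
        linarith
      · have h3 : (D : ℝ)⁻¹ / H.index ≤ 1 / 4 ^ n := by
          rw [div_eq_mul_inv, ← mul_inv, one_div]
          refine inv_anti₀ (by positivity) ?_
          rw [mul_comm]
          exact_mod_cast c1
        have h4 : (1 / (2 * 2 ^ n) + 2 ^ n / 2 * (1 / 4 ^ n + 8 / 4 ^ n) : ℝ) = 5 / 2 ^ n := by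
          rw [y4]
          field_simp
          norm_num
        have h5 : (5 : ℝ) / 2 ^ n ≤ 8 / 2 ^ n := by gcongr; norm_num
        push_cast at h1
        have h6 := mul_le_mul_of_nonneg_left (h1.trans (add_le_add h3 le_rfl))
          (by positivity : (0 : ℝ) ≤ 2 ^ n / 2)
        linarith
    · rw [F1, ← sq_abs]
      exact pow_le_pow_left₀ (abs_nonneg _) (Complex.abs_re_le_norm _) 2
    · simp only [F2 x hx]
      norm_num
  by_cases c2 : 65536 * b ^ 3 * n ≤ m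
  · have b3 : n ≤ b ^ 3 * n := Nat.le_mul_of_pos_left _ (by positivity)
    rw [mul_assoc] at c2
    have g0 : 0 ≤ gp b ^ (m / 16) := pow_nonneg (gp_nonneg hb) _
    have g1 : gp b ^ (m / 16) ≤ 1 / 2 ^ n := gp_pow hb (by rw [mul_assoc]; omega)
    have h1 := fool_mj (hb' (2 * n) (by omega))
      (F := fun x => (3 / 4) ^ (2 * n) * (F x - gp b ^ (m / 16))) (fun x => ?_) (fun x hx => ?_) hc
      (R := 2 * 4 ^ n) (t := r) (by positivity) (oc_time hr le_rfl)
    · rw [key]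
      refine (aff (gp b ^ (m / 16)) ((4 / 3) ^ (2 * n))
        (fun x => (3 / 4) ^ (2 * n) * (F x - gp b ^ (m / 16))) fun x => le_of_eq ?_).trans ?_
      · rw [← mul_assoc, ← mul_pow]
        norm_num
      · have h3 : ((1 : ℝ) / 2) ^ (2 * n) / H.index ≤ 1 / 4 ^ n := by
          refine (div_le_self (by positivity) I1).trans (le_of_eq ?_)
          rw [pow_mul, ← one_div_pow]
          norm_num
        have h4 : ((4 : ℝ) / 3) ^ (2 * n) ≤ 2 ^ n := by
          rw [pow_mul]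
          exact pow_le_pow_left₀ (by positivity) (by norm_num) n
        have h5 : (2 ^ n * (1 / 4 ^ n + 8 / (2 * 4 ^ n)) : ℝ) = 5 * (1 / 2 ^ n) := by
          rw [y4]
          field_simp
          norm_num
        push_cast at h1
        have h6 := (mul_le_mul_of_nonneg_left (h1.trans (add_le_add h3 le_rfl))
          (by positivity : (0 : ℝ) ≤ (4 / 3) ^ (2 * n))).trans
          (mul_le_mul_of_nonneg_right h4 (by positivity))
        have h7 : (8 : ℝ) / 2 ^ n = 8 * (1 / 2 ^ n) := by ring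
        have h8 : (0 : ℝ) ≤ 1 / 2 ^ n := by positivity
        linarith
    · rw [F1]
      exact mul_le_mul_of_nonneg_left (sub_le_sub_right (Complex.re_le_norm _) _) (by positivity)
    · simp only [F2 x hx]
      exact mul_nonpos_of_nonneg_of_nonpos (by positivity) (by linarith)
  refine expect_le univ_nonempty fun i _ => ?_
  have hZ := oc_size (I := H.index) (D := D) (m := m) (n := n) hb (by omega) (by omega)
  set Z := 2 ^ ((2 + 65536 * b ^ 4) * n) with hZ'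
  have Z0 : (0 : ℝ) < Z := by positivity
  refine (small iso hσ hF hZ hc (R := 8 * Z ^ 2 * 2 ^ n) (by positivity) le_rfl
    (ε := 4 / 2 ^ n) (by positivity) (oc_small hr hZ') (e i).2 (e1 i)).trans (le_of_eq ?_)
  push_cast
  field_simp
  norm_num

theorem one_copy (iso : ∀ x u v, inner ℂ (π x u) (π x v) = inner ℂ u v) {b : ℕ} (hb : 1 ≤ b)
    (hQ : Sec Q b) {c : κ → Q} (hc : Subgroup.closure (Set.range c) = ⊤) {n r : ℕ}
    (hr : kc (Fintype.card κ) * 2 ^ (ex b * n) ≤ r) {v : V} (hv : v ∈ zr π) :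
    𝔼 z : Q × Q, ‖(av π (lt (gn c z)) ^ r) v‖ ^ 2 ≤ 8 / 2 ^ n * ‖v‖ ^ 2 := by
  have nr := nr_of_iso iso
  refine top nr (fun z => av π (lt (gn c z)) ^ r) (fun x v => ?_) zr_inv (fun M M1 M0 hM l hl => ?_) hv
  · refine (Fintype.expect_equiv ((MulAut.conj x).toEquiv.prodCongr (Equiv.mulLeft x)) _ _
      fun z => ?_).symm
    rw [← norm_walk_conj nr _ x, ← gn_conj]
    rfl
  · obtain ⟨B, H, σ, BM, B0, hσ, ho, hp⟩ := block iso M M0 hM
    have : Nontrivial B := Submodule.nontrivial_iff_ne_bot.2 B0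
    have : Nonempty (Fin (Module.finrank ℂ B)) := ⟨⟨0, Module.finrank_pos⟩⟩
    have h1 : ∀ i, l = 𝔼 g : Q, 𝔼 a : Q, ‖(av π (lt (gn c (a, g))) ^ r)
        (stdOrthonormalBasis ℂ B i : V)‖ ^ 2 := fun i => by
      have h1 := hl _ (BM (stdOrthonormalBasis ℂ B i).2)
      have e1 : ‖(stdOrthonormalBasis ℂ B i : V)‖ = 1 := (stdOrthonormalBasis ℂ B).orthonormal.1 i
      rw [e1, one_pow, mul_one, ← univ_product_univ, expect_product, expect_comm] at h1
      exact h1.symm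
    rw [← expect_const (univ_nonempty (α := Fin (Module.finrank ℂ B))) l,
      expect_congr rfl fun i _ => h1 i, expect_comm]
    refine expect_le univ_nonempty fun g _ => ?_
    refine oc_block iso hb hQ (c := fun i => g * c i * g⁻¹) ?_ hr B0 (BM.trans M1) hσ ho hp
    have h2 := congrArg (Subgroup.map (MulAut.conj g).toMonoidHom) hc
    rw [MonoidHom.map_closure, ← Set.range_comp,
      Subgroup.map_top_of_surjective _ (MulAut.conj g).surjective] at h2
    exact h2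

end Pool.Agent.Lib.MP_cd2b7c_an.SV
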