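import Pool.Agent.Lib.MP_cd2b7c_an.SV.Boost
import Pool.Agent.Lib.MP_cd2b7c_an.SV.One

/-! The mean square bound for functions on a finite quotient. -/

open Finset MeasureTheory
open scoped ENNReal BigOperators

namespace Pool.Agent.Lib.MP_cd2b7c_an.SV

open NA

/-- The time constant. -/
def tn (d k : ℕ) : ℕ := 2 ^ k * (8 * (k * (d + 1)) * (k * kc d) ^ 2)

theorem tn_eq (d k n A K : ℕ) : 2 ^ k * (8 * (k * (d + 1)) * (k * (K * 2 ^ (A * n))) ^ 2 * 2 ^ n) =
    2 ^ k * (8 * (k * (d + 1)) * (k * K) ^ 2) * (2 ^ (2 * A + 1)) ^ n := by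
  ring

theorem fin_step' {Q : Type*} [Group Q] [Fintype Q] {b : ℕ} (hb : 1 ≤ b) (hQ : Sec Q b)
    {κ : Type*} [Fintype κ] {c : κ → Q} (hc : Subgroup.closure (Set.range c) = ⊤) {k n t : ℕ}
    (k0 : 0 < k) (ht : tn (Fintype.card κ) k * (2 ^ (2 * ex b + 1)) ^ n ≤ t) (F : Q → ℂ) :
    (Fintype.card ((Fin k → Q × Q) × Q) : ℝ)⁻¹ * ∑ z : (Fin k → Q × Q) × Q,
      ‖∑ w : Fin t → (Fin k × Option κ) × Bool × Bool,
        (((Fintype.card (Fin t → (Fin k × Option κ) × Bool × Bool) : ℝ)⁻¹ : ℝ) : ℂ) *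
          F ((wd (lt (gk c z.1)) t w)⁻¹ * z.2) - (Fintype.card Q : ℂ)⁻¹ * ∑ x, F x‖ ^ 2 ≤
      5 * (8 / (2 ^ n : ℕ)) ^ k * ((Fintype.card Q : ℝ)⁻¹ * ∑ x, ‖F x‖ ^ 2) := by
  classical
  have : Nonempty (Fin k) := ⟨⟨0, k0⟩⟩
  set m : ℂ := (Fintype.card Q : ℂ)⁻¹ * ∑ x, F x with hm
  let v : EuclideanSpace ℂ Q := WithLp.toLp 2 fun y => F y - m
  have hv : ∑ x, reg Q x v = 0 := by
    ext y
    rw [WithLp.ofLp_sum, Finset.sum_apply]
    exact (Fintype.sum_equiv ((Equiv.inv Q).trans (Equiv.mulRight y)) _ (fun y => F y - m)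
      fun x => rfl).trans (sum_sub_mean F)
  have h1 := fin_decay' reg_iso (R := 2 ^ n) (r := kc (Fintype.card κ) * 2 ^ (ex b * n))
    (fun v hv => by rw [Nat.cast_pow, Nat.cast_ofNat]; exact one_copy reg_iso hb hQ hc le_rfl hv) k0 (by positivity)
    (le_trans (le_of_eq (tn_eq _ _ _ _ _)) ht) hv
  have h2 : ‖v‖ ^ 2 ≤ ∑ x, ‖F x‖ ^ 2 := by
    let e : EuclideanSpace ℂ Q := WithLp.toLp 2 fun _ => m
    have h3 : inner ℂ e v = 0 := by
      rw [PiLp.inner_apply]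
      show ∑ y, inner ℂ m (F y - m) = 0
      rw [← inner_sum, sum_sub_mean, inner_zero_right]
    have h4 := norm_add_sq_eq_norm_sq_add_norm_sq_of_inner_eq_zero (𝕜 := ℂ) e v h3
    have h5 : ‖e + v‖ ^ 2 = ∑ x, ‖F x‖ ^ 2 := by
      rw [EuclideanSpace.norm_sq_eq]
      exact sum_congr rfl fun x _ => by
        rw [show (e + v) x = F x from add_sub_cancel m (F x)]
    nlinarith [mul_self_nonneg ‖e‖]
  have h6 : ∀ ω : Fin k → Q × Q, ∑ y : Q, ‖∑ w : Fin t → (Fin k × Option κ) × Bool × Bool,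
      (((Fintype.card (Fin t → (Fin k × Option κ) × Bool × Bool) : ℝ)⁻¹ : ℝ) : ℂ) *
        F ((wd (lt (gk c ω)) t w)⁻¹ * y) - m‖ ^ 2 =
      ‖(av (reg Q) (lt (gk c ω)) ^ t) v‖ ^ 2 := fun ω => by
    rw [EuclideanSpace.norm_sq_eq, av_pow, av_apply]
    refine sum_congr rfl fun y _ => ?_
    have c0 : (Fintype.card (Fin t → (Fin k × Option κ) × Bool × Bool) : ℂ) ≠ 0 := by
      exact_mod_cast Fintype.card_ne_zero
    rw [PiLp.smul_apply, WithLp.ofLp_sum, Finset.sum_apply, smul_eq_mul]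
    show _ = ‖_ * ∑ w, (F ((wd (lt (gk c ω)) t w)⁻¹ * y) - m)‖ ^ 2
    rw [sum_sub_distrib, sum_const, card_univ, nsmul_eq_mul, mul_sub, inv_mul_cancel_left₀ c0,
      mul_sum, Complex.ofReal_inv, Complex.ofReal_natCast]
  rw [Fintype.sum_prod_type]
  simp only [h6]
  rw [Fintype.expect_eq_sum_div_card] at h1
  rw [Fintype.card_prod, Nat.cast_mul, mul_inv, mul_right_comm, inv_mul_eq_div, mul_comm _⁻¹ (∑ x, _),
    ← mul_assoc]
  refine mul_le_mul_of_nonneg_right (h1.trans ?_) (by positivity)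
  exact mul_le_mul_of_nonneg_left h2 (by positivity)

variable {G : Type*} [Group G] [TopologicalSpace G] [IsTopologicalGroup G] [CompactSpace G]
  [SecondCountableTopology G] [MeasurableSpace G] [BorelSpace G] (μ : Measure G)
  [IsProbabilityMeasure μ] [μ.IsMulLeftInvariant]

theorem step' {N : Subgroup G} [N.Normal] (hN : IsOpen (N : Set G)) {b : ℕ} (hb : 1 ≤ b)
    (hU : Sec (G ⧸ N) b) {κ : Type} [Fintype κ] {c : κ → G}
    (hc : Dense (Subgroup.closure (Set.range c) : Set G)) {k n t : ℕ} (k0 : 0 < k)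
    (ht : tn (Fintype.card κ) k * (2 ^ (2 * ex b + 1)) ^ n ≤ t) (F : G ⧸ N → ℂ) :
    ∫⁻ z, ‖Tw μ c k t (fun x => F x) z‖ₑ ^ 2 ∂((Measure.pi fun _ : Fin k => μ.prod μ).prod μ) ≤
      ENNReal.ofReal (5 * (8 / (2 ^ n : ℕ)) ^ k) * ∫⁻ x, ‖F (x : G)‖ₑ ^ 2 ∂μ := by
  have : DiscreteTopology (G ⧸ N) := QuotientGroup.discreteTopology hN
  have : Finite (G ⧸ N) := N.quotient_finite_of_isOpen hN
  let _ : Fintype (G ⧸ N) := Fintype.ofFinite _
  let _ : MeasurableSpace (G ⧸ N) := ⊤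
  have hs := QuotientGroup.mk'_surjective N
  have hk : Continuous (QuotientGroup.mk' N) := QuotientGroup.continuous_mk
  have hm : Measurable (QuotientGroup.mk' N) := fun s _ =>
    ((isOpen_discrete s).preimage hk).measurableSet
  let φ : (Fin k → G × G) × G →* (Fin k → (G ⧸ N) × (G ⧸ N)) × (G ⧸ N) :=
    (((QuotientGroup.mk' N).prodMap (QuotientGroup.mk' N)).compLeft (Fin k)).prodMap
      (QuotientGroup.mk' N)
  have φs : Function.Surjective φ := (hs.prodMap hs).comp_left.prodMap hs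
  have φm : Measurable φ :=
    (measurable_pi_lambda _ fun i => (hm.prodMap hm).comp (measurable_pi_apply i)).prodMap hm
  have hc' : Subgroup.closure (Set.range (QuotientGroup.mk' N ∘ c)) = ⊤ := by
    rw [Set.range_comp, ← MonoidHom.map_closure, ← Subgroup.coe_eq_univ, Subgroup.coe_map]
    exact (isClosed_discrete _).closure_eq.symm.trans
      (hs.denseRange.dense_image hk hc).closure_eq
  have h1 := fin_step' hb hU hc' k0 ht F
  have h2 := unif_lint μ hs hm F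
  have h3 := unif_int μ hs hm F
  have : (μ.prod μ).IsMulLeftInvariant := inferInstance
  have : MeasurableMul (G × G) := inferInstance
  have : (Measure.pi fun _ : Fin k => μ.prod μ).IsMulLeftInvariant := inferInstance
  have : MeasurableMul (Fin k → G × G) := inferInstance
  have : ((Measure.pi fun _ : Fin k => μ.prod μ).prod μ).IsMulLeftInvariant := inferInstance
  refine le_trans (le_of_eq ?_) ((ENNReal.ofReal_le_ofReal h1).trans (le_of_eq ?_))
  · rw [← unif_lint ((Measure.pi fun _ : Fin k => μ.prod μ).prod μ) φs φm]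
    refine lintegral_congr fun z => congrArg (fun a : ℂ => ‖a‖ₑ ^ 2) ?_
    rw [← h3]
    refine congrArg (· - _) (sum_congr rfl fun w _ => congrArg (_ * F ·) ?_)
    exact (map_mul (QuotientGroup.mk' N) _ _).trans (by rw [map_inv, map_wd]; rfl)
  · rw [ENNReal.ofReal_mul (by positivity), ← h2]
    rfl

end Pool.Agent.Lib.MP_cd2b7c_an.SV
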