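import Pool.Agent.Lib.MP_cd2b7c_an.SV.Fool
import Pool.Agent.Lib.MP_cd2b7c_an.SV.Blk

/-! The case of a small frame. -/

open Finset Pointwise
open scoped BigOperators

namespace Pool.Agent.Lib.MP_cd2b7c_an.SV

open NA

variable {Q : Type*} [Group Q] [Fintype Q] {κ : Type*} [Fintype κ]

open Classical in
/-- A character extended by zero. -/
noncomputable def ex0 (K : Subgroup Q) (l : K →* ℂ) (z : Q) : ℂ :=
  if h : z ∈ K then l ⟨z, h⟩ else 0

omit [Fintype Q] in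
theorem ex0_mem {K : Subgroup Q} (l : K →* ℂ) (k : K) : ex0 K l k = l k := by
  rw [ex0, dif_pos k.2]

omit [Fintype Q] in
theorem ex0_not {K : Subgroup Q} (l : K →* ℂ) {z : Q} (h : z ∉ K) : ex0 K l z = 0 := by
  rw [ex0, dif_neg h]

omit [Fintype Q] in
theorem ex0_mul {K : Subgroup Q} (l : K →* ℂ) (k : K) (z : Q) :
    ex0 K l (k * z) = l k * ex0 K l z := by
  by_cases h : z ∈ K
  · have h1 := ex0_mem l (k * ⟨z, h⟩)
    have h2 := ex0_mem l ⟨z, h⟩
    rw [map_mul] at h1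
    exact h1.trans (by rw [← h2])
  · rw [ex0_not l h, ex0_not l fun h' => h ((K.mul_mem_cancel_left k.2).1 h'), mul_zero]

theorem sum_sub_const {M : Type*} [AddCommMonoid M] (K : Subgroup Q) (F : Q → M) (m : M)
    (h1 : ∀ k : K, F k = m) (h2 : ∀ z ∉ K, F z = 0) : ∑ z, F z = Nat.card K • m := by
  classical
  have : ∀ z, F z = if z ∈ K then m else 0 := fun z => by
    split_ifs with h
    · exact h1 ⟨z, h⟩
    · exact h2 z h
  simp only [this]
  rw [← sum_filter, sum_const, Nat.card_eq_fintype_card, Fintype.card_subtype]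

/-- The normalised monomial vector. -/
noncomputable def ek (K : Subgroup Q) (l : K →* ℂ) : EuclideanSpace ℂ Q :=
  WithLp.toLp 2 fun z => ((√(Nat.card K : ℝ))⁻¹ : ℝ) * ex0 K l z

omit [Fintype Q] in
theorem ek_apply (K : Subgroup Q) (l : K →* ℂ) (z : Q) :
    ek K l z = ((√(Nat.card K : ℝ))⁻¹ : ℝ) * ex0 K l z := rfl

theorem norm_ek (K : Subgroup Q) {l : K →* ℂ} (hl : ∀ k, ‖l k‖ = 1) : ‖ek K l‖ = 1 := by
  have n0 : (0 : ℝ) < Nat.card K := by exact_mod_cast Nat.card_pos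
  have : ‖ek K l‖ ^ 2 = 1 := by
    rw [EuclideanSpace.norm_sq_eq, sum_sub_const K _ (Nat.card K : ℝ)⁻¹, nsmul_eq_mul,
      mul_inv_cancel₀ n0.ne']
    · intro k
      rw [ek_apply, ex0_mem, norm_mul, hl, mul_one, Complex.norm_real, Real.norm_eq_abs, sq_abs,
        inv_pow, Real.sq_sqrt n0.le]
    · intro z hz
      rw [ek_apply, ex0_not l hz, mul_zero, norm_zero, zero_pow two_ne_zero]
  exact (pow_eq_one_iff_of_nonneg (norm_nonneg _) two_ne_zero).1 this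

theorem ek_mono (K : Subgroup Q) (l : K →* ℂ) (x : Q) :
    (∃ z : ℂ, reg Q x (ek K l) = z • ek K l) ∨ inner ℂ (reg Q x (ek K l)) (ek K l) = 0 := by
  by_cases h : x ∈ K
  · refine .inl ⟨l ⟨x, h⟩⁻¹, ?_⟩
    ext z
    have := ex0_mul l ⟨x, h⟩⁻¹ z
    rw [reg_apply, PiLp.smul_apply, ek_apply, ek_apply, smul_eq_mul, mul_left_comm, ← this]
    rfl
  · refine .inr ?_
    rw [PiLp.inner_apply]
    refine sum_eq_zero fun z _ => ?_
    by_cases hz : z ∈ K
    · have : x⁻¹ * z ∉ K := fun h' => h (K.inv_mem_iff.1 ((K.mul_mem_cancel_right hz).1 h'))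
      rw [reg_apply, ek_apply K l (x⁻¹ * z), ex0_not l this, mul_zero, inner_zero_left]
    · rw [ek_apply K l z, ex0_not l hz, mul_zero, inner_zero_right]

theorem ek_mono' (K : Subgroup Q) (l : K →* ℂ) (y x : Q) :
    (∃ z : ℂ, reg Q x (reg Q y (ek K l)) = z • reg Q y (ek K l)) ∨
      inner ℂ (reg Q x (reg Q y (ek K l))) (reg Q y (ek K l)) = 0 := by
  have e : reg Q x (reg Q y (ek K l)) = reg Q y (reg Q (y⁻¹ * x * y) (ek K l)) := by
    rw [← mul_apply_eq_comp, ← mul_apply_eq_comp, ← map_mul, ← map_mul, ← mul_assoc,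
      mul_inv_cancel_left]
  rw [e, reg_iso]
  refine (ek_mono K l _).imp (fun ⟨z, hz⟩ => ⟨z, ?_⟩) id
  rw [hz, map_smul]

theorem ek_expand (K : Subgroup Q) (l : K →* ℂ) {g : Q → ℂ}
    (hg : ∀ y (k : K), g (y * k) = g y * l k) :
    (WithLp.toLp 2 g : EuclideanSpace ℂ Q) =
      (((√(Nat.card K : ℝ))⁻¹ : ℝ) : ℂ) • ∑ y, g y • reg Q y (ek K l) := by
  have n0 : (0 : ℝ) < Nat.card K := by exact_mod_cast Nat.card_pos
  ext z
  have h1 : ∑ y, g y * ex0 K l (y⁻¹ * z) = Nat.card K • g z := by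
    rw [← sum_sub_const K (fun k => g (z * k⁻¹) * ex0 K l k) (g z)]
    · refine (Equiv.sum_comp ((Equiv.inv Q).trans (Equiv.mulLeft z))
        (fun y => g y * ex0 K l (y⁻¹ * z))).symm.trans (sum_congr rfl fun k _ => ?_)
      simp
    · intro k
      have := hg z k⁻¹
      rw [Subgroup.coe_inv] at this
      rw [this, ex0_mem, mul_assoc, ← map_mul, inv_mul_cancel, map_one, mul_one]
    · intro k hk
      rw [ex0_not l hk, mul_zero]
  have h2 : (((√(Nat.card K : ℝ))⁻¹ : ℝ) : ℂ) * (((√(Nat.card K : ℝ))⁻¹ : ℝ) : ℂ) *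
      (Nat.card K : ℂ) = 1 := by
    have : (√(Nat.card K : ℝ))⁻¹ * (√(Nat.card K : ℝ))⁻¹ * (Nat.card K : ℝ) = 1 := by
      rw [← mul_inv, Real.mul_self_sqrt n0.le, inv_mul_cancel₀ n0.ne']
    exact_mod_cast this
  rw [PiLp.smul_apply, WithLp.ofLp_sum, Finset.sum_apply]
  simp only [WithLp.ofLp_smul, Pi.smul_apply, smul_eq_mul, reg_apply, ek_apply]
  simp only [mul_left_comm (g _)]
  rw [← mul_sum, h1, nsmul_eq_mul, ← mul_assoc, ← mul_assoc, h2, one_mul]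

/-- Almost invariant equivariant functions of mean zero are rare. -/
theorem small_reg (K : Subgroup Q) (l : K →* ℂ) (hl : ∀ k, ‖l k‖ = 1) {Z : ℕ} (hZ : K.index ≤ Z)
    {c : κ → Q} (hc : Subgroup.closure (Set.range c) = ⊤) {R t : ℕ} (R0 : 0 < R)
    (ht : 8 * (Fintype.card κ + 1) * R ^ 5 ≤ t) :
    ∃ Ψ : Q → ℝ, (∀ a, 0 ≤ Ψ a) ∧ 𝔼 a, Ψ a ≤ 8 / R ∧ ∀ (a : Q) (g : Q → ℂ) (η : ℝ),
      (∀ y (k : K), g (y * k) = g y * l k) → ∑ y, g y = 0 → g 1 ≠ 0 →
      (∀ (o : Option κ) y, ‖g ((o.elim a c : Q)⁻¹ * y) - g y‖ ≤ η) →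
      4 * Z * (t * η) ^ 2 ≤ ‖g 1‖ ^ 2 → 1 ≤ 4 * Z * Ψ a := by
  have nr := nr_of_iso (reg_iso (Q := Q))
  have n0 : (0 : ℝ) < Nat.card K := by exact_mod_cast Nat.card_pos
  have q0 : (0 : ℝ) < Fintype.card Q := by exact_mod_cast Fintype.card_pos
  have hq : (Fintype.card Q : ℝ) ≤ Z * Nat.card K := by
    have := K.index_mul_card
    rw [Nat.card_eq_fintype_card (α := Q)] at this
    exact_mod_cast this ▸ Nat.mul_le_mul_right _ hZ
  let d : Q → EuclideanSpace ℂ Q := fun y =>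
    reg Q y (ek K l) - (Fintype.card Q : ℂ)⁻¹ • ∑ x, reg Q x (reg Q y (ek K l))
  refine ⟨fun a => 𝔼 y, ‖(av (reg Q) (lt fun o : Option κ => o.elim a c) ^ t) (d y)‖ ^ 2,
    fun a => expect_nonneg fun _ _ => sq_nonneg _, ?_, fun a g η hg h0 h1 hη hs => ?_⟩
  · rw [expect_comm]
    exact expect_le univ_nonempty fun y _ =>
      base_c reg_iso ((nr _ _).trans (norm_ek K hl)) (ek_mono' K l y) hc R0 ht
  set W := av (reg Q) (lt fun o : Option κ => o.elim a c)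
  set G : EuclideanSpace ℂ Q := WithLp.toLp 2 g with hG
  have η0 : 0 ≤ η := (norm_nonneg _).trans (hη none 1)
  have hd : G = (((√(Nat.card K : ℝ))⁻¹ : ℝ) : ℂ) • ∑ y, g y • d y := by
    have : ∀ y, ∑ x, reg Q x (reg Q y (ek K l)) = ∑ x, reg Q x (ek K l) := fun y => by
      rw [← Equiv.sum_comp (Equiv.mulRight y) fun x => reg Q x (ek K l)]
      exact sum_congr rfl fun x _ => by rw [Equiv.coe_mulRight, map_mul, mul_apply_eq_comp]
    simp only [d, this, smul_sub, sum_sub_distrib]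
    rw [← sum_smul, h0, zero_smul, smul_zero, sub_zero]
    exact ek_expand K l hg
  have hN : ‖G‖ ^ 2 = ∑ y, ‖g y‖ ^ 2 := EuclideanSpace.norm_sq_eq _
  have hlow : Nat.card K * ‖g 1‖ ^ 2 ≤ ‖G‖ ^ 2 := by
    classical
    rw [hN, ← nsmul_eq_mul,
      ← sum_sub_const K (fun z => if z ∈ K then ‖g z‖ ^ 2 else 0) (‖g 1‖ ^ 2)]
    · refine sum_le_sum fun z _ => ?_
      split_ifs
      · exact le_rfl
      · exact sq_nonneg _
    · intro k
      have := hg 1 k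
      rw [one_mul] at this
      simp only [k.2, if_true]
      rw [this, norm_mul, hl, mul_one]
    · intro z hz
      simp only [hz, if_false]
  have hmv : ∀ o : Option κ, ‖reg Q (o.elim a c) G - G‖ ≤ √(Fintype.card Q) * η := fun o => by
    refine le_of_sq_le_sq ?_ (by positivity) |>.trans le_rfl
    rw [EuclideanSpace.norm_sq_eq, mul_pow, Real.sq_sqrt q0.le, ← card_univ, ← nsmul_eq_mul]
    exact sum_le_card_nsmul _ _ _ fun y _ => pow_le_pow_left₀ (norm_nonneg _) (hη o y) 2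
  have hW : ‖(W ^ t) G - G‖ ≤ t * (√(Fintype.card Q) * η) :=
    mv_pow (norm_av_le nr _) (norm_av_sub_le _ (mv_lt nr _ (by positivity) hmv)) t
  have h2 : 2 * (t * (√(Fintype.card Q) * η)) ≤ ‖G‖ := by
    refine le_of_sq_le_sq ?_ (norm_nonneg _) |>.trans le_rfl
    have : (2 * (t * (√(Fintype.card Q) * η))) ^ 2 = Fintype.card Q * (4 * (t * η) ^ 2) := by
      rw [show (2 * (t * (√(Fintype.card Q) * η))) ^ 2 =
        √(Fintype.card Q) ^ 2 * (4 * (t * η) ^ 2) by ring, Real.sq_sqrt q0.le]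
    rw [this]
    refine (mul_le_mul_of_nonneg_right hq (by positivity)).trans (le_trans ?_ hlow)
    rw [show (Z : ℝ) * Nat.card K * (4 * (t * η) ^ 2) = Nat.card K * (4 * Z * (t * η) ^ 2) by ring]
    exact mul_le_mul_of_nonneg_left hs n0.le
  have h3 : ‖G‖ ≤ 2 * ‖(W ^ t) G‖ := by
    have := norm_sub_norm_le G ((W ^ t) G)
    rw [norm_sub_rev] at this
    linarith
  have h4 : ‖(W ^ t) G‖ ≤ (√(Nat.card K : ℝ))⁻¹ * ∑ y, ‖g y‖ * ‖(W ^ t) (d y)‖ := by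
    rw [hd, map_smul, map_sum, norm_smul, Complex.norm_real, Real.norm_eq_abs,
      abs_of_nonneg (by positivity)]
    refine mul_le_mul_of_nonneg_left ((norm_sum_le _ _).trans (le_of_eq ?_)) (by positivity)
    exact sum_congr rfl fun y _ => by rw [map_smul, norm_smul]
  have h5 : ‖(W ^ t) G‖ ^ 2 ≤ (Nat.card K : ℝ)⁻¹ * (‖G‖ ^ 2 * ∑ y, ‖(W ^ t) (d y)‖ ^ 2) := by
    refine (pow_le_pow_left₀ (norm_nonneg _) h4 2).trans ?_
    rw [mul_pow, inv_pow, Real.sq_sqrt n0.le, hN]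
    exact mul_le_mul_of_nonneg_left (sum_mul_sq_le_sq_mul_sq _ _ _) (by positivity)
  have h6 : ∑ y, ‖(W ^ t) (d y)‖ ^ 2 = Fintype.card Q * 𝔼 y, ‖(W ^ t) (d y)‖ ^ 2 := by
    rw [Fintype.expect_eq_sum_div_card, mul_div_cancel₀ _ q0.ne']
  set ψ := 𝔼 y, ‖(W ^ t) (d y)‖ ^ 2
  have ψ0 : 0 ≤ ψ := expect_nonneg fun _ _ => sq_nonneg _
  have G0 : 0 < ‖G‖ ^ 2 := lt_of_lt_of_le (by positivity) hlow
  have h7 : (Nat.card K : ℝ)⁻¹ * (‖G‖ ^ 2 * (Fintype.card Q * ψ)) ≤ ‖G‖ ^ 2 * (Z * ψ) := by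
    rw [inv_mul_le_iff₀ n0]
    have := mul_le_mul_of_nonneg_right hq (mul_nonneg G0.le ψ0)
    linarith
  rw [h6] at h5
  have h8 : ‖G‖ ^ 2 ≤ 4 * ‖(W ^ t) G‖ ^ 2 := by
    have := pow_le_pow_left₀ (norm_nonneg _) h3 2
    linarith
  refine le_of_mul_le_mul_left ?_ G0
  linarith

variable {V : Type*} [NormedAddCommGroup V] [InnerProductSpace ℂ V] [FiniteDimensional ℂ V]
  {π : Q →* (V →L[ℂ] V)}

omit [Fintype Q] in
theorem proj_comm (iso : ∀ x u v, inner ℂ (π x u) (π x v) = inner ℂ u v) {B : Submodule ℂ V}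
    {H : Subgroup Q} {σ : H →* UU B}
    (hσ : ∀ (h : H) (v : B), (((σ h : B →L[ℂ] B) v : B) : V) = π h v) (h : H) (v : V) :
    B.orthogonalProjectionOnto (π (h : Q)⁻¹ v) =
      star (σ h : B →L[ℂ] B) (B.orthogonalProjectionOnto v) := by
  refine ext_inner_left ℂ fun z => ?_
  rw [ContinuousLinearMap.star_eq_adjoint, ContinuousLinearMap.adjoint_inner_right,
    Submodule.inner_orthogonalProjectionOnto_eq_of_mem_left,
    Submodule.inner_orthogonalProjectionOnto_eq_of_mem_left, hσ, ← inner_inv iso, inv_inv]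

theorem form_sub {B : Type*} [NormedAddCommGroup B] [InnerProductSpace ℂ B] {x : B →L[ℂ] B}
    (hx : ‖x‖ ≤ 2) {w w' : B} (h1 : ‖w‖ ≤ 1) (h2 : ‖w'‖ ≤ 1) {ρ : ℝ} (h : ‖w' - w‖ ≤ ρ) :
    ‖inner ℂ w' (x w') - inner ℂ w (x w)‖ ≤ 4 * ρ := by
  have e : inner ℂ w' (x w') - inner ℂ w (x w) =
      inner ℂ (w' - w) (x w') + inner ℂ w (x (w' - w)) := by
    rw [map_sub, inner_sub_left, inner_sub_right]
    ring
  have ρ0 : 0 ≤ ρ := (norm_nonneg _).trans h
  have a1 : ‖x w'‖ ≤ 2 * 1 := (x.le_opNorm _).trans (by gcongr)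
  have a2 : ‖x (w' - w)‖ ≤ 2 * ρ := (x.le_opNorm _).trans (by gcongr)
  have a3 : ‖inner ℂ (w' - w) (x w')‖ ≤ ρ * (2 * 1) := (norm_inner_le_norm _ _).trans (by gcongr)
  have a4 : ‖inner ℂ w (x (w' - w))‖ ≤ 1 * (2 * ρ) := (norm_inner_le_norm _ _).trans (by gcongr)
  rw [e]
  linarith [norm_add_le (inner ℂ (w' - w) (x w')) (inner ℂ w (x (w' - w)))]

theorem small_one (iso : ∀ x u v, inner ℂ (π x u) (π x v) = inner ℂ u v) {B : Submodule ℂ V}
    {H : Subgroup Q} [Fintype H] {σ : H →* UU B}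
    (hσ : ∀ (h : H) (v : B), (((σ h : B →L[ℂ] B) v : B) : V) = π h v) {Z : ℕ} {x : B →L[ℂ] B}
    (hx : ‖x‖ ≤ 2) (h0 : ∑ h, (σ h : B →L[ℂ] B) * x * star (σ h : B →L[ℂ] B) = 0)
    {K : Subgroup H} {l : K →* ℂ} (hK : K.index * H.index ≤ Z) (hl : ∀ k, ‖l k‖ = 1)
    (hk : ∀ k : K, (σ k : B →L[ℂ] B) * x * star (σ k : B →L[ℂ] B) = l k • x)
    {c : κ → Q} (hc : Subgroup.closure (Set.range c) = ⊤) {R t : ℕ}
    (R0 : 0 < R) (ht : 8 * (Fintype.card κ + 1) * R ^ 5 ≤ t) :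
    ∃ Ψ : Q → ℝ, (∀ a, 0 ≤ Ψ a) ∧ 𝔼 a, Ψ a ≤ 8 / R ∧ ∀ (a : Q) (u : V) (ρ : ℝ), ‖u‖ ≤ 1 →
      (∀ o : Option κ, ‖π (o.elim a c) u - u‖ ≤ ρ) →
      inner ℂ (B.orthogonalProjectionOnto u) (x (B.orthogonalProjectionOnto u)) ≠ 0 →
      4 * Z * (t * (4 * ρ)) ^ 2 ≤
        ‖inner ℂ (B.orthogonalProjectionOnto u) (x (B.orthogonalProjectionOnto u))‖ ^ 2 →
      1 ≤ 4 * Z * Ψ a := by
  have nr := nr_of_iso iso
  let E := K.equivMapOfInjective H.subtype H.subtype_injective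
  obtain ⟨Ψ, p0, p1, p2⟩ := small_reg (K.map H.subtype) (l.comp E.symm.toMonoidHom)
    (fun k => hl _) (Z := Z) (by rwa [Subgroup.index_map_subtype]) hc R0 ht
  refine ⟨Ψ, p0, p1, fun a u ρ hu hρ g0 g1 => ?_⟩
  set P := B.orthogonalProjectionOnto
  have hP : ∀ v, ‖P v‖ ≤ ‖v‖ := fun v =>
    (P.le_opNorm v).trans (mul_le_of_le_one_left (norm_nonneg _) B.orthogonalProjectionOnto_norm_le)
  have mv : ∀ (y : Q) (h : H), inner ℂ (P (π (y * h)⁻¹ u)) (x (P (π (y * h)⁻¹ u))) =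
      inner ℂ (P (π y⁻¹ u)) (((σ h : B →L[ℂ] B) * x * star (σ h : B →L[ℂ] B)) (P (π y⁻¹ u))) :=
    fun y h => by
      rw [mul_inv_rev, map_mul, mul_apply_eq_comp, proj_comm iso hσ, mul_apply_eq_comp,
        mul_apply_eq_comp]
      exact ContinuousLinearMap.adjoint_inner_left _ _ _
  refine p2 a (fun y => inner ℂ (P (π y⁻¹ u)) (x (P (π y⁻¹ u)))) (4 * ρ) (fun y k => ?_) ?_
    (by simpa using g0) (fun o y => ?_) (by simpa using g1)
  · obtain ⟨k, rfl⟩ := E.surjective k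
    have e1 : ((E k : K.map H.subtype) : Q) = ((k : H) : Q) := rfl
    have e2 : (l.comp E.symm.toMonoidHom) (E k) = l k := congrArg l (E.symm_apply_apply k)
    rw [e1, e2, mv, hk, smul_apply, inner_smul_right, mul_comm]
  · have c0 : (Fintype.card H : ℂ) ≠ 0 := by exact_mod_cast Fintype.card_ne_zero
    refine mul_left_cancel₀ c0 ?_
    have e : ∀ h : H, ∑ y, inner ℂ (P (π y⁻¹ u)) (x (P (π y⁻¹ u))) =
        ∑ y, inner ℂ (P (π (y * h)⁻¹ u)) (x (P (π (y * h)⁻¹ u))) := fun h =>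
      (Equiv.sum_comp (Equiv.mulRight (h : Q))
        fun y => inner ℂ (P (π y⁻¹ u)) (x (P (π y⁻¹ u)))).symm
    calc _ = ∑ h : H, ∑ y, inner ℂ (P (π (y * h)⁻¹ u)) (x (P (π (y * h)⁻¹ u))) := by
          simp only [← e, sum_const, card_univ, nsmul_eq_mul]
      _ = _ := by
          rw [sum_comm, mul_zero]
          refine sum_eq_zero fun y _ => ?_
          simp only [mv]
          rw [← inner_sum, ← _root_.sum_apply, h0, zero_apply,
            inner_zero_right]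
  · refine form_sub hx ((hP _).trans ((nr _ _).trans_le hu)) ((hP _).trans ((nr _ _).trans_le hu)) ?_
    rw [← map_sub, mul_inv_rev, inv_inv, map_mul, mul_apply_eq_comp, ← map_sub]
    exact (hP _).trans ((nr _ _).trans_le (hρ o))

theorem small (iso : ∀ x u v, inner ℂ (π x u) (π x v) = inner ℂ u v) {B : Submodule ℂ V}
    {H : Subgroup Q} [Fintype H] {σ : H →* UU B}
    (hσ : ∀ (h : H) (v : B), (((σ h : B →L[ℂ] B) v : B) : V) = π h v) {Z0 Z : ℕ} (hF : Fr σ Z0)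
    (hZ : H.index * Z0 ≤ Z) {c : κ → Q} (hc : Subgroup.closure (Set.range c) = ⊤) {R t r : ℕ}
    (R0 : 0 < R) (ht : 8 * (Fintype.card κ + 1) * R ^ 5 ≤ t) {ε : ℝ} (ε0 : 0 < ε)
    (hr : 1536 * (Fintype.card κ + 1) * Z ^ 2 * t ^ 2 ≤ ε ^ 3 * r) {e : V} (eB : e ∈ B)
    (he : ‖e‖ = 1) :
    𝔼 a, ‖(av π (lt fun o : Option κ => o.elim a c) ^ r) e‖ ^ 2 ≤ ε + 32 * Z ^ 2 / R := by
  classical
  have nr := nr_of_iso iso
  obtain ⟨S, hS, hT, hw⟩ := hF
  have Z1 : Z0 ≤ Z := le_trans (Nat.le_mul_of_pos_left _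
    (Nat.pos_of_ne_zero Subgroup.FiniteIndex.index_ne_zero)) hZ
  choose q1 q2 K l q3 q4 q5 using hT
  choose Ψ p0 p1 p2 using fun x : S => small_one iso hσ (Z := Z) (q1 x x.2) (q2 x x.2)
    (((Nat.mul_le_mul_right _ (q3 x x.2)).trans_eq (mul_comm _ _)).trans hZ) (q4 x x.2) (q5 x x.2)
    hc R0 ht
  have pt : ∀ a, ‖(av π (lt fun o : Option κ => o.elim a c) ^ r) e‖ ^ 2 ≤
      ε + 4 * Z * ∑ x, Ψ x a := fun a => by
    set W := av π (lt fun o : Option κ => o.elim a c)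
    set α := ‖(W ^ r) e‖ ^ 2 with hα
    have s0 : 0 ≤ ∑ x, Ψ x a := sum_nonneg fun x _ => p0 x a
    rcases le_or_gt α ε with ha | ha
    · exact ha.trans (le_add_of_nonneg_right (by positivity))
    have a0 : 0 < α := ε0.trans ha
    have n1 : ‖(W ^ r) e‖ ≤ 1 := by
      have := norm_av_pow_le nr (lt fun o : Option κ => o.elim a c) e (Nat.zero_le r)
      rwa [pow_zero, one_apply_eq_self, he] at this
    have a1 : α ≤ 1 := pow_le_one₀ (norm_nonneg _) n1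
    set u := (W ^ r) ((W ^ r) e) with hu
    have u1 : ‖u‖ ≤ 1 :=
      (norm_av_pow_le nr (lt fun o : Option κ => o.elim a c) ((W ^ r) e) (Nat.zero_le r)).trans n1
    have eu : inner ℂ e u = α := by
      rw [hu, ← walk_pow_symm iso, inner_self_eq_norm_sq_to_K]
      simp [hα, W]
    set w := B.orthogonalProjectionOnto u
    have w1 : α ≤ ‖w‖ := by
      have h1 : inner ℂ (⟨e, eB⟩ : B) w = α :=
        (Submodule.inner_orthogonalProjectionOnto_eq_of_mem_left _ _).trans eu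
      have h2 := norm_inner_le_norm (𝕜 := ℂ) (⟨e, eB⟩ : B) w
      rwa [h1, Complex.norm_real, Real.norm_of_nonneg a0.le, show ‖(⟨e, eB⟩ : B)‖ = 1 from he,
        one_mul] at h2
    obtain ⟨x, xS, hx⟩ := hw w
    have Z2 : (Z0 : ℝ) ≤ Z := by exact_mod_cast Z1
    have g1 : α ^ 4 ≤ 12 * Z * ‖inner ℂ w (x w)‖ ^ 2 :=
      ((pow_le_pow_left₀ a0.le w1 4).trans hx).trans (by gcongr)
    have g2 : 0 < 12 * (Z : ℝ) * ‖inner ℂ w (x w)‖ ^ 2 := (pow_pos a0 4).trans_le g1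
    have Z3 : (0 : ℝ) < Z := by
      rcases (Nat.cast_nonneg (α := ℝ) Z).eq_or_lt with h | h
      · rw [← h] at g2
        simp at g2
      · exact h
    have m0 : (0 : ℝ) < 2 * r + 1 := by positivity
    have h1 := p2 ⟨x, xS⟩ a u √(4 * (Fintype.card κ + 1) * α / (2 * r + 1)) u1 (fun o => by
        refine Real.le_sqrt_of_sq_le ?_
        rw [le_div_iff₀' m0]
        have h2 := energy_le iso (fun o : Option κ => o.elim a c) r ((W ^ r) e) o
        rwa [Fintype.card_option, Nat.cast_succ] at h2)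
      (fun h => by
        change inner ℂ w (x w) = 0 at h
        rw [h] at g2
        simp at g2) (by
        change _ ≤ ‖inner ℂ w (x w)‖ ^ 2
        refine le_of_mul_le_mul_left (le_trans ?_ g1) (by positivity : (0 : ℝ) < 12 * Z)
        rw [mul_pow, mul_pow, Real.sq_sqrt (by positivity)]
        have h2 : ε ^ 3 * r ≤ α ^ 3 * r := by gcongr
        have h3 : 12 * (Z : ℝ) * (4 * Z * (t ^ 2 * (4 ^ 2 *
            (4 * (Fintype.card κ + 1) * α / (2 * r + 1))))) =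
            2 * (1536 * (Fintype.card κ + 1) * Z ^ 2 * t ^ 2) * α / (2 * r + 1) := by ring
        rw [h3, div_le_iff₀ m0]
        nlinarith [mul_le_mul_of_nonneg_right (hr.trans h2) a0.le, pow_pos a0 4])
    have h2 : Ψ ⟨x, xS⟩ a ≤ ∑ x, Ψ x a := single_le_sum (fun x _ => p0 x a) (mem_univ _)
    nlinarith [mul_le_mul_of_nonneg_left h2 Z3.le]
  refine (expect_le_expect fun a _ => pt a).trans ?_
  rw [expect_add_distrib, expect_const univ_nonempty, ← mul_expect, expect_sum_comm]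
  have h1 := sum_le_sum fun x (_ : x ∈ univ) => p1 x
  rw [sum_const, card_univ, Fintype.card_coe, nsmul_eq_mul] at h1
  have h2 : (#S : ℝ) ≤ Z := by exact_mod_cast hS.trans Z1
  have h3 : (#S : ℝ) * (8 / R) ≤ Z * (8 / R) := by gcongr
  have h4 : 4 * (Z : ℝ) * (Z * (8 / R)) = 32 * Z ^ 2 / R := by ring
  have h5 := mul_le_mul_of_nonneg_left (h1.trans h3) (by positivity : (0 : ℝ) ≤ 4 * Z)
  linarith

end Pool.Agent.Lib.MP_cd2b7c_an.SV
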