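import Pool.Agent.Lib.MP_cd2b7c_an.SV.Tw
import Pool.Agent.Lib.MP_cd2b7c_an.SV.Grp

/-! Systems: finiteness, factors, and the Skolem-Noether step. -/

open Finset
open scoped BigOperators

namespace Pool.Agent.Lib.MP_cd2b7c_an.SV

variable {B : Type*} [NormedAddCommGroup B] [InnerProductSpace ℂ B] [CompleteSpace B]
  {H : Type*} [Group H] {σ : H →* UU B} {b : ℕ} {G : Subgroup (PU B)}
  {J : Finset (Subgroup (PU B))}

theorem Sys.cc_sup (h : Sys σ b G J) {Y : Finset (Subgroup (PU B))} (hY : Y ⊆ J)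
    {T : Subgroup (PU B)} (hT : T ∈ J) (hn : T ∉ Y) : CC T (Y.sup id) :=
  CC.symm fun u hu => Cm.finsup fun T' hT' =>
    h.cc T' (hY hT') T hT (fun e => hn (e ▸ hT')) u hu

theorem Sys.c0_sup (h : Sys σ b G J) : CC G (J.sup id) :=
  CC.symm fun u hu => Cm.finsup fun T hT => (h.c0 T hT).symm u hu

theorem Sys.fin_sup (h : Sys σ b G J) {Y : Finset (Subgroup (PU B))} (hY : Y ⊆ J) :
    Finite (Y.sup id : Subgroup (PU B)) ∧ Nat.card (Y.sup id : Subgroup (PU B)) ≤ b ^ #Y := by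
  classical
  induction Y using Finset.induction_on with
  | empty =>
    rw [sup_empty, card_empty, pow_zero, Subgroup.card_bot]
    exact ⟨inferInstance, le_rfl⟩
  | insert T Y hn ih =>
    have hT : T ∈ J := hY (mem_insert_self _ _)
    have hY' : Y ⊆ J := (subset_insert _ _).trans hY
    obtain ⟨i1, i2⟩ := ih hY'
    have := h.fin T hT
    obtain ⟨j1, j2⟩ := finite_sup (X := T) (Y := Y.sup id)
      fun x hx y hy => (h.cc_sup hY' hT hn).comm hx hy
    rw [sup_insert, card_insert_of_notMem hn, pow_succ']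
    exact ⟨j1, j2.trans (Nat.mul_le_mul (h.crd T hT) i2)⟩

theorem Sys.fin_all (h : Sys σ b G J) : Finite (G ⊔ J.sup id : Subgroup (PU B)) ∧
    Nat.card (G ⊔ J.sup id : Subgroup (PU B)) ≤ Nat.card G * b ^ #J := by
  obtain ⟨i1, i2⟩ := h.fin_sup (Subset.refl J)
  have := h.fin0
  obtain ⟨j1, j2⟩ := finite_sup (X := G) (Y := J.sup id) fun x hx y hy => h.c0_sup.comm hx hy
  exact ⟨j1, j2.trans (Nat.mul_le_mul le_rfl i2)⟩

theorem Sys.nm_all (h : Sys σ b G J) : Nm σ (G ⊔ J.sup id) := by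
  intro x
  have k : G ⊔ J.sup id ≤ (G ⊔ J.sup id).comap (MulAut.conj (pr (σ x))).toMonoidHom := by
    refine sup_le (fun g hg => ?_) (Finset.sup_le fun T hT g hg => ?_)
    · exact Subgroup.mem_sup_left (h.nm0 x g hg)
    · refine Subgroup.mem_sup_right
        ((Finset.le_sup (f := id) (h.nmJ x T hT) : cj (pr (σ x)) T ≤ J.sup id) ?_)
      exact ⟨g, hg, rfl⟩
  exact fun g hg => k hg

theorem Sys.fac_all (h : Sys σ b G J) (hp : Prim σ) : Fac (G ⊔ J.sup id) := by
  intro a ha hc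
  refine hp {a | a ∈ sp (G ⊔ J.sup id) ∧ Cm (G ⊔ J.sup id) a}
    (fun a ha => ⟨sp_star ha.1, ha.2.star⟩) (fun a ha c hc => hc.2.sp ha.1)
    (fun x a ha => ⟨sp_conj (h.nm_all x) ha.1, Cm.conj (fun g hg => ?_) ha.2⟩) a ⟨ha, hc⟩
  have k := h.nm_all x⁻¹ g hg
  rwa [map_inv, map_inv, inv_inv] at k

theorem Sys.fac0 (h : Sys σ b G J) (hp : Prim σ) : Fac G := by
  intro a ha hc
  exact h.fac_all hp a (sp_mono le_sup_left ha) (hc.sup (h.c0_sup.symm.sp ha))

theorem Sys.fac (h : Sys σ b G J) (hp : Prim σ) {T : Subgroup (PU B)} (hT : T ∈ J) : Fac T := by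
  intro a ha hc
  have k : T ≤ G ⊔ J.sup id := (Finset.le_sup (f := id) hT).trans le_sup_right
  refine h.fac_all hp a (sp_mono k ha) (((h.c0 T hT).sp ha).sup (Cm.finsup fun T' hT' => ?_))
  by_cases e : T' = T
  · rwa [e]
  · exact (h.cc T' hT' T hT e).sp ha

variable [FiniteDimensional ℂ B] [Nontrivial B]

theorem Sys.sig_sup (h : Sys σ b G J) (hp : Prim σ) {Y : Finset (Subgroup (PU B))} (hY : Y ⊆ J) :
    sig (Y.sup id) ≤ (1 / 2) ^ #Y := by
  classical
  induction Y using Finset.induction_on with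
  | empty =>
    rw [sup_empty, card_empty, pow_zero]
    exact sig_le_one
  | insert T Y hn ih =>
    have hT : T ∈ J := hY (mem_insert_self _ _)
    have hY' : Y ⊆ J := (subset_insert _ _).trans hY
    have := h.fin T hT
    have := (h.fin_sup hY').1
    have h0 : T ≠ ⊥ := by
      rintro rfl
      refine h.ncm _ hT fun x hx y hy => ?_
      rw [Subgroup.mem_bot.1 hx, Subgroup.mem_bot.1 hy]
    have p0 : 0 ≤ sig (Y.sup id) := le_trans (by positivity) sig_ge
    rw [sup_insert, card_insert_of_notMem hn, pow_succ', id,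
      (h.fac hp hT).sig_sup (h.cc_sup hY' hT hn)]
    exact mul_le_mul ((h.fac hp hT).sig_le h0) (ih hY') p0 (by norm_num)

omit [FiniteDimensional ℂ B] [Nontrivial B] in
theorem split_conj_mem {X : Subgroup (PU B)} {x : UU B}
    (hx : ∀ g ∈ X, (pr x)⁻¹ * g * pr x ∈ X) {g : PU B} (hg : g ∈ X) :
    star (x : B →L[ℂ] B) * (lf g : B →L[ℂ] B) * (x : B →L[ℂ] B) ∈ sp X := by
  have h1 : pr (x⁻¹ * lf g * x) ∈ X := by
    rw [map_mul, map_mul, map_inv, pr_lf]
    exact hx g hg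
  have h2 := sp_coe h1
  rwa [Submonoid.coe_mul, Submonoid.coe_mul, ← Unitary.star_eq_inv, Unitary.coe_star] at h2

omit [FiniteDimensional ℂ B] [Nontrivial B] in
theorem split_mul_tw {X : Subgroup (PU B)} [Finite X] (c a : B →L[ℂ] B) :
    c * SV.tw X a = avg X fun g => c * ((lf g : B →L[ℂ] B) * a * star (lf g : B →L[ℂ] B)) :=
  map_avg (LinearMap.mulLeft ℂ c) _

theorem split_ne {X : Subgroup (PU B)} [Finite X] (h : Fac X) {x : UU B}
    (hx : ∀ g ∈ X, (pr x)⁻¹ * g * pr x ∈ X) :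
    ∃ d ∈ X, SV.tw X ((x : B →L[ℂ] B) * star (lf d : B →L[ℂ] B)) ≠ 0 := by
  by_contra hc
  push Not at hc
  have e1 : avg X (fun d => tau ((lf d : B →L[ℂ] B) * star (x : B →L[ℂ] B) *
      SV.tw X ((x : B →L[ℂ] B) * star (lf d : B →L[ℂ] B)))) = 0 := by
    rw [avg_congr (F' := fun _ => (0 : ℂ)) fun d hd => by rw [hc d hd, mul_zero, map_zero]]
    exact avg_const 0
  have e2 : avg X (fun d => tau ((lf d : B →L[ℂ] B) * star (x : B →L[ℂ] B) *
      SV.tw X ((x : B →L[ℂ] B) * star (lf d : B →L[ℂ] B)))) =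
      avg X fun d => avg X fun g => tau ((lf d : B →L[ℂ] B) *
        (star (x : B →L[ℂ] B) * (lf g : B →L[ℂ] B) * (x : B →L[ℂ] B)) *
          star (lf d : B →L[ℂ] B) * star (lf g : B →L[ℂ] B)) := by
    refine avg_congr fun d _ => ?_
    rw [split_mul_tw, map_avg]
    refine avg_congr fun g _ => ?_
    simp only [mul_assoc]
  have e3 : (avg X fun g => avg X fun d => tau ((lf d : B →L[ℂ] B) *
        (star (x : B →L[ℂ] B) * (lf g : B →L[ℂ] B) * (x : B →L[ℂ] B)) *
          star (lf d : B →L[ℂ] B) * star (lf g : B →L[ℂ] B))) =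
      avg X fun g => ((‖tau (lf g : B →L[ℂ] B)‖ ^ 2 : ℝ) : ℂ) := by
    refine avg_congr fun g hg => ?_
    have e4 := map_avg (X := X) (tau ∘ₗ LinearMap.mulRight ℂ (star (lf g : B →L[ℂ] B)))
      fun d => (lf d : B →L[ℂ] B) *
        (star (x : B →L[ℂ] B) * (lf g : B →L[ℂ] B) * (x : B →L[ℂ] B)) * star (lf d : B →L[ℂ] B)
    simp only [LinearMap.comp_apply, LinearMap.mulRight_apply] at e4
    rw [← e4]
    have e5 := h.tw (split_conj_mem hx hg)
    rw [SV.tw] at e5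
    have e6 : tau (star (x : B →L[ℂ] B) * (lf g : B →L[ℂ] B) * (x : B →L[ℂ] B)) =
        tau (lf g : B →L[ℂ] B) := by
      rw [tau_mul_comm, ← mul_assoc, Unitary.mul_star_self_of_mem x.2, one_mul]
    rw [e5, smul_mul_assoc, one_mul, map_smul, tau_star, e6, smul_eq_mul, Complex.mul_conj,
      Complex.normSq_eq_norm_sq]
  rw [e2, avg_comm, e3, avg_ofReal] at e1
  have e7 : sig X = 0 := by exact_mod_cast e1
  have e8 := sig_ge (X := X)
  have e9 : (0 : ℝ) < Nat.card X := by exact_mod_cast Nat.card_pos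
  have := inv_pos.mpr e9
  linarith

/-- Skolem-Noether. -/
theorem Fac.split {X : Subgroup (PU B)} [Finite X] (h : Fac X) {x : UU B}
    (hx : ∀ g ∈ X, (pr x)⁻¹ * g * pr x ∈ X) :
    ∃ y : UU B, Cm X y ∧ star (y : B →L[ℂ] B) * (x : B →L[ℂ] B) ∈ sp X := by
  obtain ⟨d, hd, h0⟩ := split_ne h hx
  set y := SV.tw X ((x : B →L[ℂ] B) * star (lf d : B →L[ℂ] B)) with hy
  have yc : Cm X y := tw_cm _
  have ys : star (x : B →L[ℂ] B) * y ∈ sp X := by
    rw [hy, split_mul_tw]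
    refine avg_mem fun g hg => ?_
    have e : star (x : B →L[ℂ] B) * ((lf g : B →L[ℂ] B) *
        ((x : B →L[ℂ] B) * star (lf d : B →L[ℂ] B)) * star (lf g : B →L[ℂ] B)) =
        star (x : B →L[ℂ] B) * (lf g : B →L[ℂ] B) * (x : B →L[ℂ] B) * star (lf d : B →L[ℂ] B) *
          star (lf g : B →L[ℂ] B) := by simp only [mul_assoc]
    rw [e]
    exact sp_mul (sp_mul (split_conj_mem hx hg) (sp_star (sp_coe (by rwa [pr_lf]))))
      (sp_star (sp_coe (by rwa [pr_lf])))
  have ys' : star y * (x : B →L[ℂ] B) ∈ sp X := by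
    have := sp_star ys
    rwa [star_mul, star_star] at this
  have yy : star y * y ∈ sp X := by
    have := sp_mul ys' ys
    rwa [mul_assoc, ← mul_assoc (x : B →L[ℂ] B), Unitary.mul_star_self_of_mem x.2,
      one_mul] at this
  obtain ⟨z, hz⟩ := h _ yy (yc.star.mul yc)
  have tz : tau (star y * y) = z := by rw [hz, map_smul, tau_one, smul_eq_mul, mul_one]
  have zr : 0 < z.re := by
    by_contra hn
    exact h0 (tau_faithful (by rw [tz]; exact not_lt.mp hn))
  have zi : z.im = 0 := by rw [← tz]; exact tau_star_self_im y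
  have hr : (0 : ℝ) < √z.re := Real.sqrt_pos.mpr zr
  set r : ℝ := (√z.re)⁻¹ with hr'
  have rz : (r : ℂ) * r * z = 1 := by
    have e : z = (z.re : ℂ) := by
      apply Complex.ext <;> simp [zi]
    have e' : r * r * z.re = 1 := by
      rw [hr', ← mul_inv, Real.mul_self_sqrt zr.le, inv_mul_cancel₀ zr.ne']
    rw [e]
    exact_mod_cast e'
  have sr : star ((r : ℂ) • y) = (r : ℂ) • star y := by
    rw [star_smul, Complex.star_def, Complex.conj_ofReal]
  have u1 : star ((r : ℂ) • y) * ((r : ℂ) • y) = 1 := by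
    rw [sr, smul_mul_smul_comm, hz, smul_smul, rz, one_smul]
  have : IsArtinianRing (B →L[ℂ] B) := IsArtinianRing.of_finite ℂ _
  have u2 : ((r : ℂ) • y) * star ((r : ℂ) • y) = 1 := mul_eq_one_comm.mp u1
  refine ⟨⟨(r : ℂ) • y, u1, u2⟩, fun u hu => (yc u hu).smul_right _, ?_⟩
  change star ((r : ℂ) • y) * (x : B →L[ℂ] B) ∈ sp X
  rw [sr, smul_mul_assoc]
  exact Submodule.smul_mem _ _ ys'

omit [FiniteDimensional ℂ B] [Nontrivial B] in
theorem Fac.split_unique {X : Subgroup (PU B)} (h : Fac X) {x y y' : UU B} (h1 : Cm X y)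
    (h2 : star (y : B →L[ℂ] B) * (x : B →L[ℂ] B) ∈ sp X) (h3 : Cm X y')
    (h4 : star (y' : B →L[ℂ] B) * (x : B →L[ℂ] B) ∈ sp X) : pr y = pr y' := by
  have h5 := sp_mul h2 (sp_star h4)
  rw [star_mul, star_star, mul_assoc, ← mul_assoc (x : B →L[ℂ] B),
    Unitary.mul_star_self_of_mem x.2,
    one_mul] at h5
  obtain ⟨z, hz⟩ := h _ h5 (h1.star.mul h3)
  have h6 : pr (y⁻¹ * y') = 1 := pr_eq_one.mpr ⟨z, by
    rw [Submonoid.coe_mul, ← Unitary.star_eq_inv, Unitary.coe_star, hz]⟩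
  rwa [map_mul, map_inv, inv_mul_eq_one] at h6

/-- The action on the commutant. -/
theorem Fac.hom {X : Subgroup (PU B)} [Finite X] (h : Fac X) (hn : Nm σ X) :
    ∃ β : H →* PU B, (∀ x, ∀ y : UU B, pr y = β x →
        Cm X y ∧ star (y : B →L[ℂ] B) * (σ x : B →L[ℂ] B) ∈ sp X) ∧
      ∀ x, ∀ u : UU B, Cm X u → pr (σ x) * pr u * (pr (σ x))⁻¹ = β x * pr u * (β x)⁻¹ := by
  have key : ∀ x : H, ∃ y : UU B, Cm X y ∧ star (y : B →L[ℂ] B) * (σ x : B →L[ℂ] B) ∈ sp X :=
    fun x => h.split fun g hg => by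
      have := hn x⁻¹ g hg
      rwa [map_inv, map_inv, inv_inv] at this
  choose y yc ys using key
  have hm : ∀ x x' : H, pr (y (x * x')) = pr (y x) * pr (y x') := fun x x' => by
    rw [← map_mul]
    refine h.split_unique (yc _) (ys _) ((yc x).mul (yc x')) ?_
    have e1 := ((yc x').star.sp (ys x)).eq
    have e2 : star ((y x * y x' : UU B) : B →L[ℂ] B) * (σ (x * x') : B →L[ℂ] B) =
        star (y x : B →L[ℂ] B) * (σ x : B →L[ℂ] B) *
          (star (y x' : B →L[ℂ] B) * (σ x' : B →L[ℂ] B)) := by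
      rw [← mul_assoc, e1, map_mul, Submonoid.coe_mul, Submonoid.coe_mul, star_mul]
      simp only [mul_assoc]
    rw [e2]
    exact sp_mul (ys x) (ys x')
  refine ⟨MonoidHom.mk' (fun x => pr (y x)) hm, fun x v hv => ?_, fun x u hu => ?_⟩
  · obtain ⟨z, -, hz⟩ := pr_eq_iff.mp hv
    rw [hz, star_smul, smul_mul_assoc]
    exact ⟨fun u hu => (yc x u hu).smul_right _, Submodule.smul_mem _ _ (ys x)⟩
  · have e1 : (y x)⁻¹ * σ x * u = u * ((y x)⁻¹ * σ x) := by
      apply Subtype.ext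
      have := (hu.sp (ys x)).eq
      simpa only [Submonoid.coe_mul, ← Unitary.star_eq_inv, Unitary.coe_star] using this
    have e2 : σ x * u * (σ x)⁻¹ = y x * u * (y x)⁻¹ := by
      calc σ x * u * (σ x)⁻¹ = y x * ((y x)⁻¹ * σ x * u) * (σ x)⁻¹ := by group
        _ = y x * u * (y x)⁻¹ := by rw [e1]; group
    have e3 := congrArg pr e2
    simpa only [map_mul, map_inv, MonoidHom.mk'_apply] using e3

end Pool.Agent.Lib.MP_cd2b7c_an.SV
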