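import Pool.Agent.Lib.MP_cd2b7c_an.SV.SysA

/-! Existence of a full system. -/

open Finset
open scoped BigOperators

namespace Pool.Agent.Lib.MP_cd2b7c_an.SV

variable {B : Type*} [NormedAddCommGroup B] [InnerProductSpace ℂ B] [CompleteSpace B]
  {H : Type*} [Group H] {σ : H →* UU B} {b : ℕ} {G : Subgroup (PU B)}
  {J : Finset (Subgroup (PU B))}

/-- Lifts of a non-commutative simple subgroup commute with any lift of a centralising element. -/
theorem lift_comm {U P : Type*} [Group U] [Group P] (p : U →* P)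
    (hk : ∀ s, p s = 1 → ∀ t, s * t = t * s) (l : P → U) (hl : ∀ g, p (l g) = g)
    {T : Subgroup P} (hs : IsSimpleGroup T) (hn : ¬ ∀ x ∈ T, ∀ y ∈ T, x * y = y * x) {u : U}
    (hu : ∀ x ∈ T, x * p u = p u * x) {v : U} (hv : p v ∈ T) : v * u = u * v := by
  have ind : ∀ a a' : U, p a = p a' → a * u * a⁻¹ = a' * u * a'⁻¹ := by
    intro a a' h
    have h1 : p (a⁻¹ * a') = 1 := by rw [map_mul, map_inv, h, inv_mul_cancel]
    have h2 := hk _ h1 u
    calc a * u * a⁻¹ = a * (u * (a⁻¹ * a')) * a'⁻¹ := by group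
      _ = a * (a⁻¹ * a' * u) * a'⁻¹ := by rw [h2]
      _ = a' * u * a'⁻¹ := by group
  have cen : ∀ x ∈ T, p (l x * u * (l x)⁻¹ * u⁻¹) = 1 := by
    intro x hx
    rw [map_mul, map_mul, map_mul, map_inv, map_inv, hl, hu x hx]
    group
  let f : T →* U := MonoidHom.mk' (fun x => l x * u * (l x)⁻¹ * u⁻¹) (by
    intro x y
    have h1 : l ((x * y : T) : P) * u * (l ((x * y : T) : P))⁻¹ =
        (l x * l y) * u * (l x * l y)⁻¹ := by
      apply ind
      rw [hl, map_mul, hl, hl, Subgroup.coe_mul]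
    have h2 := hk _ (cen y y.2) (u * (l x)⁻¹ * u⁻¹)
    calc l ((x * y : T) : P) * u * (l ((x * y : T) : P))⁻¹ * u⁻¹
        = l x * ((l y * u * (l y)⁻¹ * u⁻¹) * (u * (l x)⁻¹ * u⁻¹)) := by rw [h1]; group
      _ = l x * ((u * (l x)⁻¹ * u⁻¹) * (l y * u * (l y)⁻¹ * u⁻¹)) := by rw [h2]
      _ = l x * u * (l x)⁻¹ * u⁻¹ * (l y * u * (l y)⁻¹ * u⁻¹) := by group)
  have h3 : f ⟨p v, hv⟩ = 1 := hom_triv hs hn f (fun x y => hk _ (cen x x.2) _) _
  have h4 : l (p v) * u * (l (p v))⁻¹ * u⁻¹ = 1 := h3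
  rw [ind (l (p v)) v (hl _)] at h4
  calc v * u = (v * u * v⁻¹ * u⁻¹) * (u * v) := by group
    _ = u * v := by rw [h4, one_mul]

/-- Commuting non-commutative simple subgroups have commuting lifts. -/
theorem cc_of_comm {T T' : Subgroup (PU B)} (hs : IsSimpleGroup T)
    (hn : ¬ ∀ x ∈ T, ∀ y ∈ T, x * y = y * x) (hc : ∀ x ∈ T, ∀ y ∈ T', x * y = y * x) :
    CC T T' := by
  intro u hu v hv
  have hk : ∀ s : UU B, pr s = 1 → ∀ t : UU B, s * t = t * s := by
    intro s hs1 t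
    obtain ⟨z, hz⟩ := pr_eq_one.1 hs1
    apply Subtype.ext
    rw [Submonoid.coe_mul, Submonoid.coe_mul, hz, smul_mul_assoc, mul_smul_comm, one_mul, mul_one]
  have h1 : v * u = u * v := lift_comm pr hk lf pr_lf hs hn (fun x hx => hc x hx _ hu) hv
  have h2 := congrArg Subtype.val h1
  rwa [Submonoid.coe_mul, Submonoid.coe_mul] at h2

/-- Enlarging the commutative part. -/
theorem Sys.add0 (h : Sys σ b G J) {N : Subgroup (PU B)} [Finite N]
    (h1 : ∀ x ∈ N, ∀ y ∈ N, x * y = y * x) (h2 : Nm σ N) (h3 : CC (G ⊔ J.sup id) N) :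
    Sys σ b (G ⊔ N) J := by
  have := h.fin0
  have hc : ∀ x ∈ G, ∀ y ∈ N, x * y = y * x := fun x hx y hy =>
    h3.comm (Subgroup.mem_sup_left hx) hy
  refine ⟨(finite_sup hc).1, ?_, ?_, h.smp, h.ncm, h.fin, h.crd, ?_, h.cc, h.nmJ⟩
  · intro x hx y hy
    obtain ⟨g, hg, n, hn, rfl⟩ := mem_sup_comm hc hx
    obtain ⟨g', hg', n', hn', rfl⟩ := mem_sup_comm hc hy
    have c1 : Commute g g' := h.com0 g hg g' hg'
    have c2 : Commute g n' := hc g hg n' hn'
    have c3 : Commute g' n := hc g' hg' n hn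
    have c4 : Commute n n' := h1 n hn n' hn'
    exact ((c1.mul_right c2).mul_left (c3.symm.mul_right c4)).eq
  · intro k x hx
    obtain ⟨g, hg, n, hn, rfl⟩ := mem_sup_comm hc hx
    have e : pr (σ k) * (g * n) * (pr (σ k))⁻¹ =
        (pr (σ k) * g * (pr (σ k))⁻¹) * (pr (σ k) * n * (pr (σ k))⁻¹) := by group
    rw [e]
    exact Subgroup.mul_mem_sup (h.nm0 k g hg) (h2 k n hn)
  · intro T hT u hu
    have hle : T ≤ G ⊔ J.sup id := (Finset.le_sup (f := id) hT).trans le_sup_right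
    exact Cm.sup (h.c0 T hT u hu) (h3.symm u (hle hu))

/-- Adding a family of simple parts. -/
theorem Sys.addJ [DecidableEq (Subgroup (PU B))] (h : Sys σ b G J) {J' : Finset (Subgroup (PU B))}
    (h1 : ∀ T ∈ J', IsSimpleGroup T) (h2 : ∀ T ∈ J', ¬ ∀ x ∈ T, ∀ y ∈ T, x * y = y * x)
    (h3 : ∀ T ∈ J', Finite T) (h4 : ∀ T ∈ J', Nat.card T ≤ b)
    (h5 : ∀ T ∈ J', CC (G ⊔ J.sup id) T)
    (h6 : ∀ T ∈ J', ∀ T' ∈ J', T ≠ T' → ∀ x ∈ T, ∀ y ∈ T', x * y = y * x)
    (h7 : ∀ x, ∀ T ∈ J', cj (pr (σ x)) T ∈ J') : Sys σ b G (J ∪ J') := by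
  have mix : ∀ T ∈ J, ∀ T' ∈ J', CC T T' := fun T hT T' hT' u hu =>
    (h5 T' hT' u hu).mono ((Finset.le_sup (f := id) hT).trans le_sup_right)
  refine ⟨h.fin0, h.com0, h.nm0, ?_, ?_, ?_, ?_, ?_, ?_, ?_⟩
  · intro T hT
    exact (mem_union.1 hT).elim (h.smp T) (h1 T)
  · intro T hT
    exact (mem_union.1 hT).elim (h.ncm T) (h2 T)
  · intro T hT
    exact (mem_union.1 hT).elim (h.fin T) (h3 T)
  · intro T hT
    exact (mem_union.1 hT).elim (h.crd T) (h4 T)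
  · intro T hT
    rcases mem_union.1 hT with hT | hT
    · exact h.c0 T hT
    · exact fun u hu => (h5 T hT u hu).mono le_sup_left
  · intro T hT T' hT' hne
    rcases mem_union.1 hT with hT | hT
    · rcases mem_union.1 hT' with hT' | hT'
      · exact h.cc T hT T' hT' hne
      · exact mix T hT T' hT'
    · rcases mem_union.1 hT' with hT' | hT'
      · exact (mix T' hT' T hT).symm
      · exact cc_of_comm (h1 T hT) (h2 T hT) (h6 T hT T' hT' hne)
  · intro x T hT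
    rcases mem_union.1 hT with hT | hT
    · exact mem_union_left _ (h.nmJ x T hT)
    · exact mem_union_right _ (h7 x T hT)

/-- A new non-trivial element whose lifts commute with a factor enlarges the span. -/
theorem grow_lt {X Y L : Subgroup (PU B)} (hf : Fac X) (hL : CC X L) (hXY : X ≤ Y) {g : PU B}
    (hgY : g ∈ Y) (hgL : g ∈ L) (hg : g ≠ 1) : sp X < sp Y := by
  refine lt_of_le_of_ne (sp_mono hXY) fun he => hg ?_
  have h1 : (lf g : B →L[ℂ] B) ∈ sp Y := sp_coe (by rw [pr_lf]; exact hgY)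
  rw [← he] at h1
  have h2 := hf _ h1 (hL (lf g) (by rw [pr_lf]; exact hgL))
  rw [← pr_lf g]
  exact pr_eq_one.2 h2

theorem grow_cj_le {P : Type*} [Group P] {L T : Subgroup P} (hT : T ≤ L) {g : P} (hg : g ∈ L) :
    cj g T ≤ L := by
  intro x hx
  have h1 := L.mul_mem (L.mul_mem hg (hT (mem_cj.1 hx))) (L.inv_mem hg)
  have h2 : g * (g⁻¹ * x * g) * g⁻¹ = x := by group
  rwa [h2] at h1

theorem grow_cj_ncm {P : Type*} [Group P] {T : Subgroup P}
    (hn : ¬ ∀ x ∈ T, ∀ y ∈ T, x * y = y * x) (g : P) :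
    ¬ ∀ x ∈ cj g T, ∀ y ∈ cj g T, x * y = y * x := by
  intro hc
  refine hn fun x hx y hy => ?_
  have hm : ∀ z ∈ T, g * z * g⁻¹ ∈ cj g T := fun z hz => by
    rw [mem_cj]
    have h2 : g⁻¹ * (g * z * g⁻¹) * g = z := by group
    rwa [h2]
  have h1 := hc _ (hm x hx) _ (hm y hy)
  calc x * y = g⁻¹ * (g * x * g⁻¹ * (g * y * g⁻¹)) * g := by group
    _ = g⁻¹ * (g * y * g⁻¹ * (g * x * g⁻¹)) * g := by rw [h1]
    _ = y * x := by group

theorem grow_cj_comm {P : Type*} [Group P] {L T : Subgroup P}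
    (hc : ∀ g ∈ L, cj g T ≠ T → ∀ x ∈ T, ∀ y ∈ cj g T, x * y = y * x) {g g' : P} (hg : g ∈ L)
    (hg' : g' ∈ L) (hne : cj g T ≠ cj g' T) {x y : P} (hx : x ∈ cj g T) (hy : y ∈ cj g' T) :
    x * y = y * x := by
  have h1 : cj (g⁻¹ * g') T ≠ T := fun he => hne (by
    have h2 : g' = g * (g⁻¹ * g') := by group
    rw [h2, cj_mul, he])
  have h3 : g⁻¹ * y * g ∈ cj (g⁻¹ * g') T := by
    rw [mem_cj]
    have h4 : (g⁻¹ * g')⁻¹ * (g⁻¹ * y * g) * (g⁻¹ * g') = g'⁻¹ * y * g' := by group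
    rw [h4]
    exact mem_cj.1 hy
  have h5 := hc _ (L.mul_mem (L.inv_mem hg) hg') h1 _ (mem_cj.1 hx) _ h3
  calc x * y = g * (g⁻¹ * x * g * (g⁻¹ * y * g)) * g⁻¹ := by group
    _ = g * (g⁻¹ * y * g * (g⁻¹ * x * g)) * g⁻¹ := by rw [h5]
    _ = y * x := by group

theorem grow_cj_congr {P : Type*} [Group P] {T : Subgroup P} {g g' : P}
    (h : ∀ t ∈ T, g * t * g⁻¹ = g' * t * g'⁻¹) : cj g T = cj g' T := by
  ext x
  constructor
  · intro hx
    have h1 := h _ (mem_cj.1 hx)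
    have h2 : g'⁻¹ * x * g' = g⁻¹ * x * g := by
      calc g'⁻¹ * x * g' = g'⁻¹ * (g * (g⁻¹ * x * g) * g⁻¹) * g' := by group
        _ = g'⁻¹ * (g' * (g⁻¹ * x * g) * g'⁻¹) * g' := by rw [h1]
        _ = g⁻¹ * x * g := by group
    rw [mem_cj, h2]
    exact mem_cj.1 hx
  · intro hx
    have h1 := h _ (mem_cj.1 hx)
    have h2 : g⁻¹ * x * g = g'⁻¹ * x * g' := by
      calc g⁻¹ * x * g = g⁻¹ * (g' * (g'⁻¹ * x * g') * g'⁻¹) * g := by group
        _ = g⁻¹ * (g * (g'⁻¹ * x * g') * g⁻¹) * g := by rw [h1]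
        _ = g'⁻¹ * x * g' := by group
    rw [mem_cj, h2]
    exact mem_cj.1 hx

variable [FiniteDimensional ℂ B] [Nontrivial B] [Finite H]

/-- Either the system is full or it grows. -/
theorem Sys.grow (h : Sys σ b G J) (hp : Prim σ) (hs : Sec H b) :
    (∀ a, Cm (G ⊔ J.sup id) a → ∃ z : ℂ, a = z • 1) ∨
      ∃ G' J', Sys σ b G' J' ∧ sp (G ⊔ J.sup id) < sp (G' ⊔ J'.sup id) := by
  classical
  have : Finite (G ⊔ J.sup id : Subgroup (PU B)) := h.fin_all.1
  have := Fintype.ofFinite H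
  have hf := h.fac_all hp
  obtain ⟨β, hβ1, hβ2⟩ := hf.hom h.nm_all
  have hL : CC (G ⊔ J.sup id) β.range := by
    rintro u ⟨x, hx⟩
    exact (hβ1 x u hx.symm).1
  have hcj : ∀ x, ∀ g ∈ β.range, pr (σ x) * g * (pr (σ x))⁻¹ = β x * g * (β x)⁻¹ := by
    intro x g hg
    have h1 := hβ2 x (lf g) (hL (lf g) (by rw [pr_lf]; exact hg))
    rwa [pr_lf] at h1
  have hfin : Finite β.range := Finite.of_surjective _ β.rangeRestrict_surjective
  by_cases h0 : β.range = ⊥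
  · refine Or.inl fun a ha => hp.schur fun x => ha.sp ?_
    have h1 : β x = 1 := by
      have h2 : β x ∈ β.range := ⟨x, rfl⟩
      rwa [h0, Subgroup.mem_bot] at h2
    have h3 := (hβ1 x 1 (by rw [map_one, h1])).2
    rwa [OneMemClass.coe_one, star_one, one_mul] at h3
  refine Or.inr ?_
  rcases min_normal β.range h0 with ⟨N, hN, hN0, hNc, hNn⟩ | ⟨T, hT, hTs, hTn, hTc⟩
  · have : Finite N := Finite.of_injective _ (Subgroup.inclusion_injective hN)
    refine ⟨G ⊔ N, J, h.add0 hNc (fun x g hg => ?_) fun u hu => hL u (hN hu), ?_⟩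
    · rw [hcj x g (hN hg)]
      exact hNn _ ⟨x, rfl⟩ g hg
    · obtain ⟨⟨g, hg⟩, hg1⟩ := Subgroup.ne_bot_iff_exists_ne_one.1 hN0
      refine grow_lt hf hL (sup_le_sup_right le_sup_left _) (g := g) ?_ (hN hg) fun he => hg1 ?_
      · exact (le_sup_right.trans le_sup_left : N ≤ G ⊔ N ⊔ J.sup id) hg
      · exact Subtype.ext he
  · have hle : ∀ x, cj (β x) T ≤ β.range := fun x => grow_cj_le hT ⟨x, rfl⟩
    have hsm : ∀ x, IsSimpleGroup (cj (β x) T) := fun x => by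
      obtain ⟨e⟩ := cj_equiv (β x) T
      have := hTs
      exact e.symm.isSimpleGroup
    refine ⟨G, J ∪ univ.image fun x => cj (β x) T, h.addJ ?_ ?_ ?_ ?_ ?_ ?_ ?_, ?_⟩
    · intro T' hT'
      obtain ⟨x, -, rfl⟩ := mem_image.1 hT'
      exact hsm x
    · intro T' hT'
      obtain ⟨x, -, rfl⟩ := mem_image.1 hT'
      exact grow_cj_ncm hTn _
    · intro T' hT'
      obtain ⟨x, -, rfl⟩ := mem_image.1 hT'
      exact Finite.of_injective _ (Subgroup.inclusion_injective (hle x))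
    · intro T' hT'
      obtain ⟨x, -, rfl⟩ := mem_image.1 hT'
      exact hs.range β (hle x) (hsm x) (grow_cj_ncm hTn _)
    · intro T' hT'
      obtain ⟨x, -, rfl⟩ := mem_image.1 hT'
      exact fun u hu => hL u (hle x hu)
    · intro T1 hT1 T2 hT2 hne x hx y hy
      obtain ⟨x1, -, rfl⟩ := mem_image.1 hT1
      obtain ⟨x2, -, rfl⟩ := mem_image.1 hT2
      exact grow_cj_comm hTc ⟨x1, rfl⟩ ⟨x2, rfl⟩ hne hx hy
    · intro x T' hT'
      obtain ⟨y, -, rfl⟩ := mem_image.1 hT'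
      refine mem_image.2 ⟨x * y, mem_univ _, ?_⟩
      rw [map_mul, cj_mul]
      exact grow_cj_congr fun t ht => (hcj x t (hle y ht)).symm
    · have hex : ∃ g ∈ cj (β 1) T, g ≠ 1 := by
        by_contra hno
        refine grow_cj_ncm hTn (β 1) fun x hx y _ => ?_
        have hx1 : x = 1 := by
          by_contra hx1
          exact hno ⟨x, hx, hx1⟩
        rw [hx1, one_mul, mul_one]
      obtain ⟨g, hg, hg1⟩ := hex
      refine grow_lt hf hL (sup_le_sup_left (sup_mono subset_union_left) _) (g := g) ?_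
        (hle 1 hg) hg1
      have hm : cj (β 1) T ∈ J ∪ univ.image fun x => cj (β x) T :=
        mem_union_right _ (mem_image.2 ⟨1, mem_univ _, rfl⟩)
      exact ((le_sup (f := id) hm).trans le_sup_right :
        cj (β 1) T ≤ G ⊔ (J ∪ univ.image fun x => cj (β x) T).sup id) hg

theorem sys_exists (hp : Prim σ) (hs : Sec H b) :
    ∃ G J, Sys σ b G J ∧ ∀ a, Cm (G ⊔ J.sup id) a → ∃ z : ℂ, a = z • 1 := by
  have h0 : Sys σ b ⊥ ∅ := by
    refine ⟨inferInstance, ?_, ?_, by simp, by simp, by simp, by simp, by simp, by simp, by simp⟩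
    · intro x hx y hy
      rw [Subgroup.mem_bot.1 hx, one_mul, mul_one]
    · intro k g hg
      rw [Subgroup.mem_bot.1 hg, mul_one, mul_inv_cancel]
      exact Subgroup.one_mem _
  obtain ⟨M, ⟨G, J, hS, rfl⟩, hmax⟩ :=
    (wellFounded_gt (α := Submodule ℂ (B →L[ℂ] B))).has_min
      {M | ∃ G J, Sys σ b G J ∧ M = sp (G ⊔ J.sup id)} ⟨_, ⊥, ∅, h0, rfl⟩
  rcases hS.grow hp hs with h1 | ⟨G', J', hS', hlt⟩
  · exact ⟨G, J, hS, h1⟩
  · exact absurd hlt (hmax _ ⟨G', J', hS', rfl⟩)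

end Pool.Agent.Lib.MP_cd2b7c_an.SV
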