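import Pool.Agent.Lib.MP_cd2b7c_an.SV.Defs

/-! Normalised trace, lifts and twirls: basic facts. -/

open Finset
open scoped BigOperators

namespace Pool.Agent.Lib.MP_cd2b7c_an.SV

section grp

variable {P : Type*} [Group P] {E : Type*} [AddCommGroup E] [Module ℂ E] {X : Subgroup P} [Finite X]

theorem avg_congr {F F' : P → E} (h : ∀ g ∈ X, F g = F' g) : avg X F = avg X F' := by
  unfold avg
  rw [sum_congr rfl fun g hg => h g (mem_els.1 hg)]

theorem avg_const (a : E) : avg X (fun _ => a) = a := by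
  have h : (Nat.card X : ℂ) ≠ 0 := Nat.cast_ne_zero.2 Nat.card_pos.ne'
  rw [avg, sum_const, card_els, ← Nat.cast_smul_eq_nsmul ℂ, smul_smul, inv_mul_cancel₀ h, one_smul]

theorem avg_equiv {Y : Subgroup P} [Finite Y] (e : P ≃ P) (he : ∀ g, g ∈ X ↔ e g ∈ Y) (F : P → E) :
    avg X (fun g => F (e g)) = avg Y F := by
  have hc : Nat.card X = Nat.card Y := Nat.card_congr (e.subtypeEquiv he)
  rw [avg, avg, sum_els_equiv e he, hc]

theorem map_avg {E' : Type*} [AddCommGroup E'] [Module ℂ E'] (L : E →ₗ[ℂ] E') (F : P → E) :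
    L (avg X F) = avg X fun g => L (F g) := by
  rw [avg, avg, map_smul, map_sum]

theorem avg_mem {M : Submodule ℂ E} {F : P → E} (h : ∀ g ∈ X, F g ∈ M) : avg X F ∈ M := by
  exact M.smul_mem _ (M.sum_mem fun g hg => h g (mem_els.1 hg))

theorem avg_comm {Y : Subgroup P} [Finite Y] (F : P → P → E) :
    avg X (fun g => avg Y fun g' => F g g') = avg Y fun g' => avg X fun g => F g g' := by
  simp only [avg, ← smul_sum]
  rw [smul_comm, sum_comm]

theorem avg_ofReal (F : P → ℝ) : avg X (fun g => (F g : ℂ)) = (avr X F : ℝ) := by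
  rw [avg, avr, smul_eq_mul]
  push_cast
  rfl

theorem re_avg (F : P → ℂ) : (avg X F).re = avr X fun g => (F g).re := by
  rw [avg, avr, smul_eq_mul, ← Complex.re_sum, ← Complex.ofReal_natCast, ← Complex.ofReal_inv,
    Complex.re_ofReal_mul]

theorem avr_const (a : ℝ) : avr X (fun _ => a) = a := by
  have h : (Nat.card X : ℝ) ≠ 0 := Nat.cast_ne_zero.2 Nat.card_pos.ne'
  rw [avr, sum_const, card_els, nsmul_eq_mul, inv_mul_cancel_left₀ h]

theorem avr_le_avr {F F' : P → ℝ} (h : ∀ g ∈ X, F g ≤ F' g) : avr X F ≤ avr X F' := by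
  exact mul_le_mul_of_nonneg_left (sum_le_sum fun g hg => h g (mem_els.1 hg))
    (inv_nonneg.2 (Nat.cast_nonneg _))

theorem avr_eq_expect (F : P → ℝ) : avr X F = 𝔼 g ∈ els X, F g := by
  rw [avr, expect_eq_sum_div_card, card_els, div_eq_inv_mul]

theorem norm_avg_le' {N : Type*} [NormedAddCommGroup N] [NormedSpace ℂ N] (F : P → N) :
    ‖avg X F‖ ≤ avr X fun g => ‖F g‖ := by
  rw [avg, avr, norm_smul, norm_inv, Complex.norm_natCast]
  exact mul_le_mul_of_nonneg_left (norm_sum_le _ _) (inv_nonneg.2 (Nat.cast_nonneg _))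

end grp

variable {B : Type*} [NormedAddCommGroup B] [InnerProductSpace ℂ B] [CompleteSpace B]

theorem pr_lf (g : PU B) : pr (lf g) = g := by
  exact QuotientGroup.out_eq' g

theorem pr_eq_one {u : UU B} : pr u = 1 ↔ ∃ z : ℂ, (u : B →L[ℂ] B) = z • 1 := by
  exact QuotientGroup.eq_one_iff u

theorem pr_eq_iff [Nontrivial B] {u v : UU B} :
    pr u = pr v ↔ ∃ z : ℂ, ‖z‖ = 1 ∧ (u : B →L[ℂ] B) = z • (v : B →L[ℂ] B) := by
  have e1 : star (v : B →L[ℂ] B) * v = 1 := Unitary.coe_star_mul_self v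
  have e2 : (v : B →L[ℂ] B) * star (v : B →L[ℂ] B) = 1 := Unitary.coe_mul_star_self v
  have e3 : ((u * v⁻¹ : UU B) : B →L[ℂ] B) = u * star (v : B →L[ℂ] B) := rfl
  rw [← mul_inv_eq_one, ← map_inv, ← map_mul, pr_eq_one, e3]
  constructor
  · rintro ⟨z, hz⟩
    have h1 : (u : B →L[ℂ] B) = z • (v : B →L[ℂ] B) := by
      rw [← mul_one (u : B →L[ℂ] B), ← e1, ← mul_assoc, hz, smul_mul_assoc, one_mul]
    refine ⟨z, ?_, h1⟩
    have h2 := congrArg norm h1
    rw [norm_smul, CStarRing.norm_coe_unitary, CStarRing.norm_coe_unitary, mul_one] at h2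
    exact h2.symm
  · rintro ⟨z, -, hz⟩
    exact ⟨z, by rw [hz, smul_mul_assoc, e2]⟩

theorem lf_pr [Nontrivial B] (u : UU B) :
    ∃ z : ℂ, ‖z‖ = 1 ∧ (lf (pr u) : B →L[ℂ] B) = z • (u : B →L[ℂ] B) := by
  exact pr_eq_iff.1 (pr_lf (pr u))

/-- Conjugation does not depend on the lift. -/
theorem ad_eq {u v : UU B} (h : pr u = pr v) (a : B →L[ℂ] B) :
    (u : B →L[ℂ] B) * a * star (u : B →L[ℂ] B) = (v : B →L[ℂ] B) * a * star (v : B →L[ℂ] B) := by
  rcases subsingleton_or_nontrivial B with hB | hB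
  · exact ContinuousLinearMap.ext fun w => Subsingleton.elim _ _
  obtain ⟨z, hz, e⟩ := pr_eq_iff.1 h
  have h1 : z * star z = 1 := by
    rw [Complex.star_def, Complex.mul_conj, Complex.normSq_eq_norm_sq, hz]
    simp
  rw [e, star_smul, smul_mul_assoc, smul_mul_smul_comm, h1, one_smul]

theorem norm_uu (u : UU B) (v : B) : ‖(u : B →L[ℂ] B) v‖ = ‖v‖ := by
  exact ContinuousLinearMap.norm_map_of_mem_unitary u.2 v

theorem inner_uu (u : UU B) (v w : B) :
    inner ℂ ((u : B →L[ℂ] B) v) w = inner ℂ v (star (u : B →L[ℂ] B) w) := by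
  rw [ContinuousLinearMap.star_eq_adjoint, ContinuousLinearMap.adjoint_inner_right]

theorem sp_one (X : Subgroup (PU B)) : (1 : B →L[ℂ] B) ∈ sp X := by
  exact Submodule.subset_span ⟨1, by rw [map_one]; exact X.one_mem, rfl⟩

theorem sp_coe {X : Subgroup (PU B)} {u : UU B} (h : pr u ∈ X) : (u : B →L[ℂ] B) ∈ sp X := by
  exact Submodule.subset_span ⟨u, h, rfl⟩

theorem sp_mul {X : Subgroup (PU B)} {a b : B →L[ℂ] B} (ha : a ∈ sp X) (hb : b ∈ sp X) :
    a * b ∈ sp X := by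
  induction ha using Submodule.span_induction with
  | mem a ha =>
    obtain ⟨u, hu, rfl⟩ := ha
    induction hb using Submodule.span_induction with
    | mem b hb =>
      obtain ⟨v, hv, rfl⟩ := hb
      exact Submodule.subset_span ⟨u * v, by rw [map_mul]; exact X.mul_mem hu hv, rfl⟩
    | zero => rw [mul_zero]; exact zero_mem _
    | add x y _ _ hx hy => rw [mul_add]; exact add_mem hx hy
    | smul c x _ hx => rw [mul_smul_comm]; exact Submodule.smul_mem _ c hx
  | zero => rw [zero_mul]; exact zero_mem _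
  | add x y _ _ hx hy => rw [add_mul]; exact add_mem hx hy
  | smul c x _ hx => rw [smul_mul_assoc]; exact Submodule.smul_mem _ c hx

theorem sp_star {X : Subgroup (PU B)} {a : B →L[ℂ] B} (ha : a ∈ sp X) : star a ∈ sp X := by
  induction ha using Submodule.span_induction with
  | mem a ha =>
    obtain ⟨u, hu, rfl⟩ := ha
    exact Submodule.subset_span ⟨u⁻¹, by rw [map_inv]; exact X.inv_mem hu, rfl⟩
  | zero => rw [star_zero]; exact zero_mem _
  | add x y _ _ hx hy => rw [star_add]; exact add_mem hx hy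
  | smul c x _ hx => rw [star_smul]; exact Submodule.smul_mem _ _ hx

theorem sp_mono {X Y : Subgroup (PU B)} (h : X ≤ Y) : sp X ≤ sp Y := by
  exact Submodule.span_mono fun a ⟨u, hu, ha⟩ => ⟨u, h hu, ha⟩

/-- A unitary that normalises `X` preserves the span. -/
theorem sp_conj {X Y : Subgroup (PU B)} {x : UU B} (h : ∀ g ∈ X, pr x * g * (pr x)⁻¹ ∈ Y)
    {a : B →L[ℂ] B} (ha : a ∈ sp X) : (x : B →L[ℂ] B) * a * star (x : B →L[ℂ] B) ∈ sp Y := by
  induction ha using Submodule.span_induction with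
  | mem a ha =>
    obtain ⟨u, hu, rfl⟩ := ha
    exact Submodule.subset_span
      ⟨x * u * x⁻¹, by rw [map_mul, map_mul, map_inv]; exact h _ hu, rfl⟩
  | zero => rw [mul_zero, zero_mul]; exact zero_mem _
  | add y z _ _ hy hz => rw [mul_add, add_mul]; exact add_mem hy hz
  | smul c y _ hy => rw [mul_smul_comm, smul_mul_assoc]; exact Submodule.smul_mem _ c hy

theorem Cm.sp {X : Subgroup (PU B)} {a b : B →L[ℂ] B} (h : Cm X b) (ha : a ∈ sp X) :
    Commute a b := by
  induction ha using Submodule.span_induction with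
  | mem a ha =>
    obtain ⟨u, hu, rfl⟩ := ha
    exact h u hu
  | zero => exact Commute.zero_left _
  | add x y _ _ hx hy => exact hx.add_left hy
  | smul c x _ hx => exact hx.smul_left c

theorem Cm.star {X : Subgroup (PU B)} {a : B →L[ℂ] B} (h : Cm X a) : Cm X (star a) := by
  intro u hu
  have h1 : Commute ((u⁻¹ : UU B) : B →L[ℂ] B) a :=
    h u⁻¹ (by rw [map_inv]; exact X.inv_mem hu)
  have h2 : Commute (Star.star (u : B →L[ℂ] B)) a := h1
  have h3 := h2.star_star
  rwa [star_star] at h3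

theorem Cm.mul {X : Subgroup (PU B)} {a b : B →L[ℂ] B} (h : Cm X a) (h' : Cm X b) :
    Cm X (a * b) := fun u hu => (h u hu).mul_right (h' u hu)

theorem Cm.mono {X Y : Subgroup (PU B)} (h : X ≤ Y) {a : B →L[ℂ] B} (ha : Cm Y a) : Cm X a :=
  fun u hu => ha u (h hu)

theorem Cm.sup {X Y : Subgroup (PU B)} {a : B →L[ℂ] B} (h : Cm X a) (h' : Cm Y a) :
    Cm (X ⊔ Y) a := by
  let K : Subgroup (PU B) :=
    { carrier := {g | ∀ u : UU B, pr u = g → Commute (u : B →L[ℂ] B) a}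
      one_mem' := fun u hu => h u (by rw [hu]; exact X.one_mem)
      mul_mem' := by
        intro g g' hg hg' u hu
        have e : u = (u * (lf g')⁻¹) * lf g' := by group
        have h1 := hg (u * (lf g')⁻¹) (by rw [map_mul, map_inv, pr_lf, hu]; group)
        have h2 := hg' (lf g') (pr_lf g')
        rw [e]
        exact h1.mul_left h2
      inv_mem' := by
        intro g hg u hu
        have h1 := hg u⁻¹ (by rw [map_inv, hu, inv_inv])
        have h2 : ((u⁻¹ : UU B) : B →L[ℂ] B) * (u : B →L[ℂ] B) = 1 := by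
          rw [← Submonoid.coe_mul, inv_mul_cancel]; rfl
        have h3 : (u : B →L[ℂ] B) * ((u⁻¹ : UU B) : B →L[ℂ] B) = 1 := by
          rw [← Submonoid.coe_mul, mul_inv_cancel]; rfl
        change (u : B →L[ℂ] B) * a = a * u
        calc (u : B →L[ℂ] B) * a = u * a * (((u⁻¹ : UU B) : B →L[ℂ] B) * u) := by
              rw [h2, mul_one]
          _ = u * (a * ((u⁻¹ : UU B) : B →L[ℂ] B)) * u := by simp only [mul_assoc]
          _ = u * (((u⁻¹ : UU B) : B →L[ℂ] B) * a) * u := by rw [h1.eq]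
          _ = a * u := by rw [← mul_assoc, h3, one_mul] }
  have hK : X ⊔ Y ≤ K :=
    sup_le (fun g hg u hu => h u (by rw [hu]; exact hg))
      (fun g hg u hu => h' u (by rw [hu]; exact hg))
  exact fun u hu => hK hu u rfl

theorem Cm.bot (a : B →L[ℂ] B) : Cm ⊥ a := by
  intro u hu
  obtain ⟨z, hz⟩ := pr_eq_one.1 (Subgroup.mem_bot.1 hu)
  rw [hz]
  exact (Commute.one_left a).smul_left z

theorem Cm.finsup {J : Finset (Subgroup (PU B))} {a : B →L[ℂ] B} (h : ∀ T ∈ J, Cm T a) :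
    Cm (J.sup id) a := by
  classical
  induction J using Finset.induction_on with
  | empty => exact Cm.bot a
  | insert T J _ ih =>
    rw [Finset.sup_insert]
    exact Cm.sup (h T (mem_insert_self _ _)) (ih fun T' hT' => h T' (mem_insert_of_mem hT'))

theorem Cm.conj {X Y : Subgroup (PU B)} {x : UU B} (h : ∀ g ∈ Y, (pr x)⁻¹ * g * pr x ∈ X)
    {a : B →L[ℂ] B} (ha : Cm X a) : Cm Y ((x : B →L[ℂ] B) * a * Star.star (x : B →L[ℂ] B)) := by
  intro u hu
  have h1 := ha (x⁻¹ * u * x) (by rw [map_mul, map_mul, map_inv]; exact h _ hu)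
  have h2 : Commute (Star.star (x : B →L[ℂ] B) * u * x) a := h1
  have e1 : (x : B →L[ℂ] B) * Star.star (x : B →L[ℂ] B) = 1 := Unitary.coe_mul_star_self x
  change (u : B →L[ℂ] B) * (x * a * Star.star (x : B →L[ℂ] B)) =
    x * a * Star.star (x : B →L[ℂ] B) * u
  calc (u : B →L[ℂ] B) * (x * a * Star.star (x : B →L[ℂ] B))
      = (x * Star.star (x : B →L[ℂ] B)) * u * (x * a * Star.star (x : B →L[ℂ] B)) := by
        rw [e1, one_mul]
    _ = x * ((Star.star (x : B →L[ℂ] B) * u * x) * a) * Star.star (x : B →L[ℂ] B) := by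
        simp only [mul_assoc]
    _ = x * (a * (Star.star (x : B →L[ℂ] B) * u * x)) * Star.star (x : B →L[ℂ] B) := by
        rw [h2.eq]
    _ = x * a * Star.star (x : B →L[ℂ] B) * u * (x * Star.star (x : B →L[ℂ] B)) := by
        simp only [mul_assoc]
    _ = _ := by rw [e1, mul_one]

theorem CC.symm {X Y : Subgroup (PU B)} (h : CC X Y) : CC Y X :=
  fun u hu v hv => (h v hv u hu).symm

theorem CC.sp {X Y : Subgroup (PU B)} (h : CC X Y) {a : B →L[ℂ] B} (ha : a ∈ sp Y) : Cm X a := by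
  intro u hu
  exact (Cm.sp (h.symm u hu) ha).symm

theorem CC.comm {X Y : Subgroup (PU B)} (h : CC X Y) {x y : PU B} (hx : x ∈ X) (hy : y ∈ Y) :
    x * y = y * x := by
  have h1 := h (lf y) (by rw [pr_lf]; exact hy) (lf x) (by rw [pr_lf]; exact hx)
  have h2 : lf x * lf y = lf y * lf x := Subtype.ext h1.eq
  have h3 := congrArg pr h2
  rwa [map_mul, map_mul, pr_lf, pr_lf] at h3

variable [FiniteDimensional ℂ B]

omit [CompleteSpace B] [FiniteDimensional ℂ B] in
theorem tau_def (a : B →L[ℂ] B) :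
    tau a = (Module.finrank ℂ B : ℂ)⁻¹ * LinearMap.trace ℂ B (a : B →ₗ[ℂ] B) := rfl

omit [CompleteSpace B] in
theorem tau_mul_comm (a b : B →L[ℂ] B) : tau (a * b) = tau (b * a) := by
  rw [tau_def, tau_def]
  exact congrArg _ (LinearMap.trace_mul_comm ℂ (a : B →ₗ[ℂ] B) (b : B →ₗ[ℂ] B))

omit [CompleteSpace B] in
theorem tau_one [Nontrivial B] : tau (1 : B →L[ℂ] B) = 1 := by
  have h : (Module.finrank ℂ B : ℂ) ≠ 0 := Nat.cast_ne_zero.2 Module.finrank_pos.ne'
  have h1 : LinearMap.trace ℂ B ((1 : B →L[ℂ] B) : B →ₗ[ℂ] B) = Module.finrank ℂ B :=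
    LinearMap.trace_one ℂ B
  rw [tau_def, h1, inv_mul_cancel₀ h]

omit [CompleteSpace B] in
theorem tau_eq_sum {ι : Type*} [Fintype ι] (e : OrthonormalBasis ι ℂ B) (a : B →L[ℂ] B) :
    tau a = (Module.finrank ℂ B : ℂ)⁻¹ * ∑ i, inner ℂ (e i) (a (e i)) := by
  rw [tau_def, LinearMap.trace_eq_sum_inner _ e]
  rfl

theorem tau_star_mul {ι : Type*} [Fintype ι] (e : OrthonormalBasis ι ℂ B) (a b : B →L[ℂ] B) :
    tau (star a * b) = (Module.finrank ℂ B : ℂ)⁻¹ * ∑ i, inner ℂ (a (e i)) (b (e i)) := by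
  rw [tau_eq_sum e]
  refine congrArg _ (sum_congr rfl fun i _ => ?_)
  rw [ContinuousLinearMap.star_eq_adjoint]
  exact ContinuousLinearMap.adjoint_inner_right a (e i) (b (e i))

theorem tau_star_self {ι : Type*} [Fintype ι] (e : OrthonormalBasis ι ℂ B) (a : B →L[ℂ] B) :
    tau (star a * a) = (((Module.finrank ℂ B : ℝ)⁻¹ * ∑ i, ‖a (e i)‖ ^ 2 : ℝ) : ℂ) := by
  rw [tau_star_mul e]
  push_cast
  refine congrArg _ (sum_congr rfl fun i _ => ?_)
  rw [inner_self_eq_norm_sq_to_K]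
  rfl

theorem tau_star (a : B →L[ℂ] B) : tau (star a) = (starRingEnd ℂ) (tau a) := by
  have e := stdOrthonormalBasis ℂ B
  rw [← mul_one (star a), tau_star_mul e, tau_eq_sum e, map_mul, map_sum, map_inv₀, map_natCast]
  refine congrArg _ (sum_congr rfl fun i _ => ?_)
  rw [inner_conj_symm]
  rfl

theorem tau_conj (u : UU B) (a : B →L[ℂ] B) :
    tau ((u : B →L[ℂ] B) * a * star (u : B →L[ℂ] B)) = tau a := by
  rw [tau_mul_comm, ← mul_assoc, Unitary.coe_star_mul_self, one_mul]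

omit [CompleteSpace B] in
theorem norm_tau_le (a : B →L[ℂ] B) : ‖tau a‖ ≤ ‖a‖ := by
  have e := stdOrthonormalBasis ℂ B
  have h : ‖∑ i, inner ℂ (e i) (a (e i))‖ ≤ (Module.finrank ℂ B : ℝ) * ‖a‖ := by
    refine (norm_sum_le _ _).trans ?_
    refine (sum_le_card_nsmul _ _ ‖a‖ fun i _ => ?_).trans ?_
    · refine (norm_inner_le_norm _ _).trans ?_
      have h1 := a.le_opNorm (e i)
      rw [e.orthonormal.1 i] at h1 ⊢
      linarith
    · simp
  rw [tau_eq_sum e, norm_mul, norm_inv, Complex.norm_natCast]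
  rcases Nat.eq_zero_or_pos (Module.finrank ℂ B) with h0 | h0
  · have h2 : (Module.finrank ℂ B : ℝ) = 0 := Nat.cast_eq_zero.2 h0
    rw [h2, inv_zero, zero_mul]
    exact norm_nonneg _
  · have h2 : (0 : ℝ) < Module.finrank ℂ B := Nat.cast_pos.2 h0
    rw [inv_mul_le_iff₀ h2]
    exact h

theorem tau_star_self_nonneg (a : B →L[ℂ] B) : 0 ≤ (tau (star a * a)).re := by
  rw [tau_star_self (stdOrthonormalBasis ℂ B), Complex.ofReal_re]
  positivity

theorem tau_star_self_im (a : B →L[ℂ] B) : (tau (star a * a)).im = 0 := by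
  rw [tau_star_self (stdOrthonormalBasis ℂ B), Complex.ofReal_im]

theorem tau_faithful {a : B →L[ℂ] B} (h : (tau (star a * a)).re ≤ 0) : a = 0 := by
  have e := stdOrthonormalBasis ℂ B
  rw [tau_star_self e, Complex.ofReal_re] at h
  have h1 : ∀ i, a (e i) = 0 := by
    intro i
    have h2 : (0 : ℝ) < Module.finrank ℂ B := Nat.cast_pos.2 (Fin.pos i)
    have h3 : ∑ i, ‖a (e i)‖ ^ 2 ≤ 0 := by
      by_contra h4
      exact absurd h (not_le.2 (mul_pos (inv_pos.2 h2) (not_le.1 h4)))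
    have h5 : ‖a (e i)‖ ^ 2 ≤ ∑ i, ‖a (e i)‖ ^ 2 :=
      single_le_sum (f := fun i => ‖a (e i)‖ ^ 2) (fun _ _ => by positivity) (mem_univ i)
    have h6 : ‖a (e i)‖ ^ 2 = 0 := le_antisymm (h5.trans h3) (by positivity)
    exact norm_eq_zero.1 (pow_eq_zero_iff two_ne_zero |>.1 h6)
  refine ContinuousLinearMap.coe_injective (e.toBasis.ext fun i => ?_)
  simpa using h1 i

/-- Cauchy-Schwarz. -/
theorem tau_cs (a b : B →L[ℂ] B) :
    ‖tau (star a * b)‖ ^ 2 ≤ (tau (star a * a)).re * (tau (star b * b)).re := by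
  have e := stdOrthonormalBasis ℂ B
  rw [tau_star_self e, tau_star_self e, Complex.ofReal_re, Complex.ofReal_re, tau_star_mul e,
    norm_mul, norm_inv, Complex.norm_natCast]
  have h : ‖∑ i, inner ℂ (a (e i)) (b (e i))‖ ≤ ∑ i, ‖a (e i)‖ * ‖b (e i)‖ :=
    (norm_sum_le _ _).trans (sum_le_sum fun i _ => norm_inner_le_norm _ _)
  have h1 := (pow_le_pow_left₀ (norm_nonneg _) h 2).trans
    (sum_mul_sq_le_sq_mul_sq univ (fun i => ‖a (e i)‖) fun i => ‖b (e i)‖)
  have h2 : (0 : ℝ) ≤ ((Module.finrank ℂ B : ℝ)⁻¹) ^ 2 := by positivity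
  have h3 := mul_le_mul_of_nonneg_left h1 h2
  rw [mul_pow]
  refine h3.trans (le_of_eq ?_)
  ring

end Pool.Agent.Lib.MP_cd2b7c_an.SV
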