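import Pool.Agent.Lib.MP_cd2b7c_an.SV.Tau

/-! Twirls, factors and joins. -/

open Finset
open scoped BigOperators

namespace Pool.Agent.Lib.MP_cd2b7c_an.SV

section grp

variable {P : Type*} [Group P] {X Y : Subgroup P} [Finite X] [Finite Y]

omit [Finite X] [Finite Y] in
theorem mem_sup_comm (h : ∀ x ∈ X, ∀ y ∈ Y, x * y = y * x) {g : P} (hg : g ∈ X ⊔ Y) :
    ∃ x ∈ X, ∃ y ∈ Y, g = x * y := by
  let S : Subgroup P :=
    { carrier := {g | ∃ x ∈ X, ∃ y ∈ Y, g = x * y}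
      one_mem' := ⟨1, X.one_mem, 1, Y.one_mem, (mul_one 1).symm⟩
      mul_mem' := by
        rintro _ _ ⟨x, hx, y, hy, rfl⟩ ⟨x', hx', y', hy', rfl⟩
        refine ⟨x * x', X.mul_mem hx hx', y * y', Y.mul_mem hy hy', ?_⟩
        rw [mul_assoc, ← mul_assoc y, ← h x' hx' y hy, mul_assoc, mul_assoc]
      inv_mem' := by
        rintro _ ⟨x, hx, y, hy, rfl⟩
        refine ⟨x⁻¹, X.inv_mem hx, y⁻¹, Y.inv_mem hy, ?_⟩
        rw [mul_inv_rev, h _ (X.inv_mem hx) _ (Y.inv_mem hy)] }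
  have hle : X ⊔ Y ≤ S :=
    sup_le (fun x hx => ⟨x, hx, 1, Y.one_mem, (mul_one x).symm⟩)
      (fun y hy => ⟨1, X.one_mem, y, hy, (one_mul y).symm⟩)
  exact hle hg

theorem finite_sup (h : ∀ x ∈ X, ∀ y ∈ Y, x * y = y * x) :
    Finite (X ⊔ Y : Subgroup P) ∧ Nat.card (X ⊔ Y : Subgroup P) ≤ Nat.card X * Nat.card Y := by
  let f : X × Y → (X ⊔ Y : Subgroup P) := fun p => ⟨p.1 * p.2, Subgroup.mul_mem_sup p.1.2 p.2.2⟩
  have hf : Function.Surjective f := by
    rintro ⟨g, hg⟩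
    obtain ⟨x, hx, y, hy, rfl⟩ := mem_sup_comm h hg
    exact ⟨(⟨x, hx⟩, ⟨y, hy⟩), rfl⟩
  refine ⟨Finite.of_surjective f hf, ?_⟩
  rw [← Nat.card_prod]
  exact Nat.card_le_card_of_surjective f hf

omit [Finite Y] in
theorem t1_avr_congr {F F' : P → ℝ} (h : ∀ g ∈ X, F g = F' g) : avr X F = avr X F' :=
  le_antisymm (avr_le_avr fun g hg => (h g hg).le) (avr_le_avr fun g hg => (h g hg).ge)

theorem t1_avr_equiv (e : P ≃ P) (he : ∀ g, g ∈ X ↔ e g ∈ X) (F : P → ℝ) :
    avr X (fun g => F (e g)) = avr X F := by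
  rw [avr, avr, sum_els_equiv e he F]

omit [Finite X] [Finite Y] in
theorem t1_avr_comm (F : P → P → ℝ) :
    avr X (fun g => avr Y fun g' => F g g') = avr Y fun g' => avr X fun g => F g g' := by
  simp only [avr, ← mul_sum]
  rw [sum_comm, mul_left_comm]

theorem avr_sup (h : ∀ x ∈ X, ∀ y ∈ Y, x * y = y * x) (F : P → ℝ) :
    avr (X ⊔ Y) F = avr X fun x => avr Y fun y => F (x * y) := by
  have := (finite_sup h).1
  have h1 : ∀ g ∈ X ⊔ Y, (avr X fun x => avr Y fun y => F (x * y)) =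
      avr X fun x => avr Y fun y => F (x * g * y) := by
    intro g hg
    obtain ⟨x0, hx0, y0, hy0, rfl⟩ := mem_sup_comm h hg
    rw [← t1_avr_equiv (Equiv.mulRight x0) (fun g => (X.mul_mem_cancel_right hx0).symm)
      (fun x => avr Y fun y => F (x * y))]
    refine t1_avr_congr fun x _ => ?_
    rw [← t1_avr_equiv (Equiv.mulLeft y0) (fun g => (Y.mul_mem_cancel_left hy0).symm)
      (fun y => F (Equiv.mulRight x0 x * y))]
    refine t1_avr_congr fun y _ => ?_
    simp only [Equiv.coe_mulRight, Equiv.coe_mulLeft, mul_assoc]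
  have h2 : ∀ x ∈ X, ∀ y ∈ Y, (avr (X ⊔ Y) fun g => F (x * g * y)) = avr (X ⊔ Y) F := by
    intro x hx y hy
    have hx' : x ∈ X ⊔ Y := Subgroup.mem_sup_left hx
    have hy' : y ∈ X ⊔ Y := Subgroup.mem_sup_right hy
    exact t1_avr_equiv ((Equiv.mulLeft x).trans (Equiv.mulRight y)) (fun g => by
      change g ∈ X ⊔ Y ↔ x * g * y ∈ X ⊔ Y
      rw [Subgroup.mul_mem_cancel_right _ hy', Subgroup.mul_mem_cancel_left _ hx']) F
  symm
  rw [← avr_const (X := X ⊔ Y) (avr X fun x => avr Y fun y => F (x * y)), t1_avr_congr h1,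
    t1_avr_comm]
  rw [← avr_const (X := X) (avr (X ⊔ Y) F)]
  refine t1_avr_congr fun x hx => ?_
  rw [t1_avr_comm, ← avr_const (X := Y) (avr (X ⊔ Y) F)]
  exact t1_avr_congr fun y hy => h2 x hx y hy

end grp

variable {B : Type*} [NormedAddCommGroup B] [InnerProductSpace ℂ B] [CompleteSpace B]
  {X : Subgroup (PU B)} [Finite X]

theorem t1_mul_avg (c d : B →L[ℂ] B) (F : PU B → B →L[ℂ] B) :
    c * avg X F * d = avg X fun g => c * F g * d :=
  map_avg ((LinearMap.mulRight ℂ d).comp (LinearMap.mulLeft ℂ c)) F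

theorem t1_ad_tw {u : UU B} (hu : pr u ∈ X) (a : B →L[ℂ] B) :
    (u : B →L[ℂ] B) * tw X a * star (u : B →L[ℂ] B) = tw X a := by
  rw [tw, t1_mul_avg, ← avg_equiv (X := X) (Equiv.mulLeft (pr u))
    (fun g => (X.mul_mem_cancel_left hu).symm)
    (fun g => (lf g : B →L[ℂ] B) * a * star (lf g : B →L[ℂ] B))]
  refine avg_congr fun g _ => ?_
  have h : pr (lf (Equiv.mulLeft (pr u) g)) = pr (u * lf g) := by
    rw [pr_lf, map_mul, pr_lf, Equiv.coe_mulLeft]
  rw [ad_eq h, Submonoid.coe_mul, star_mul]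
  simp only [mul_assoc]

theorem tw_cm (a : B →L[ℂ] B) : Cm X (tw X a) := by
  intro u hu
  have h := congrArg (· * (u : B →L[ℂ] B)) (t1_ad_tw hu a)
  simp only [mul_assoc, Unitary.coe_star_mul_self, mul_one] at h
  exact h

theorem tw_of_cm {a : B →L[ℂ] B} (h : Cm X a) : tw X a = a := by
  rw [tw]
  refine (avg_congr fun g hg => ?_).trans (avg_const a)
  rw [(h (lf g) (by rwa [pr_lf])).eq, mul_assoc, ← Unitary.coe_star, Unitary.coe_mul_star_self,
    mul_one]

theorem tw_mul_cm (a : B →L[ℂ] B) {b : B →L[ℂ] B} (h : Cm X b) : tw X (a * b) = tw X a * b := by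
  have h1 := t1_mul_avg (X := X) 1 b
    fun g => (lf g : B →L[ℂ] B) * a * star (lf g : B →L[ℂ] B)
  rw [one_mul] at h1
  rw [tw, tw, h1]
  refine avg_congr fun g hg => ?_
  have h2 := (h (lf g)⁻¹ (by rw [map_inv, pr_lf]; exact X.inv_mem hg)).eq
  rw [← Unitary.star_eq_inv, Unitary.coe_star] at h2
  simp only [one_mul, mul_assoc, h2]

omit [Finite X] in
theorem t1_tw_star (a : B →L[ℂ] B) : tw X (star a) = star (tw X a) := by
  simp only [tw, avg, star_smul, star_sum, star_mul, star_star, star_inv₀, star_natCast, mul_assoc]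

theorem tw_star (a : B →L[ℂ] B) : tw X (star a) = star (tw X a) := by
  exact t1_tw_star a

theorem tw_mem {a : B →L[ℂ] B} (ha : a ∈ sp X) : tw X a ∈ sp X := by
  refine avg_mem fun g hg => ?_
  have h : (lf g : B →L[ℂ] B) ∈ sp X := sp_coe (by rwa [pr_lf])
  exact sp_mul (sp_mul h ha) (sp_star h)

variable [FiniteDimensional ℂ B] [Nontrivial B]

omit [Nontrivial B] in
theorem tau_tw (a : B →L[ℂ] B) : tau (tw X a) = tau a := by
  rw [tw, map_avg]
  exact (avg_congr fun g _ => tau_conj (lf g) a).trans (avg_const _)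

theorem Fac.tw (h : Fac X) {a : B →L[ℂ] B} (ha : a ∈ sp X) : tw X a = tau a • 1 := by
  obtain ⟨z, hz⟩ := h _ (tw_mem ha) (tw_cm a)
  have h1 := tau_tw (X := X) a
  rw [hz, map_smul, tau_one, smul_eq_mul, mul_one] at h1
  rw [hz, h1]

/-- Independence. -/
theorem Fac.tau_mul (h : Fac X) {a b : B →L[ℂ] B} (ha : a ∈ sp X) (hb : Cm X b) :
    tau (a * b) = tau a * tau b := by
  rw [← tau_tw (X := X) (a * b), tw_mul_cm a hb, h.tw ha, smul_mul_assoc, one_mul, map_smul,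
    smul_eq_mul]

theorem sig_ge : (Nat.card X : ℝ)⁻¹ ≤ sig X := by
  have h1 : ‖tau (lf (1 : PU B) : B →L[ℂ] B)‖ ^ 2 = 1 := by
    obtain ⟨z, hz, h⟩ := lf_pr (1 : UU B)
    rw [map_one] at h
    rw [h, OneMemClass.coe_one, map_smul, tau_one, smul_eq_mul, mul_one, hz, one_pow]
  have h2 := single_le_sum (f := fun g : PU B => ‖tau (lf g : B →L[ℂ] B)‖ ^ 2) (s := els X)
    (fun g _ => sq_nonneg _) (mem_els.2 X.one_mem)
  rw [h1] at h2
  rw [sig, avr]
  exact le_mul_of_one_le_right (inv_nonneg.2 (Nat.cast_nonneg _)) h2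

theorem sig_le_one : sig X ≤ 1 := by
  rw [← avr_const (X := X) (1 : ℝ), sig]
  refine avr_le_avr fun g _ => ?_
  have h := tau_cs 1 (lf g : B →L[ℂ] B)
  rwa [star_one, one_mul, one_mul, Unitary.coe_star_mul_self, tau_one, Complex.one_re,
    one_mul] at h

/-- The frame operator. -/
noncomputable def t2S (X : Subgroup (PU B)) (y : B →L[ℂ] B) : B →L[ℂ] B :=
  avg X fun g => tau (star (lf g : B →L[ℂ] B) * y) • (lf g : B →L[ℂ] B)

omit [FiniteDimensional ℂ B] in
theorem t2_term {u v : UU B} (h : pr u = pr v) (y : B →L[ℂ] B) :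
    tau (star (u : B →L[ℂ] B) * y) • (u : B →L[ℂ] B) =
      tau (star (v : B →L[ℂ] B) * y) • (v : B →L[ℂ] B) := by
  obtain ⟨z, hz, e⟩ := pr_eq_iff.1 h
  have h1 : star z * z = 1 := by
    rw [Complex.star_def, Complex.conj_mul', hz]
    simp
  rw [e, star_smul, smul_mul_assoc, map_smul, smul_smul, smul_eq_mul, mul_right_comm, h1, one_mul]

omit [FiniteDimensional ℂ B] in
theorem t2S_left {u : UU B} (hu : pr u ∈ X) :
    t2S X (u : B →L[ℂ] B) = (u : B →L[ℂ] B) * t2S X 1 := by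
  have h1 := t1_mul_avg (X := X) (u : B →L[ℂ] B) 1
    fun g => tau (star (lf g : B →L[ℂ] B) * 1) • (lf g : B →L[ℂ] B)
  rw [mul_one] at h1
  rw [t2S, t2S, h1, ← avg_equiv (X := X) (Equiv.mulLeft (pr u))
    (fun g => (X.mul_mem_cancel_left hu).symm)
    (fun g => tau (star (lf g : B →L[ℂ] B) * (u : B →L[ℂ] B)) • (lf g : B →L[ℂ] B))]
  refine avg_congr fun g _ => ?_
  have h : pr (lf (Equiv.mulLeft (pr u) g)) = pr (u * lf g) := by
    rw [pr_lf, map_mul, pr_lf, Equiv.coe_mulLeft]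
  rw [t2_term h, Submonoid.coe_mul, star_mul, mul_assoc, Unitary.coe_star_mul_self, mul_one,
    mul_one, mul_smul_comm]

theorem t2S_right {u : UU B} (hu : pr u ∈ X) :
    t2S X (u : B →L[ℂ] B) = t2S X 1 * (u : B →L[ℂ] B) := by
  have h1 := t1_mul_avg (X := X) 1 (u : B →L[ℂ] B)
    fun g => tau (star (lf g : B →L[ℂ] B) * 1) • (lf g : B →L[ℂ] B)
  rw [one_mul] at h1
  rw [t2S, t2S, h1, ← avg_equiv (X := X) (Equiv.mulRight (pr u))
    (fun g => (X.mul_mem_cancel_right hu).symm)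
    (fun g => tau (star (lf g : B →L[ℂ] B) * (u : B →L[ℂ] B)) • (lf g : B →L[ℂ] B))]
  refine avg_congr fun g _ => ?_
  have h : pr (lf (Equiv.mulRight (pr u) g)) = pr (lf g * u) := by
    rw [pr_lf, map_mul, pr_lf, Equiv.coe_mulRight]
  have h2 : tau (star (u : B →L[ℂ] B) * star (lf g : B →L[ℂ] B) * (u : B →L[ℂ] B)) =
      tau (star (lf g : B →L[ℂ] B)) := by
    rw [tau_mul_comm, ← mul_assoc, Unitary.mul_star_self_of_mem u.2, one_mul]
  rw [t2_term h, Submonoid.coe_mul, star_mul, h2, mul_one, one_mul, smul_mul_assoc]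

theorem t2S_one (h : Fac X) : t2S X 1 = ((sig X : ℝ) : ℂ) • 1 := by
  have hm : t2S X 1 ∈ sp X :=
    avg_mem fun g hg => Submodule.smul_mem _ _ (sp_coe (by rwa [pr_lf]))
  obtain ⟨z, hz⟩ := h _ hm fun u hu => (t2S_left hu).symm.trans (t2S_right hu)
  have h1 : tau (t2S X 1) = ((sig X : ℝ) : ℂ) := by
    rw [t2S, map_avg, sig, ← avg_ofReal]
    refine avg_congr fun g _ => ?_
    rw [map_smul, mul_one, tau_star, smul_eq_mul, Complex.conj_mul', Complex.ofReal_pow]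
  rw [hz, map_smul, tau_one, smul_eq_mul, mul_one] at h1
  rw [hz, h1]

omit [FiniteDimensional ℂ B] [Nontrivial B] [Finite X] in
theorem t2S_sub (a b : B →L[ℂ] B) (c : ℂ) : t2S X (a - c • b) = t2S X a - c • t2S X b := by
  simp only [t2S, avg, mul_sub, map_sub, sub_smul, sum_sub_distrib, smul_sub, mul_smul_comm,
    map_smul, smul_eq_mul, mul_smul, ← smul_sum]
  rw [smul_comm c]

theorem t2_centre (u : UU B) :
    (tau (star ((u : B →L[ℂ] B) - tau (u : B →L[ℂ] B) • 1) *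
      ((u : B →L[ℂ] B) - tau (u : B →L[ℂ] B) • 1))).re = 1 - ‖tau (u : B →L[ℂ] B)‖ ^ 2 := by
  have h : tau (star ((u : B →L[ℂ] B) - tau (u : B →L[ℂ] B) • 1) *
      ((u : B →L[ℂ] B) - tau (u : B →L[ℂ] B) • 1)) =
      ((1 - ‖tau (u : B →L[ℂ] B)‖ ^ 2 : ℝ) : ℂ) := by
    simp only [star_sub, star_smul, star_one, sub_mul, mul_sub, Unitary.coe_star_mul_self,
      smul_mul_assoc, mul_smul_comm, one_mul, mul_one, map_sub, map_smul, tau_one, tau_star,
      smul_eq_mul, Complex.star_def]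
    push_cast
    rw [← Complex.conj_mul']
    ring
  rw [h, Complex.ofReal_re]

theorem Fac.sig_le (h : Fac X) (h0 : X ≠ ⊥) : sig X ≤ 1 / 2 := by
  obtain ⟨x, hx, hx1⟩ : ∃ x ∈ X, x ≠ 1 := by
    by_contra hc
    push Not at hc
    exact h0 ((Subgroup.eq_bot_iff_forall X).2 hc)
  have hu : pr (lf x) ∈ X := by rwa [pr_lf]
  obtain ⟨a, ha⟩ : ∃ a : B →L[ℂ] B, a = (lf x : B →L[ℂ] B) - tau (lf x : B →L[ℂ] B) • 1 :=
    ⟨_, rfl⟩
  have ha0 : a ≠ 0 := fun e => hx1 (by
    rw [← pr_lf x]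
    exact pr_eq_one.2 ⟨_, sub_eq_zero.1 (ha ▸ e)⟩)
  have hta : tau a = 0 := by
    rw [ha, map_sub, map_smul, tau_one, smul_eq_mul, mul_one, sub_self]
  have hS : t2S X a = ((sig X : ℝ) : ℂ) • a := by
    rw [ha, t2S_sub, t2S_left hu, t2S_one h, mul_smul_comm, mul_one, smul_sub, smul_comm]
  have hN : 0 < (tau (star a * a)).re := not_le.1 fun e => ha0 (tau_faithful e)
  have h1 : sig X * (tau (star a * a)).re =
      avr X fun g => ‖tau (star (lf g : B →L[ℂ] B) * a)‖ ^ 2 := by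
    have h2 : tau (star a * t2S X a) =
        avg X fun g => ((‖tau (star (lf g : B →L[ℂ] B) * a)‖ ^ 2 : ℝ) : ℂ) := by
      refine (map_avg (tau ∘ₗ LinearMap.mulLeft ℂ (star a)) _).trans (avg_congr fun g _ => ?_)
      have h3 : star a * (lf g : B →L[ℂ] B) = star (star (lf g : B →L[ℂ] B) * a) := by
        rw [star_mul, star_star]
      rw [map_smul, LinearMap.comp_apply, LinearMap.mulLeft_apply, h3, tau_star, smul_eq_mul,
        Complex.mul_conj', Complex.ofReal_pow]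
    rw [avg_ofReal, hS, mul_smul_comm, map_smul, smul_eq_mul] at h2
    have h4 := congrArg Complex.re h2
    rwa [Complex.re_ofReal_mul, Complex.ofReal_re] at h4
  have h5 : (avr X fun g => ‖tau (star (lf g : B →L[ℂ] B) * a)‖ ^ 2) ≤
      avr X fun g => (1 - ‖tau (lf g : B →L[ℂ] B)‖ ^ 2) * (tau (star a * a)).re := by
    refine avr_le_avr fun g _ => ?_
    have h6 := tau_cs ((lf g : B →L[ℂ] B) - tau (lf g : B →L[ℂ] B) • 1) a
    rwa [t2_centre, star_sub, sub_mul, map_sub, star_smul, star_one, smul_mul_assoc, one_mul,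
      map_smul, hta, smul_zero, sub_zero] at h6
  have h7 : (avr X fun g => (1 - ‖tau (lf g : B →L[ℂ] B)‖ ^ 2) * (tau (star a * a)).re) =
      (1 - sig X) * (tau (star a * a)).re := by
    have h8 := avr_const (X := X) (1 : ℝ)
    rw [avr] at h8
    rw [sig, avr, avr, ← sum_mul, sum_sub_distrib, ← mul_assoc, mul_sub, h8]
  rw [← h1, h7] at h5
  have h9 := le_of_mul_le_mul_right h5 hN
  linarith

theorem Fac.sig_sup (h : Fac X) {Y : Subgroup (PU B)} [Finite Y] (hc : CC X Y) :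
    sig (X ⊔ Y) = sig X * sig Y := by
  rw [sig, avr_sup fun x hx y hy => hc.comm hx hy]
  have h1 : ∀ x ∈ X, (avr Y fun y => ‖tau (lf (x * y) : B →L[ℂ] B)‖ ^ 2) =
      ‖tau (lf x : B →L[ℂ] B)‖ ^ 2 * sig Y := by
    intro x hx
    have h2 : ∀ y ∈ Y, ‖tau (lf (x * y) : B →L[ℂ] B)‖ ^ 2 =
        ‖tau (lf x : B →L[ℂ] B)‖ ^ 2 * ‖tau (lf y : B →L[ℂ] B)‖ ^ 2 := by
      intro y hy
      obtain ⟨z, hz, e⟩ := lf_pr (lf x * lf y)
      rw [map_mul, pr_lf, pr_lf] at e
      rw [e, map_smul, Submonoid.coe_mul,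
        h.tau_mul (sp_coe (by rwa [pr_lf])) (hc (lf y) (by rwa [pr_lf])), smul_eq_mul, norm_mul,
        hz, one_mul, norm_mul, mul_pow]
    rw [t1_avr_congr h2, sig, avr, avr, ← mul_sum, mul_left_comm]
  rw [t1_avr_congr h1, avr, ← sum_mul, ← mul_assoc]
  rfl

omit [Nontrivial B] in
/-- The square norm of a twirl. -/
theorem tau_tw_sq (a : B →L[ℂ] B) : tau (star (tw X a) * tw X a) =
    avg X fun g => tau ((lf g : B →L[ℂ] B) * star a * star (lf g : B →L[ℂ] B) * a) := by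
  rw [← tw_star, tau_mul_comm, ← tw_mul_cm a (tw_cm _), tau_tw, tau_mul_comm]
  exact map_avg (tau ∘ₗ LinearMap.mulRight ℂ a) _

theorem norm_tau_sq_le (a : B →L[ℂ] B) : ‖tau a‖ ^ 2 ≤ (tau (star (tw X a) * tw X a)).re := by
  have h := tau_cs 1 (tw X a)
  rwa [star_one, one_mul, one_mul, tau_tw, tau_one, Complex.one_re, one_mul] at h

variable {H : Type*} [Group H] {σ : H →* UU B}

omit [FiniteDimensional ℂ B] [Nontrivial B] in
theorem Prim.schur (hp : Prim σ) {a : B →L[ℂ] B} (h : ∀ x, Commute (σ x : B →L[ℂ] B) a) :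
    ∃ z : ℂ, a = z • 1 := by
  have key : ∀ c : B →L[ℂ] B, star c = c → (∀ x, Commute (σ x : B →L[ℂ] B) c) →
      ∃ z : ℂ, c = z • 1 := fun c h1 h2 => by
    refine hp {c} ?_ ?_ ?_ c rfl
    · rintro _ rfl
      exact h1
    · rintro _ rfl _ rfl
      exact Commute.refl _
    · rintro x _ rfl
      rw [(h2 x).eq, mul_assoc, Unitary.mul_star_self_of_mem (σ x).2, mul_one]
      rfl
  have hs : ∀ x, Commute (σ x : B →L[ℂ] B) (star a) := fun x => by
    have := (h x⁻¹).star_star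
    rwa [map_inv, ← Unitary.star_eq_inv, Unitary.coe_star, star_star] at this
  obtain ⟨y, hy⟩ := key (a + star a) (by rw [star_add, star_star, add_comm])
    fun x => (h x).add_right (hs x)
  obtain ⟨z, hz⟩ := key (Complex.I • (a - star a))
    (by rw [star_smul, star_sub, star_star, Complex.star_def, Complex.conj_I, neg_smul, ← smul_neg,
      neg_sub]) fun x => ((h x).sub_right (hs x)).smul_right _
  refine ⟨2⁻¹ * y - 2⁻¹ * Complex.I * z, ?_⟩
  rw [sub_smul, mul_smul, mul_smul _ z, ← hy, ← hz, smul_smul, mul_assoc, Complex.I_mul_I]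
  module

theorem Prim.sum_conj [Fintype H] (hp : Prim σ) (a : B →L[ℂ] B) :
    ∑ x, (σ x : B →L[ℂ] B) * a * star (σ x : B →L[ℂ] B) = (Fintype.card H * tau a : ℂ) • 1 := by
  obtain ⟨z, hz⟩ := hp.schur (a := ∑ x, (σ x : B →L[ℂ] B) * a * star (σ x : B →L[ℂ] B)) fun y => by
    rw [Commute, SemiconjBy, mul_sum, sum_mul]
    refine Fintype.sum_equiv (Equiv.mulLeft y) _ _ fun x => ?_
    rw [Equiv.coe_mulLeft, map_mul, Submonoid.coe_mul, star_mul]
    simp only [mul_assoc]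
    rw [Unitary.star_mul_self_of_mem (σ y).2, mul_one]
  have := congrArg tau hz
  rw [map_sum, map_smul, tau_one, smul_eq_mul, mul_one] at this
  simp only [tau_conj, sum_const, card_univ, nsmul_eq_mul] at this
  rw [hz, this]

theorem Prim.mean_tw [Fintype H] (hp : Prim σ) :
    𝔼 x, (tau (star (SV.tw X (σ x)) * SV.tw X (σ x))).re = sig X := by
  have key : ∀ u : B →L[ℂ] B,
      ∑ x, tau (u * star (σ x : B →L[ℂ] B) * star u * (σ x : B →L[ℂ] B)) =
      Fintype.card H * ((‖tau u‖ ^ 2 : ℝ) : ℂ) := fun u => by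
    have e : ∑ x, star (σ x : B →L[ℂ] B) * star u * (σ x : B →L[ℂ] B) =
        (Fintype.card H * tau (star u) : ℂ) • 1 := by
      rw [← hp.sum_conj]
      refine Fintype.sum_equiv (Equiv.inv H) _ _ fun x => ?_
      rw [Equiv.inv_apply, map_inv, ← Unitary.star_eq_inv, Unitary.coe_star, star_star]
    have e2 := congrArg (fun t => tau (u * t)) e
    simp only [mul_sum, map_sum, ← mul_assoc, mul_smul_comm, mul_one, map_smul, smul_eq_mul] at e2
    rw [e2, tau_star, mul_assoc, Complex.conj_mul', Complex.ofReal_pow]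
  have hc : (Fintype.card H : ℝ) ≠ 0 := Nat.cast_ne_zero.2 Fintype.card_ne_zero
  simp only [tau_tw_sq, re_avg, sig, avr_eq_expect]
  rw [expect_comm]
  refine expect_congr rfl fun g _ => ?_
  rw [expect_eq_sum_div_card, ← Complex.re_sum, key, card_univ, ← Complex.ofReal_natCast,
    ← Complex.ofReal_mul, Complex.ofReal_re, mul_div_cancel_left₀ _ hc]

end Pool.Agent.Lib.MP_cd2b7c_an.SV
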